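import Pool.Agent.Shared.FrobeniusDensity

/-! Every cyclic subgroup of a Galois group is generated by Frobenius elements of arbitrarily large
primes; two subgroups that contain these Frobenius elements cannot both be proper. -/

namespace Pool.Agent.StarkD

open NumberField Filter Finset Pool.Agent.Shared.FrobeniusDensity
open scoped Pointwise Topology Classical

variable {M : Type*} [Field M] [NumberField M] [IsGalois ℚ M]

theorem exists_frob (g : M ≃ₐ[ℚ] M) (N : ℕ) : ∃ (p : ℕ) (P : Ideal (𝓞 M)) (σ : M ≃ₐ[ℚ] M),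
    N < p ∧ p.Prime ∧ P.IsPrime ∧ (p : 𝓞 M) ∈ P ∧ (∀ x : 𝓞 M, σ • x - x ^ p ∈ P) ∧
      Subgroup.zpowers σ = Subgroup.zpowers g := by
  have hφ : ∀ p : ℕ, ∃ σ : M ≃ₐ[ℚ] M, p.Prime → IsFrob p σ := fun p => by
    by_cases hp : p.Prime
    · exact (exists_isFrob hp).imp fun _ h _ => h
    · exact ⟨1, fun h => (hp h).elim⟩
  choose φ hφ using hφ
  have hz : ∀ h σ : M ≃ₐ[ℚ] M, Subgroup.zpowers (h⁻¹ * σ * h) =
      (Subgroup.zpowers σ).map (MulAut.conj h⁻¹).toMonoidHom := fun h σ => by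
    rw [MonoidHom.map_zpowers]
    simp
  have hl := frobenius_density φ hφ {σ | ∃ h, Subgroup.zpowers (h⁻¹ * σ * h) = Subgroup.zpowers g}
    (fun σ k => ⟨fun ⟨h, e⟩ => ⟨k * h, by rw [← e]; simp [mul_assoc]⟩,
      fun ⟨h, e⟩ => ⟨k⁻¹ * h, by rw [← e]; simp [mul_assoc]⟩⟩)
    fun σ τ e ⟨h, e'⟩ => ⟨h, by rw [← e', hz, hz, e]⟩
  by_contra hne
  have h0 := tendsto_nhds_unique hl (lim_zero (by
    filter_upwards [eventually_gt_atTop N] with p hN hp
    refine if_neg fun ⟨h, e⟩ => hne ?_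
    obtain ⟨P, hP, h1, h2⟩ := hφ p hp
    refine ⟨p, h⁻¹ • P, _, hN, hp, Ideal.IsPrime.smul (H := hP) _, ?_, fun x => ?_, e⟩
    · rw [Ideal.mem_inv_pointwise_smul_iff]
      simpa [← MulSemiringAction.toRingHom_apply] using h1
    · rw [Ideal.mem_inv_pointwise_smul_iff, smul_sub, smul_pow', mul_smul, mul_smul,
        smul_inv_smul]
      exact h2 _))
  rw [div_eq_zero_iff, Nat.cast_eq_zero, Nat.cast_eq_zero, card_eq_zero] at h0
  refine h0.elim (fun h => notMem_empty g (h ▸ ?_)) Fintype.card_ne_zero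
  simp only [mem_filter, mem_univ, true_and]
  exact ⟨1, by simp⟩

/-- If the Frobenius elements of all large primes that lie in `Γ` lie in `A` or in `B`, then `Γ`
is contained in `A` or in `B`. -/
theorem cover (Γ A B : Subgroup (M ≃ₐ[ℚ] M)) (N : ℕ)
    (h : ∀ (p : ℕ) (P : Ideal (𝓞 M)) (σ : M ≃ₐ[ℚ] M), N < p → p.Prime → P.IsPrime →
      (p : 𝓞 M) ∈ P → (∀ x : 𝓞 M, σ • x - x ^ p ∈ P) → σ ∈ Γ → σ ∈ A ∨ σ ∈ B) :
    Γ ≤ A ∨ Γ ≤ B := by
  have key : ∀ g ∈ Γ, g ∈ A ∨ g ∈ B := fun g hg => by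
    obtain ⟨p, P, σ, h1, h2, h3, h4, h5, h6⟩ := exists_frob g N
    have hle : ∀ C : Subgroup (M ≃ₐ[ℚ] M), σ ∈ C ↔ g ∈ C := fun C => by
      rw [← Subgroup.zpowers_le, h6, Subgroup.zpowers_le]
    rw [← hle, ← hle]
    exact h p P σ h1 h2 h3 h4 h5 ((hle _).2 hg)
  by_contra hc
  rw [not_or, SetLike.not_le_iff_exists, SetLike.not_le_iff_exists] at hc
  obtain ⟨⟨a, ha, ha'⟩, b, hb, hb'⟩ := hc
  rcases key _ (Γ.mul_mem ha hb) with h1 | h1
  · exact ha' ((A.mul_mem_cancel_right ((key b hb).resolve_right hb')).1 h1)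
  · exact hb' ((B.mul_mem_cancel_left ((key a ha).resolve_left ha')).1 h1)

end Pool.Agent.StarkD
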