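import Pool.Agent.Lib.MP_ca56d1_nt.AR.All
import Pool.Agent.Lib.MP_ca56d1_nt.D.Cover

/-! Over a quadratic field, a subgroup that contains a Frobenius element above every large prime
number is the whole Galois group. -/

set_option linter.unusedSectionVars false

namespace Pool.Agent.StarkD

open NumberField IsDedekindDomain Pool.Agent.Stark Pool.Agent.Stark.AR StarkStmt
open Pool.Agent.Shared.FrobeniusDensity (under_eq absNorm_eq_of_pow)
open scoped IsMulCommutative Classical Pointwise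

variable {K H : Type} [Field K] [NumberField K] [Field H] [NumberField H] [Algebra K H]
  [IsAbelianGalois K H]

section

variable {M : Type} [Field M] [NumberField M] [Algebra K M] [Algebra H M] [IsScalarTower K H M]

/-- A Frobenius element of degree one restricts to the Frobenius element of the prime below. -/
theorem res_frob [Normal K M] {S : Finset (Pr K)} (hS : UnrO H S) (τ : M ≃ₐ[K] M) (Q : Pr M)
    {p : ℕ} (hp : p.Prime) (hQ : (p : 𝓞 M) ∈ Q.asIdeal) (hQS : below K Q ∉ S)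
    (h : ∀ x : 𝓞 M, τ • x - x ^ p ∈ Q.asIdeal) :
    Ideal.absNorm (below K Q).asIdeal = p ∧
      AlgEquiv.restrictNormalHom H τ = fr K H (below K Q) := by
  have hN : Ideal.absNorm (below K Q).asIdeal = p := by
    refine absNorm_eq_of_pow (below K Q).isPrime hp ?_ fun x => ?_
    · change algebraMap (𝓞 K) (𝓞 M) p ∈ Q.asIdeal
      simpa using hQ
    · change algebraMap (𝓞 K) (𝓞 M) _ ∈ Q.asIdeal
      have h1 := neg_mem (h (algebraMap (𝓞 K) (𝓞 M) x))
      rwa [show τ • algebraMap (𝓞 K) (𝓞 M) x = algebraMap (𝓞 K) (𝓞 M) x from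
        RingOfIntegers.ext (τ.commutes (x : K)), neg_sub, ← map_pow, ← map_sub] at h1
  have hb := (hTow K M H).below_below Q
  refine ⟨hN, ?_⟩
  rw [← hb]
  refine (hFr K H).uniq inferInstance (below H Q) _ (hS _ (hb ▸ hQS)) fun x => ?_
  rw [hb, hN]
  change algebraMap (𝓞 H) (𝓞 M) _ ∈ Q.asIdeal
  have h1 := h (algebraMap (𝓞 H) (𝓞 M) x)
  rwa [show τ • algebraMap (𝓞 H) (𝓞 M) x =
      algebraMap (𝓞 H) (𝓞 M) (AlgEquiv.restrictNormalHom H τ • x) from
    RingOfIntegers.ext (AlgEquiv.restrictNormal_commutes τ H (x : H)).symm, ← map_pow,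
    ← map_sub] at h1

theorem index_two [IsGalois ℚ M] (h2 : Module.finrank ℚ K = 2) :
    (AlgEquiv.restrictScalarsHom ℚ : (M ≃ₐ[K] M) →* (M ≃ₐ[ℚ] M)).range.index = 2 := by
  have : IsGalois K M := IsGalois.tower_top_of_isGalois ℚ K M
  have h1 := (AlgEquiv.restrictScalarsHom ℚ : (M ≃ₐ[K] M) →* (M ≃ₐ[ℚ] M)).range.index_mul_card
  rw [← Nat.card_congr (MonoidHom.ofInjective (AlgEquiv.restrictScalarsHom_injective ℚ)).toEquiv,
    IsGalois.card_aut_eq_finrank, IsGalois.card_aut_eq_finrank,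
    ← Module.finrank_mul_finrank ℚ K M, h2] at h1
  exact Nat.eq_of_mul_eq_mul_right Module.finrank_pos h1

theorem cov_aux [IsGalois ℚ M] (h2 : Module.finrank ℚ K = 2) {S : Finset (Pr K)} (hS : UnrO H S)
    (G : Subgroup (H ≃ₐ[K] H)) (N : ℕ) (h : ∀ p : ℕ, N < p → p.Prime →
      ∃ P : Pr K, (p : 𝓞 K) ∈ P.asIdeal ∧ P ∉ S ∧ fr K H P ∈ G) : G = ⊤ := by
  have : IsGalois K M := IsGalois.tower_top_of_isGalois ℚ K M
  let ι : (M ≃ₐ[K] M) →* (M ≃ₐ[ℚ] M) := AlgEquiv.restrictScalarsHom ℚ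
  let r : (M ≃ₐ[K] M) →* (H ≃ₐ[K] H) := AlgEquiv.restrictNormalHom H
  have hi : ι.range.index = 2 := index_two h2
  have hn := Subgroup.normal_of_index_eq_two hi
  obtain ⟨t, ht⟩ : ∃ t, t ∉ ι.range := by
    by_contra hc
    push Not at hc
    rw [(Subgroup.eq_top_iff' _).2 hc, Subgroup.index_top] at hi
    omega
  have hc : ∀ k ∈ ι.range, ∀ σ, k * σ * k⁻¹ ∈ (G.comap r).map ι → σ ∈ (G.comap r).map ι := by
    rintro _ ⟨k, rfl⟩ σ ⟨τ, h1, h3⟩
    refine ⟨k⁻¹ * τ * k, ?_, ?_⟩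
    · change r _ ∈ G
      rw [map_mul, map_mul, mul_right_comm, ← map_mul, inv_mul_cancel, map_one, one_mul]
      exact h1
    · rw [map_mul, map_mul, h3, map_inv]
      group
  have key := cover ι.range ((G.comap r).map ι)
    (((G.comap r).map ι).comap (MulAut.conj t).toMonoidHom) N fun p Q σ hN hp hQ hpQ hσ hΓ => by
      obtain ⟨P, hP1, hP2, hP3⟩ := h p hN hp
      obtain ⟨Q', rfl⟩ := below_surj (K := M) P
      have hpQ' : (p : 𝓞 M) ∈ Q'.asIdeal := by
        have h1 : algebraMap (𝓞 K) (𝓞 M) p ∈ Q'.asIdeal := hP1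
        simpa using h1
      have := Q'.isPrime
      have : Q.LiesOver (Ideal.span {(p : ℤ)}) := ⟨(under_eq hQ.ne_top hp hpQ).symm⟩
      have : Q'.asIdeal.LiesOver (Ideal.span {(p : ℤ)}) :=
        ⟨(under_eq Q'.isPrime.ne_top hp hpQ').symm⟩
      obtain ⟨k, hk⟩ := Ideal.exists_smul_eq_of_isGaloisGroup (Ideal.span {(p : ℤ)}) Q
        Q'.asIdeal Gal(M/ℚ)
      obtain ⟨τ, hτ⟩ := hn.conj_mem σ hΓ k
      have h3 := (res_frob hS τ Q' hp hpQ' hP2 fun x => by
        have h4 : τ • x = (k * σ * k⁻¹) • x := by rw [← hτ]; rfl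
        rw [h4, ← hk, Ideal.mem_pointwise_smul_iff_inv_smul_mem, smul_sub, smul_pow', mul_smul,
          mul_smul, inv_smul_smul]
        exact hσ _).2
      have h4 : k * σ * k⁻¹ ∈ (G.comap r).map ι := ⟨τ, by
        change r τ ∈ G
        exact h3 ▸ hP3, hτ⟩
      by_cases hk' : k ∈ ι.range
      · exact Or.inl (hc k hk' σ h4)
      · refine Or.inr (hc (k * t⁻¹) ?_ (t * σ * t⁻¹) ?_)
        · rw [Subgroup.mul_mem_iff_of_index_two hi, inv_mem_iff]
          exact iff_of_false hk' ht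
        · convert h4 using 1
          group
  have h5 : ι.range ≤ (G.comap r).map ι := key.elim id fun h6 γ hγ => by
    have h7 : t * (t⁻¹ * γ * t⁻¹⁻¹) * t⁻¹ ∈ (G.comap r).map ι := h6 (hn.conj_mem γ hγ t⁻¹)
    convert h7 using 1
    group
  refine (Subgroup.eq_top_iff' _).2 fun g => ?_
  obtain ⟨τ, rfl⟩ := AlgEquiv.restrictNormalHom_surjective (F := K) (K₁ := H) M g
  obtain ⟨τ', h6, h7⟩ := h5 ⟨τ, rfl⟩
  rw [← AlgEquiv.restrictScalarsHom_injective ℚ h7]
  exact h6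

end

theorem cov (h2 : Module.finrank ℚ K = 2) {S : Finset (Pr K)} (hS : UnrO H S)
    (G : Subgroup (H ≃ₐ[K] H)) (N : ℕ) (h : ∀ p : ℕ, N < p → p.Prime →
      ∃ P : Pr K, (p : 𝓞 K) ∈ P.asIdeal ∧ P ∉ S ∧ fr K H P ∈ G) : G = ⊤ := by
  let M := IntermediateField.normalClosure ℚ H (AlgebraicClosure H)
  have : NumberField M := {}
  have : IsAlgClosure ℚ (AlgebraicClosure H) :=
    ⟨inferInstance, Algebra.IsAlgebraic.trans ℚ H _⟩
  have : IsGalois ℚ M := IsGalois.normalClosure ℚ H (AlgebraicClosure H)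
  let _ : Algebra K M := ((algebraMap H M).comp (algebraMap K H)).toAlgebra
  have : IsScalarTower K H M := IsScalarTower.of_algebraMap_eq' rfl
  exact cov_aux (M := M) h2 hS G N h

end Pool.Agent.StarkD
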