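import Pool.Agent.Lib.MP_ca56d1_nt.D.Val
import Pool.Agent.Lib.MP_ca56d1_nt.D.Cov

/-! Over a real quadratic field the value part of the conjecture for all abelian extensions
implies that the elements are units. -/

set_option linter.unusedSectionVars false

namespace Pool.Agent.StarkD

open NumberField IsDedekindDomain Pool.Agent.Stark Pool.Agent.Stark.AR StarkStmt
open Pool.Agent.Shared
open scoped IsMulCommutative Classical

theorem four {G : Type} [CommGroup G] [Fintype G] (u : G → ℂ)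
    (h : ∀ χ : G →* ℂ, ∑ g, χ g * u g = 0) (a : G) : u a = 0 := by
  have h1 : ∑ ψ : AddChar (Additive G) ℂ, ∑ g, ψ (Additive.ofMul (g * a⁻¹)) * u g = 0 := by
    refine Finset.sum_eq_zero fun ψ _ => ?_
    have h2 := h ⟨⟨fun g => ψ (Additive.ofMul g), ψ.map_zero_eq_one⟩,
      fun a b => ψ.map_add_eq_mul _ _⟩
    have h3 := congrArg (ψ (Additive.ofMul a⁻¹) * ·) h2
    simp only [Finset.mul_sum, mul_zero] at h3
    rw [← h3]
    refine Finset.sum_congr rfl fun g _ => ?_
    rw [ofMul_mul, ψ.map_add_eq_mul]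
    simp only [MonoidHom.coe_mk, OneHom.coe_mk]
    ring
  rw [Finset.sum_comm] at h1
  simp only [← Finset.sum_mul, AddChar.sum_apply_eq_ite, ofMul_eq_zero, mul_inv_eq_one] at h1
  rw [Finset.sum_eq_single a (fun b _ hb => by rw [if_neg hb, zero_mul]) (by simp), if_pos rfl,
    mul_eq_zero] at h1
  exact h1.resolve_left (Nat.cast_ne_zero.2 Fintype.card_ne_zero)

theorem four_step {G : Type} [Group G] [Fintype G] (u : G → ℂ) (χ : G →* ℂ) (a : G) :
    ∑ g, χ g * (u g - u (g * a⁻¹)) = (1 - χ a) * ∑ g, χ g * u g := by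
  simp only [mul_sub, Finset.sum_sub_distrib, sub_mul, one_mul, Finset.mul_sum]
  congr 1
  refine (Fintype.sum_equiv (Equiv.mulRight a) _ _ fun g => ?_).symm
  simp only [Equiv.coe_mulRight, map_mul, mul_inv_cancel_right]
  ring

theorem minFac_eq {F : Type} [Field F] [NumberField F] (P : Pr F) {p : ℕ} (hp : p.Prime)
    (h : (p : 𝓞 F) ∈ P.asIdeal) : (Ideal.absNorm P.asIdeal).minFac = p := by
  obtain ⟨h1, h2, -⟩ := PrimeZeta.pr_spec P.asIdeal P.isMaximal
  by_contra hne
  exact P.isPrime.ne_top ((Ideal.eq_top_iff_one _).2 (FrobeniusDensity.one_mem_of_coprime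
    ((Nat.coprime_primes h1 hp).2 hne) h2 h))

variable {K H : Type} [Field K] [NumberField K] [Field H] [NumberField H] [Algebra K H]

theorem fI_eq [IsGalois K H] {Q Q' : Pr H} (h : below K Q' = below K Q) : fI K Q' = fI K Q := by
  have := SplitAux.lies (F := K) Q
  have := SplitAux.lies_of h
  rw [fI, fI, ← Ideal.inertiaDegIn_eq_inertiaDeg (below K Q).asIdeal Q.asIdeal Gal(H/K),
    ← Ideal.inertiaDegIn_eq_inertiaDeg (below K Q).asIdeal Q'.asIdeal Gal(H/K)]

theorem fI_dvd [IsGalois K H] (Q : Pr H) {a : H} (ha : a ≠ 0) :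
    (fI K Q : ℤ) ∣ og (below K Q) (Algebra.norm K a) := by
  rw [← dv_apply, GalAux.dv_norm a ha, GalAux.nm_apply _ _
    (below_finite (K := H) (below K Q)).toFinset fun Q' => by simp]
  refine Finset.dvd_sum fun Q' hQ' => ?_
  rw [fI_eq (Q := Q) (Q' := Q') (by simpa using hQ')]
  exact dvd_mul_right _ _

theorem le_norm [IsGalois K H] {p : ℕ} {ζ : H} (hp : p ≠ 0) (hζ : IsPrimitiveRoot ζ p) {y : K}
    (hy : algebraMap K H y = ζ + ζ⁻¹) (q : Pr K) (hq : (p : 𝓞 K) ∉ q.asIdeal) :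
    p ≤ Ideal.absNorm q.asIdeal + 1 := by
  have h1 := (hFr K H).zeta inferInstance p ζ q hp hζ hq
  have h2 := (fr K H q).commutes y
  have h0 := hζ.ne_zero hp
  have h3 := PrimeZeta.two_le_absNorm q.asIdeal q.isMaximal
  rw [hy, map_add, map_inv₀, h1] at h2
  obtain ⟨n, hn⟩ : ∃ n, Ideal.absNorm q.asIdeal = n + 1 := ⟨_, (Nat.sub_add_cancel (by omega)).symm⟩
  rw [hn] at h2 h3 ⊢
  have h4 : (ζ ^ n - 1) * (ζ ^ (n + 2) - 1) = 0 := by
    field_simp at h2
    have h5 : ζ * ((ζ ^ n - 1) * (ζ ^ (n + 2) - 1)) = 0 := by linear_combination h2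
    exact (mul_eq_zero.1 h5).resolve_left h0
  rcases mul_eq_zero.1 h4 with h5 | h5
  · have := Nat.le_of_dvd (by omega) (hζ.dvd_of_pow_eq_one _ (sub_eq_zero.1 h5))
    omega
  · exact Nat.le_of_dvd (by omega) (hζ.dvd_of_pow_eq_one _ (sub_eq_zero.1 h5))

variable [IsAbelianGalois K H]

/-- The valuations of an element for a set `S` that contains the primes above `p` are divisible
by a large residue degree. -/
theorem big {s : K →+* ℝ} (hW : WS K s) {S S' : Finset (Pr K)} (hne : S'.Nonempty) (hS : UnrO H S)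
    (hSS : S ⊆ S') {φ : H →+* ℝ} (hφ : φ.comp (algebraMap K H) = s) {p : ℕ} (hp : p ≠ 0)
    (hd : p.Coprime (discr H).natAbs) (hS' : ∀ q ∉ S', (p : 𝓞 K) ∉ q.asIdeal) {E : H}
    (hE : Val S' φ E) (Q : Pr H) (hQ : (p : 𝓞 H) ∉ Q.asIdeal) :
    ∃ f : ℕ, (f : ℤ) ∣ og Q E ∧ p ≤ Ideal.absNorm Q.asIdeal ^ f + 1 := by
  obtain ⟨hab, ζ, -, hζ, -, -, -, hU⟩ := cycF hFr hTow K H inferInstance p hp hd
  let ψ := ComplexEmbedding.lift (CyclotomicField p H) (Complex.ofRealHom.comp φ)
  have hψ : ∀ x, ψ (algebraMap H _ x) = φ x := fun x => ComplexEmbedding.lift_algebraMap_apply _ _ x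
  let L : IntermediateField H (CyclotomicField p H) :=
    (Complex.ofRealHom.fieldRange.comap ψ).toIntermediateField fun x => ⟨φ x, (hψ x).symm⟩
  have hr : ComplexEmbedding.IsReal (ψ.comp (algebraMap L (CyclotomicField p H))) := by
    rw [ComplexEmbedding.isReal_iff]
    ext x
    obtain ⟨t, ht⟩ := x.2
    change (starRingEnd ℂ) (ψ x) = ψ x
    rw [← ht]
    exact Complex.conj_ofReal t
  have hφ' : hr.embedding.comp (algebraMap H L) = φ := by
    ext x
    apply Complex.ofReal_injective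
    exact (hr.coe_embedding_apply _).trans (hψ x)
  have hy : ζ + ζ⁻¹ ∈ L := by
    have h1 : ‖ψ ζ‖ = 1 := (hζ.map_of_injective ψ.injective).norm'_eq_one hp
    refine ⟨2 * (ψ ζ).re, ?_⟩
    rw [map_add, map_inv₀, Complex.inv_eq_conj h1, Complex.add_conj]
    rfl
  have : IsScalarTower K L (CyclotomicField p H) := IsScalarTower.of_algebraMap_eq' rfl
  have : IsAbelianGalois K L := IsAbelianGalois.tower_bot K L (CyclotomicField p H)
  have : IsGalois H L := IsGalois.tower_top_of_isGalois K H L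
  have : IsGalois L (CyclotomicField p H) := IsGalois.tower_top_of_isGalois K L _
  have hL : UnrO L S' := (hTow K (CyclotomicField p H) L).bot S' (hU S S' hS hSS hS')
  obtain ⟨ε, hε⟩ := hW L S' hr.embedding hne hL (by
    rw [IsScalarTower.algebraMap_eq K H L, ← RingHom.comp_assoc, hφ', hφ])
  have h1 := hε.norm (H := H) hL
  rw [hφ'] at h1
  obtain ⟨Q', rfl⟩ := below_surj (K := L) Q
  refine ⟨fI H Q', hE.uniq h1 ▸ fI_dvd Q' hε.ne, ?_⟩
  rw [← (gal H L).norm_eq]
  refine le_norm hp hζ (y := ⟨_, hy⟩) rfl Q' fun h => hQ ?_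
  change algebraMap (𝓞 H) (𝓞 L) p ∈ Q'.asIdeal
  simpa using h

theorem induct {S : Finset (Pr K)} {φ : H →+* ℝ} {ε : H} (h : Val S φ ε) (Q : Pr H) (C : ℕ)
    (hC : ∀ g : H ≃ₐ[K] H, (og Q (g ε)).natAbs ≤ C) (T : Finset (Pr K)) (hT : Disjoint T S) :
    ∃ E : H, Val (T ∪ S) φ E ∧ (∀ g : H ≃ₐ[K] H, (og Q (g E)).natAbs ≤ 2 ^ T.card * C) ∧
      ∀ χ : (H ≃ₐ[K] H) →* ℂ, ∑ g, χ g * (og Q (g E) : ℂ) =
        (∏ P ∈ T, (1 - χ (fr K H P))) * ∑ g, χ g * (og Q (g ε) : ℂ) := by
  induction T using Finset.induction_on with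
  | empty => exact ⟨ε, by simpa using h, by simpa using hC, by simp⟩
  | insert q T hq ih =>
    rw [Finset.disjoint_insert_left] at hT
    obtain ⟨E, h1, h2, h3⟩ := ih hT.2
    have e : ∀ g : H ≃ₐ[K] H, og Q (g (E / (fr K H q)⁻¹ E)) =
        og Q (g E) - og Q ((g * (fr K H q)⁻¹) E) := fun g => by
      rw [map_div₀]
      exact ord_div (by simpa using h1.ne) (by simpa using h1.ne)
    refine ⟨E / (fr K H q)⁻¹ E, ?_, fun g => ?_, fun χ => ?_⟩
    · rw [Finset.insert_union]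
      exact h1.euler (by simp [hq, hT.1])
    · rw [e, Finset.card_insert_of_notMem hq, pow_succ]
      have h4 := h2 g
      have h5 := h2 (g * (fr K H q)⁻¹)
      have h6 := Int.natAbs_sub_le (og Q (g E)) (og Q ((g * (fr K H q)⁻¹) E))
      linarith
    · simp only [e, Int.cast_sub]
      rw [four_step (fun g : H ≃ₐ[K] H => (og Q (g E) : ℂ)), h3, Finset.prod_insert hq, mul_assoc]

theorem isU_of_norm {s : K →+* ℝ} (hW : WS K s) (h2 : Module.finrank ℚ K = 2) {S : Finset (Pr K)}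
    (hne : S.Nonempty) (hS : UnrO H S) {φ : H →+* ℝ} (hφ : φ.comp (algebraMap K H) = s) {ε : H}
    (h : Val S φ ε) (hN : ∀ q : Pr K, og q (Algebra.norm K ε) = 0) : IsU ε := by
  refine ⟨h.ne, fun Q => ?_⟩
  refine Int.cast_injective (α := ℂ) ((four (fun g : H ≃ₐ[K] H => (og Q (g ε) : ℂ))
    (fun χ => ?_) 1).trans Int.cast_zero.symm)
  by_contra hχ
  have hker : χ.ker = ⊤ := by
    let C := ∑ g : H ≃ₐ[K] H, (og Q (g ε)).natAbs
    let D := 2 ^ Module.finrank ℤ (𝓞 K) * C
    refine cov h2 hS _ (∑ g : H ≃ₐ[K] H, (Ideal.absNorm (g⁻¹ • Q).asIdeal ^ (D + 1) + 1) +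
      (discr H).natAbs) fun p hB hp => ?_
    have hp0 : Ideal.span {(p : 𝓞 K)} ≠ 0 := by simpa using hp.ne_zero
    have hT : ∀ P : Pr K, P ∈ (Ideal.finite_factors hp0).toFinset \ S ↔
        (p : 𝓞 K) ∈ P.asIdeal ∧ P ∉ S := fun P => by simp
    generalize (Ideal.finite_factors hp0).toFinset \ S = T at hT
    have hc : T.card ≤ Module.finrank ℤ (𝓞 K) := by
      rw [← Finset.card_image_of_injective T (f := fun P : Pr K => P.asIdeal)
        fun _ _ e => HeightOneSpectrum.ext e]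
      refine PrimeZeta.card_le_finrank _ p (fun I hI => ?_) fun I hI => ?_
      · obtain ⟨P, -, rfl⟩ := Finset.mem_image.1 hI
        exact P.isMaximal
      · obtain ⟨P, hP, rfl⟩ := Finset.mem_image.1 hI
        exact minFac_eq P hp ((hT P).1 hP).1
    obtain ⟨E, h3, h4, h5⟩ := induct h Q C (fun g => Finset.single_le_sum
      (f := fun g : H ≃ₐ[K] H => (og Q (g ε)).natAbs) (fun _ _ => Nat.zero_le _)
      (Finset.mem_univ g)) T (Finset.disjoint_left.2 fun P hP => ((hT P).1 hP).2)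
    have h6 : ∀ g : H ≃ₐ[K] H, og Q (g E) = 0 := fun g => by
      have h7 : Ideal.absNorm (g⁻¹ • Q).asIdeal ^ (D + 1) + 1 < p :=
        ((Finset.single_le_sum (f := fun g : H ≃ₐ[K] H =>
          Ideal.absNorm (g⁻¹ • Q).asIdeal ^ (D + 1) + 1) (fun _ _ => Nat.zero_le _)
          (Finset.mem_univ g)).trans (Nat.le_add_right _ _)).trans_lt hB
      have h8 := PrimeZeta.two_le_absNorm (g⁻¹ • Q).asIdeal (g⁻¹ • Q).isMaximal
      obtain ⟨f, hf1, hf2⟩ := big hW (hne.mono Finset.subset_union_right) hS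
        Finset.subset_union_right hφ hp.ne_zero
        (Nat.coprime_of_lt_prime (Int.natAbs_ne_zero.2 (discr_ne_zero H)) (by omega) hp)
        (fun q hq hq' => by
          rw [Finset.mem_union, not_or] at hq
          exact hq.1 ((hT q).2 ⟨hq', hq.2⟩)) h3 (g⁻¹ • Q) fun hq => by
          have h9 := Nat.minFac_le (n := Ideal.absNorm (g⁻¹ • Q).asIdeal) (by omega)
          have h10 := Nat.le_self_pow (n := D + 1) (by omega) (Ideal.absNorm (g⁻¹ • Q).asIdeal)
          rw [minFac_eq _ hp hq] at h9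
          omega
      rw [← GalAux.og_smul g, smul_inv_smul] at hf1
      by_contra h0
      have h9 : f ≤ (og Q (g E)).natAbs :=
        Nat.le_of_dvd (Int.natAbs_pos.2 h0) (Int.natCast_dvd.1 hf1)
      have h10 : 2 ^ T.card * C ≤ D := Nat.mul_le_mul_right _ (Nat.pow_le_pow_right two_pos hc)
      have h11 := h4 g
      have h12 := Nat.pow_le_pow_right (n := Ideal.absNorm (g⁻¹ • Q).asIdeal) (by omega)
        (show f ≤ D + 1 by omega)
      omega
    have h7 := h5 χ
    simp only [h6, Int.cast_zero, mul_zero, Finset.sum_const_zero] at h7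
    obtain ⟨P, hP, h8⟩ := Finset.prod_eq_zero_iff.1 ((mul_eq_zero.1 h7.symm).resolve_right hχ)
    exact ⟨P, ((hT P).1 hP).1, ((hT P).1 hP).2, (sub_eq_zero.1 h8).symm⟩
  have h3 : ∀ g, χ g = 1 := fun g => MonoidHom.mem_ker.1 (hker ▸ Subgroup.mem_top g)
  have h4 := og_algebraMap Q (Algebra.norm K ε)
  rw [hN, mul_zero, Algebra.norm_eq_prod_automorphisms,
    GalAux.og_prod _ _ _ fun g => by simpa using h.ne] at h4
  refine hχ ?_
  simp only [h3, one_mul]
  exact_mod_cast h4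

theorem norm_unit (h2 : Module.finrank ℚ K = 2) (s : K →+* ℝ) {ε : H}
    (h : ∀ w : InfinitePlace H, w.comap (algebraMap K H) ≠ plc s → w ε = 1) (q : Pr K) :
    og q (Algebra.norm K ε) = 0 := by
  have h1 := InfinitePlace.card_add_two_mul_card_eq_rank K
  have : Nonempty {w : InfinitePlace K // w.IsReal} := ⟨⟨_, plc_isReal s⟩⟩
  have h3 : 0 < InfinitePlace.nrRealPlaces K := Fintype.card_pos
  obtain ⟨v, hv⟩ := Fintype.exists_ne_of_one_lt_card
    (show 1 < InfinitePlace.nrRealPlaces K by omega) ⟨_, plc_isReal s⟩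
  obtain ⟨s', hs'⟩ := exists_plc v.2
  obtain ⟨w, hw⟩ := InfinitePlace.comap_surjective (K := H) v.1
  have h4 : |s' (Algebra.norm K ε)| = 1 := by
    rw [← plc_apply, hs', ← hw, InfinitePlace.comap_apply, Algebra.norm_eq_prod_automorphisms,
      map_prod]
    refine Finset.prod_eq_one fun g _ => h (w.comap (g : H →+* H)) fun e => hv (Subtype.ext ?_)
    rw [← InfinitePlace.comap_comp, show (g : H →+* H).comp (algebraMap K H) = algebraMap K H from
      RingHom.ext g.commutes] at e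
    exact hw.symm.trans e
  rcases (abs_eq zero_le_one).1 h4 with h5 | h5
  · rw [s'.injective (h5.trans (map_one s').symm), og, ord_one]
  · rw [s'.injective (h5.trans (by simp : (-1 : ℝ) = s' (-1))), og, ord_neg, ord_one]

/-- The element is a unit at all finite primes. -/
theorem isU_of_WS {s : K →+* ℝ} (hW : WS K s) (h2 : Module.finrank ℚ K = 2) {S : Finset (Pr K)}
    (hne : S.Nonempty) (hS : UnrO H S) {φ : H →+* ℝ} (hφ : φ.comp (algebraMap K H) = s) {ε : H}
    (h : Val S φ ε)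
    (hi : ∀ w : InfinitePlace H, w.comap (algebraMap K H) ≠ plc s → w ε = 1) : IsU ε :=
  isU_of_norm hW h2 hne hS hφ h (norm_unit h2 s hi)

end Pool.Agent.StarkD
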