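import Pool.Agent.Lib.MP_ca56d1_nt.D.St
import Pool.Agent.Lib.MP_ca56d1_nt.D.Unit

/-! Existence of the frame. -/

set_option linter.unusedSectionVars false

namespace Pool.Agent.StarkD

open NumberField IsDedekindDomain Pool.Agent.Stark Pool.Agent.Stark.AR Pool.Agent.RM StarkStmt
open Pool.Agent.Shared
open scoped IsMulCommutative Classical nonZeroDivisors Pointwise

variable {K : Type} [Field K] [NumberField K] {σ σ' : K →+* ℝ}
  {H : Type} [Field H] [NumberField H] [Algebra K H] [IsAbelianGalois K H]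

namespace FrameAux

theorem exists_val {M : Type} [Field M] [NumberField M] (ι : M →+* ℂ) (Q : Pr M) :
    ∃ O : ValuationSubring ℂ, ∀ x : 𝓞 M, O.valuation (ι x) < 1 ↔ x ∈ Q.asIdeal := by
  let f := ι.comp (algebraMap (𝓞 M) M)
  have hf : Function.Injective f := ι.injective.comp RingOfIntegers.coe_injective
  let e : 𝓞 M ≃+* f.range := RingEquiv.ofBijective f.rangeRestrict
    ⟨fun a b h => hf (congrArg Subtype.val h), f.rangeRestrict_surjective⟩
  obtain ⟨O, h1, h2⟩ := Ideal.image_subset_nonunits_valuationSubring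
    (Q.asIdeal.comap e.symm.toRingHom) (Ideal.comap_ne_top _ Q.isPrime.ne_top)
  have h3 : ∀ x ∈ Q.asIdeal, O.valuation (f x) < 1 := fun x hx =>
    O.mem_nonunits_iff.1 (h2 ⟨e x, by simpa using hx, rfl⟩)
  refine ⟨O, fun x => ⟨fun h => ?_, h3 x⟩⟩
  by_contra hx
  obtain ⟨y, z, hz, h4⟩ := Q.isMaximal.exists_inv hx
  have h5 : O.valuation (f y) ≤ 1 := (O.valuation_le_one_iff _).2 (h1 ⟨y, rfl⟩)
  have h6 : O.valuation (f y * f x) < 1 := by
    rw [map_mul]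
    exact mul_lt_one_of_nonneg_of_lt_one_right h5 zero_le h
  have h7 := O.valuation.map_add_lt h6 (h3 z hz)
  rw [← map_mul, ← map_add, h4, map_one, map_one] at h7
  exact lt_irrefl _ h7

theorem mul_dvd {p : ℕ} {q q' : Pr K} (hne : q ≠ q') (h : (p : 𝓞 K) ∈ q.asIdeal)
    (h' : (p : 𝓞 K) ∈ q'.asIdeal) : q.asIdeal * q'.asIdeal ∣ Ideal.span {(p : 𝓞 K)} := by
  refine IsCoprime.mul_dvd ?_ (Ideal.dvd_span_singleton.2 h) (Ideal.dvd_span_singleton.2 h')
  rw [EulerAux.coprime_iff]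
  intro hd
  exact hne (HeightOneSpectrum.ext (q.isMaximal.eq_of_le q'.isPrime.ne_top
    (Ideal.dvd_iff_le.1 hd)))

theorem norm_span (h2 : Module.finrank ℚ K = 2) (p : ℕ) :
    Ideal.absNorm (Ideal.span {(p : 𝓞 K)}) = p ^ 2 := by
  rw [Ideal.absNorm_span_natCast, RingOfIntegers.rank, h2]

theorem og_of_mul {p : ℕ} (hp : p ≠ 0) {q q' : Pr K} (hne : q ≠ q')
    (h : Ideal.span {(p : 𝓞 K)} = q.asIdeal * q'.asIdeal) : og q (p : K) = 1 := by
  have h0 : (p : 𝓞 K) ≠ 0 := by exact_mod_cast hp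
  have h1 := (le_og_iff q h0 1).2 (by
    rw [pow_one, ← Ideal.dvd_span_singleton, h]
    exact dvd_mul_right _ _)
  have h2 : ¬ ((2 : ℕ) : ℤ) ≤ og q ((p : 𝓞 K) : K) := by
    rw [le_og_iff q h0, ← Ideal.dvd_span_singleton, h, sq, mul_dvd_mul_iff_left q.ne_bot]
    intro hd
    exact hne (HeightOneSpectrum.ext (q'.isMaximal.eq_of_le q.isPrime.ne_top
      (Ideal.dvd_iff_le.1 hd))).symm
  have e : ((p : 𝓞 K) : K) = p := by simp
  rw [e] at h1 h2
  omega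

theorem spl_of (h2 : Module.finrank ℚ K = 2) {p : ℕ} (hp : p.Prime) {q q' : Pr K} (hne : q ≠ q')
    (h : (p : 𝓞 K) ∈ q.asIdeal) (h' : (p : 𝓞 K) ∈ q'.asIdeal) (hN : Ideal.absNorm q.asIdeal = p)
    (hN' : Ideal.absNorm q'.asIdeal = p) : Spl p q q' := by
  obtain ⟨J, hJ⟩ := mul_dvd hne h h'
  have h1 := congrArg Ideal.absNorm hJ
  rw [norm_span h2, map_mul, map_mul, hN, hN', ← sq, eq_comm,
    mul_eq_left₀ (pow_ne_zero _ hp.ne_zero), Ideal.absNorm_eq_one_iff] at h1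
  rw [h1, Ideal.mul_top] at hJ
  refine ⟨hp, hne, Finsupp.ext fun r => ?_⟩
  rw [dv_apply, Finsupp.add_apply]
  by_cases e : q = r
  · subst e
    rw [og_of_mul hp.ne_zero hne hJ, Finsupp.single_eq_same, Finsupp.single_eq_of_ne hne, add_zero]
  by_cases e' : q' = r
  · subst e'
    rw [og_of_mul hp.ne_zero hne.symm (hJ.trans (mul_comm _ _)), Finsupp.single_eq_same,
      Finsupp.single_eq_of_ne hne.symm, zero_add]
  rw [Finsupp.single_eq_of_ne' e, Finsupp.single_eq_of_ne' e', add_zero]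
  have h0 : (p : 𝓞 K) ≠ 0 := by exact_mod_cast hp.ne_zero
  have h3 := og_nonneg r (p : 𝓞 K)
  have h4 : ¬ 0 < og r ((p : 𝓞 K) : K) := by
    rw [og_pos_iff r h0, ← Ideal.dvd_span_singleton, hJ, r.prime.dvd_mul]
    rintro (hd | hd)
    · exact e (HeightOneSpectrum.ext (q.isMaximal.eq_of_le r.isPrime.ne_top
        (Ideal.dvd_iff_le.1 hd)))
    · exact e' (HeightOneSpectrum.ext (q'.isMaximal.eq_of_le r.isPrime.ne_top
        (Ideal.dvd_iff_le.1 hd)))
  have e : ((p : 𝓞 K) : K) = p := by simp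
  rw [e] at h3 h4
  omega

theorem mem_of_spl {p : ℕ} {q q' : Pr K} (h : Spl p q q') : (p : 𝓞 K) ∈ q.asIdeal := by
  have h0 : (p : 𝓞 K) ≠ 0 := by exact_mod_cast h.1.ne_zero
  have e : ((p : 𝓞 K) : K) = p := by simp
  rw [← og_pos_iff q h0, e, ← dv_apply, h.2.2, Finsupp.add_apply, Finsupp.single_eq_same,
    Finsupp.single_eq_of_ne h.2.1]
  omega

theorem norm_of_spl (h2 : Module.finrank ℚ K = 2) {p : ℕ} {q q' : Pr K} (h : Spl p q q') :
    Ideal.absNorm q.asIdeal = p := by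
  have h1 := Ideal.absNorm_dvd_absNorm_of_le
    (Ideal.dvd_iff_le.1 (mul_dvd h.2.1 (mem_of_spl h) (mem_of_spl h.symm)))
  obtain ⟨-, -, a, ha, e⟩ := PrimeZeta.pr_spec q.asIdeal q.isMaximal
  obtain ⟨-, -, b, hb, e'⟩ := PrimeZeta.pr_spec q'.asIdeal q'.isMaximal
  rw [minFac_eq q h.1 (mem_of_spl h)] at e
  rw [minFac_eq q' h.1 (mem_of_spl h.symm)] at e'
  rw [norm_span h2, map_mul, e, e', ← pow_add, Nat.pow_dvd_pow_iff_le_right h.1.one_lt] at h1
  rw [e, show a = 1 by omega, pow_one]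

variable {M : Type} [Field M] [NumberField M] [Algebra K M] [Algebra H M] [IsScalarTower K H M]

theorem frob_conj {F : Type} [Field F] [NumberField F] [Algebra F M] (δ γ : M ≃ₐ[F] M) (Q : Pr M)
    {p : ℕ} (h : ∀ x : 𝓞 M, γ • x - x ^ p ∈ Q.asIdeal) (x : 𝓞 M) :
    (δ * γ * δ⁻¹) • x - x ^ p ∈ (δ • Q).asIdeal := by
  rw [smul_asIdeal, Ideal.mem_pointwise_smul_iff_inv_smul_mem, smul_sub, smul_pow', mul_smul,
    mul_smul, inv_smul_smul]
  exact h _

theorem nat_mem {F : Type} [Field F] [NumberField F] [Algebra F M] (δ : M ≃ₐ[F] M) (Q : Pr M)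
    {p : ℕ} (h : (p : 𝓞 M) ∈ Q.asIdeal) : (p : 𝓞 M) ∈ (δ • Q).asIdeal := by
  rw [smul_asIdeal, Ideal.mem_pointwise_smul_iff_inv_smul_mem]
  simpa [← MulSemiringAction.toRingHom_apply] using h

theorem nat_below (Q : Pr M) (p : ℕ) :
    (p : 𝓞 K) ∈ (below K Q).asIdeal ↔ (p : 𝓞 M) ∈ Q.asIdeal := by
  change algebraMap (𝓞 K) (𝓞 M) p ∈ Q.asIdeal ↔ _
  rw [map_natCast]

theorem frb [IsGalois K M] (h2 : Module.finrank ℚ K = 2) {S : Finset (Pr K)} (hS : UnrO H S)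
    {ι : M →+* ℂ} (hι : ∀ x : K, ι (algebraMap K M x) = σ x) (t : M ≃ₐ[ℚ] M)
    (c : (M ≃ₐ[K] M) →* (M ≃ₐ[K] M))
    (hc : ∀ γ, (c γ).restrictScalars ℚ = t * γ.restrictScalars ℚ * t⁻¹) {a : 𝓞 K}
    (ha : t • algebraMap (𝓞 K) (𝓞 M) a ≠ algebraMap (𝓞 K) (𝓞 M) a) :
    ∃ B : ℕ, ∀ p : ℕ, B < p → p.Prime → ∀ (Q : Pr M) (γ : M ≃ₐ[K] M), (p : 𝓞 M) ∈ Q.asIdeal →
      (∀ x : 𝓞 M, γ • x - x ^ p ∈ Q.asIdeal) → Spl p (below K Q) (below K (t • Q)) ∧
      Frb σ ι (AlgEquiv.restrictNormalHom H) ((AlgEquiv.restrictNormalHom H).comp c) p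
        (below K Q) (below K (t • Q)) γ := by
  obtain ⟨B, hB⟩ := Filter.eventually_atTop.1
    (FrobeniusDensity.eventually_notMem (sub_ne_zero.2 ha))
  refine ⟨B + ∑ q ∈ S, Ideal.absNorm q.asIdeal, fun p hp hpp Q γ hQ hγ => ?_⟩
  have hn : ∀ Q : Pr M, (p : 𝓞 M) ∈ Q.asIdeal → below K Q ∉ S := fun Q hQ h => by
    have h3 := Finset.single_le_sum (f := fun q : Pr K => Ideal.absNorm q.asIdeal)
      (fun _ _ => Nat.zero_le _) h
    have h4 := PrimeZeta.two_le_absNorm _ (below K Q).isMaximal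
    have h5 := Nat.minFac_le (n := Ideal.absNorm (below K Q).asIdeal) (by omega)
    rw [minFac_eq _ hpp ((nat_below Q p).2 hQ)] at h5
    omega
  have hQ' := nat_mem t Q hQ
  obtain ⟨h3, h4⟩ := res_frob hS γ Q hpp hQ (hn Q hQ) hγ
  obtain ⟨h5, h6⟩ := res_frob hS (c γ) (t • Q) hpp hQ' (hn _ hQ') fun x => by
    have h7 : c γ • x = (t * γ.restrictScalars ℚ * t⁻¹) • x := by rw [← hc]; rfl
    rw [h7]
    exact frob_conj t (γ.restrictScalars ℚ) Q hγ x
  refine ⟨spl_of h2 hpp (fun e => ?_) ((nat_below Q p).2 hQ) ((nat_below _ p).2 hQ') h3 h5,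
    h4, h6, fun δ => ?_⟩
  · obtain ⟨n, hn⟩ := FrobeniusDensity.exists_int_of_absNorm hpp h3 a
    have h7 : algebraMap (𝓞 K) (𝓞 M) (a - n) ∈ Q.asIdeal := hn
    have h8 : algebraMap (𝓞 K) (𝓞 M) (a - n) ∈ (t • Q).asIdeal := by
      rw [e] at hn
      exact hn
    have h9 : t • algebraMap (𝓞 K) (𝓞 M) (a - n) ∈ (t • Q).asIdeal :=
      Ideal.smul_mem_pointwise_smul_iff.2 h7
    refine hB p (by omega) hpp _ (t • Q).isPrime hQ' ?_
    convert sub_mem h9 h8 using 1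
    simp [← MulSemiringAction.toRingHom_apply]
  · obtain ⟨O, hO⟩ := exists_val ι (δ • Q)
    refine ⟨O, by simpa using (hO p).2 (nat_mem δ Q hQ), fun x hx => ?_, fun y hy => ?_⟩
    · rw [← GalAux.below_smul δ Q]
      refine (hO (algebraMap (𝓞 K) (𝓞 M) x)).1 ?_
      rw [← hι] at hx
      exact hx
    · have h7 := (hO _).2 (frob_conj δ γ Q hγ ⟨y, hy⟩)
      rw [Cg, ← map_pow, ← map_sub]
      exact h7

end FrameAux

open FrameAux in
theorem frobS (h : RQ σ σ') : FrobSt σ σ' H := by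
  intro S φ hS hφ M _ _ _ _ _ ι hG hι
  have : IsGalois K M := IsGalois.tower_top_of_isGalois ℚ K M
  have : IsGalois H M := IsGalois.tower_top_of_isGalois ℚ H M
  have hK : ∀ x : K, ι (algebraMap K M x) = σ x := fun x => by
    rw [IsScalarTower.algebraMap_apply K H M, hι, ← hφ]
    rfl
  obtain ⟨t, ht⟩ := ComplexEmbedding.exists_comp_symm_eq_of_comp_eq (k := ℚ) ι
    (ComplexEmbedding.lift M (Complex.ofRealHom.comp σ')) (Subsingleton.elim _ _)
  have ht' : ∀ x : K, ι (t⁻¹ (algebraMap K M x)) = σ' x := fun x =>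
    (RingHom.congr_fun ht _).trans (ComplexEmbedding.lift_algebraMap_apply _ _ x)
  obtain ⟨ρ, hρ⟩ := ComplexEmbedding.exists_comp_symm_eq_of_comp_eq (k := K) ι
    (ComplexEmbedding.conjugate ι) (by
      ext x
      simp [hK])
  have hρ' : ∀ y, ι (ρ⁻¹ y) = (starRingEnd ℂ) (ι y) := fun y => RingHom.congr_fun hρ y
  have hn := Subgroup.normal_of_index_eq_two (index_two (M := M) h.two)
  let e := MonoidHom.ofInjective
    (AlgEquiv.restrictScalarsHom_injective ℚ : Function.Injective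
      (AlgEquiv.restrictScalarsHom ℚ : (M ≃ₐ[K] M) →* (M ≃ₐ[ℚ] M)))
  let c : (M ≃ₐ[K] M) →* (M ≃ₐ[K] M) :=
    ((e.trans (MulAut.conjNormal t)).trans e.symm).toMonoidHom
  have hc : ∀ γ, (c γ).restrictScalars ℚ = t * γ.restrictScalars ℚ * t⁻¹ := fun γ =>
    congrArg Subtype.val (e.apply_symm_apply (MulAut.conjNormal t (e γ)))
  obtain ⟨a, ha⟩ : ∃ a : 𝓞 K, t • algebraMap (𝓞 K) (𝓞 M) a ≠ algebraMap (𝓞 K) (𝓞 M) a := by
    by_contra hcon
    push Not at hcon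
    refine h.ne (IsFractionRing.ringHom_ext (A := 𝓞 K) fun a => Complex.ofReal_injective ?_)
    have h1 : t (algebraMap K M a) = algebraMap K M a := congrArg Subtype.val (hcon a)
    have h2 : t⁻¹ (algebraMap K M a) = algebraMap K M a := by
      conv_lhs => rw [← h1]
      exact t.symm_apply_apply _
    rw [← ht', ← hK]
    exact congrArg ι h2.symm
  obtain ⟨B, hB⟩ := frb h.two hS hK t c hc ha
  refine ⟨AlgEquiv.restrictNormalHom H, (AlgEquiv.restrictNormalHom H).comp c, ρ⁻¹, hK, hι,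
    fun γ y => (AlgEquiv.restrictNormal_commutes γ H y).symm,
    AlgEquiv.restrictNormalHom_surjective M, fun y hy => ?_, hρ', fun ψ hψ y => ?_,
    fun B' γ => ?_, B, fun p q q' hp hs => ?_⟩
  · refine (IsGalois.mem_range_algebraMap_iff_fixed y).2 fun f => hy (f.restrictScalars K) ?_
    ext x
    apply (algebraMap H M).injective
    exact (AlgEquiv.restrictNormal_commutes (f.restrictScalars K) H x).trans (f.commutes x)
  · let ψ₀ : H →+* ℂ := (ι.comp (t⁻¹ : M ≃ₐ[ℚ] M)).comp (algebraMap H M)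
    obtain ⟨g, rfl⟩ := ComplexEmbedding.exists_comp_symm_eq_of_comp_eq (k := K) ψ₀ ψ (by
      ext x
      refine Eq.trans ?_ (hψ x).symm
      rw [← ht', IsScalarTower.algebraMap_apply K H M]
      rfl)
    have h1 : ∀ y, ψ₀ (AlgEquiv.restrictNormalHom H (c ρ⁻¹) y) = (starRingEnd ℂ) (ψ₀ y) :=
      fun y => by
      have h2 := AlgEquiv.restrictNormal_commutes (c ρ⁻¹) H y
      have h3 : c ρ⁻¹ (algebraMap H M y) = t (ρ⁻¹ (t⁻¹ (algebraMap H M y))) :=
        congrArg (fun f : M ≃ₐ[ℚ] M => f (algebraMap H M y)) (hc ρ⁻¹)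
      refine (congrArg (fun z => ι (t⁻¹ z)) (h2.trans h3)).trans ?_
      exact (congrArg ι (t.symm_apply_apply _)).trans (hρ' _)
    refine Eq.trans ?_ (h1 (g⁻¹ y))
    exact congrArg (fun f : H ≃ₐ[K] H => ψ₀ (f y))
      (mul_comm g⁻¹ (AlgEquiv.restrictNormalHom H (c ρ⁻¹)))
  · obtain ⟨p, P, s, h1, h2, h3, h4, h5, h6⟩ := exists_frob (γ.restrictScalars ℚ) (B + B')
    obtain ⟨k, hk⟩ : s ∈ Subgroup.zpowers (γ.restrictScalars ℚ) := h6 ▸ Subgroup.mem_zpowers s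
    have h7 : AlgEquiv.restrictScalarsHom ℚ (γ ^ k) = s := (map_zpow _ _ _).trans hk
    have h0 : P ≠ ⊥ := by
      rintro rfl
      exact h2.ne_zero (by simpa using h4)
    obtain ⟨h8, h9⟩ := hB p (by omega) h2 ⟨P, h3, h0⟩ (γ ^ k) h4 fun x => by
      have h10 : (γ ^ k) • x = s • x := by rw [← h7]; rfl
      rw [h10]
      exact h5 x
    refine ⟨p, _, _, _, by omega, h8, h9,
      Subgroup.map_injective (AlgEquiv.restrictScalarsHom_injective ℚ) ?_⟩
    rw [MonoidHom.map_zpowers, MonoidHom.map_zpowers, h7]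
    exact h6
  · obtain ⟨P, h1, h2, h3⟩ := isFrob_frob (L := M) q
    have h0 : P ≠ ⊥ := Ideal.ne_bot_of_liesOver_of_ne_bot q.ne_bot P
    have h4 : below K (⟨P, h1, h0⟩ : Pr M) = q := HeightOneSpectrum.ext h2.over.symm
    rw [norm_of_spl h.two hs] at h3
    obtain ⟨h8, h9⟩ := hB p hp hs.1 ⟨P, h1, h0⟩ _
      ((nat_below (K := K) _ p).1 (h4 ▸ mem_of_spl hs)) h3
    rw [h4] at h8 h9
    have h5 := Finsupp.single_left_injective one_ne_zero
      (add_left_cancel (h8.2.2.symm.trans hs.2.2))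
    exact ⟨_, h5 ▸ h9⟩

end Pool.Agent.StarkD
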