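import Pool.Agent.Lib.MP_ca56d1_nt.D.St

/-! Finiteness and generation of the ray class group of a real quadratic field. -/

namespace Pool.Agent.StarkD

open NumberField IsDedekindDomain Pool.Agent.Stark Pool.Agent.Stark.AR Pool.Agent.RM StarkStmt
open scoped IsMulCommutative Classical nonZeroDivisors

namespace GenAux

variable {F : Type} [Field F] [NumberField F]

theorem fin (τ : F →+* ℝ) (S : Finset (Pr F)) (N : ℕ) : Finite (Cl τ S N) := by
  obtain ⟨C, _, col, hc⟩ := RayTAux.exists_col S N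
  have : Finite (Dv F ⧸ prin F) := Nat.finite_of_card_ne_zero (by
    change (prin F).index ≠ 0
    rw [index_prin]
    exact (classNumber_pos F).ne')
  let r : Dv F → Dv F := fun D => D.filter fun q => q ∉ S
  let c : Dv F → Dv F ⧸ prin F := fun D => (r D : Dv F ⧸ prin F)
  have h1 : ∀ D, ∃ x : F, x ≠ 0 ∧ dv x = -r (Function.invFun c (c D)) + r D := fun D =>
    mem_prin.1 (QuotientAddGroup.eq.1 (Function.invFun_eq (f := c) ⟨D, rfl⟩))
  choose x hx0 hx using h1
  have hS : ∀ D, ∀ q ∈ S, og q (x D) = 0 := fun D q hq => by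
    rw [← dv_apply, hx]
    simp [r, hq]
  refine Finite.of_injective (fun k : Cl τ S N => (c k.out, col (x k.out))) fun k k' h => ?_
  obtain ⟨h3, h4⟩ := Prod.mk.inj h
  obtain ⟨h5, h6⟩ := hc _ _ (hx0 k'.out) (hx0 k.out) (hS _) (hS _) h4.symm
  rw [← cls_out k, ← cls_out k']
  refine cls_eq.2 ⟨_, h5, h6 τ, fun q hq => ?_⟩
  have h8 := congrArg (· q) (hx k.out)
  have h9 := congrArg (· q) (hx k'.out)
  have h10 : ∀ D, r D q = D q := fun D => by simp [r, hq]
  simp only [dv_apply, Finsupp.add_apply, Finsupp.neg_apply, og, h10] at h8 h9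
  rw [h3] at h8
  rw [og, ord_div (hx0 _) (hx0 _), h8, h9]
  ring

theorem exists_og (P : Finset (Pr F)) (D : Pr F → ℤ) :
    ∃ a : F, a ≠ 0 ∧ ∀ q ∈ P, og q a = D q := by
  have h1 : ∀ q : Pr F, ∃ t : F, t ≠ 0 ∧ og q t = D q := fun q => by
    obtain ⟨t, ht⟩ := q.valuation_surjective F (WithZero.exp (-D q))
    refine ⟨t, ?_, by rw [og, ord, ht, WithZero.log_exp, neg_neg]⟩
    rintro rfl
    rw [map_zero] at ht
    exact WithZero.exp_ne_zero ht.symm
  choose t ht0 ht using h1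
  obtain ⟨y, hy, -⟩ := approx_strong P (fun q => emb q (t q)) (∑ q ∈ P, |D q| + 1)
  have h2 : ∀ q ∈ P, y ≠ 0 ∧ og q y = D q := fun q hq => by
    have h3 := hy q hq
    rw [← map_sub, ComplAux.emb_mem_pw] at h3
    by_cases h0 : y - t q = 0
    · rw [sub_eq_zero.1 h0]
      exact ⟨ht0 q, ht q⟩
    · have h4 := (mem_pw_iff.1 h3).resolve_left h0
      have h5 : |D q| ≤ ∑ q ∈ P, |D q| :=
        Finset.single_le_sum (f := fun q => |D q|) (fun _ _ => abs_nonneg _) hq
      have h6 := ht q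
      rw [og] at h6
      have h7 := ord_add_of_lt (w := q.valuation F) (ht0 q) h0 (by
        have := le_abs_self (D q)
        omega)
      rw [add_sub_cancel] at h7
      exact ⟨h7.1, h7.2.trans h6⟩
  rcases P.eq_empty_or_nonempty with rfl | ⟨q, hq⟩
  · exact ⟨1, one_ne_zero, by simp⟩
  · exact ⟨y, (h2 q hq).1, fun q hq => (h2 q hq).2⟩

omit [NumberField F] in
theorem coe_nat (m : ℕ) : ((m : 𝓞 F) : F) = m := map_natCast (algebraMap (𝓞 F) F) m

theorem og_nat (q : Pr F) (m : ℕ) : 0 ≤ og q (m : F) := coe_nat (F := F) m ▸ og_nonneg q _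

theorem og_nat_pos (q : Pr F) {m : ℕ} (hm : m ≠ 0) :
    0 < og q (m : F) ↔ (m : 𝓞 F) ∈ q.asIdeal := by
  rw [← og_pos_iff q (Nat.cast_ne_zero.2 hm), coe_nat]

theorem dvd_norm {p : ℕ} (hp : p.Prime) {q : Pr F} (h : (p : 𝓞 F) ∈ q.asIdeal) :
    p ∣ Ideal.absNorm q.asIdeal := by
  by_contra h1
  have h2 := Nat.Coprime.cast (R := 𝓞 F) ((Nat.Prime.coprime_iff_not_dvd hp).2 h1)
  obtain ⟨a, b, h3⟩ := h2
  exact q.isPrime.ne_top ((Ideal.eq_top_iff_one _).2 (h3 ▸ add_mem (Ideal.mul_mem_left _ _ h)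
    (Ideal.mul_mem_left _ _ (Ideal.absNorm_mem _))))

theorem deg_le {p : ℕ} (hp : p.Prime) (P : Finset (Pr F)) :
    ∑ q ∈ P, og q (p : F) ≤ Module.finrank ℚ F := by
  set P' := P ∪ (dv (p : F)).support with hP'
  have h1 := congrArg Ideal.absNorm (ComplAux.span_eq_prod (x := (p : 𝓞 F))
    (Nat.cast_ne_zero.2 hp.ne_zero) P' fun q hq => by
      rw [coe_nat]
      by_contra h
      exact hq (Finset.mem_union_right _ (Finsupp.mem_support_iff.2 h)))
  rw [map_prod, coe_nat, Ideal.absNorm_span_singleton, ← map_natCast (algebraMap ℤ (𝓞 F)) p,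
    Algebra.norm_algebraMap, RingOfIntegers.rank] at h1
  simp only [map_pow, Int.natAbs_pow, Int.natAbs_natCast] at h1
  have h2 : p ^ ∑ q ∈ P', (og q (p : F)).toNat ∣ p ^ Module.finrank ℚ F := by
    rw [h1, ← Finset.prod_pow_eq_pow_sum]
    refine Finset.prod_dvd_prod_of_dvd _ _ fun q _ => ?_
    by_cases h : 0 < og q (p : F)
    · exact pow_dvd_pow_of_dvd (dvd_norm hp ((og_nat_pos q hp.ne_zero).1 h)) _
    · rw [Int.toNat_of_nonpos (not_lt.1 h), pow_zero, pow_zero]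
  have h3 := (Nat.pow_dvd_pow_iff_le_right hp.one_lt).1 h2
  have h4 : ∑ q ∈ P, og q (p : F) ≤ ∑ q ∈ P', og q (p : F) :=
    Finset.sum_le_sum_of_subset_of_nonneg Finset.subset_union_left fun q _ _ => og_nat q p
  have h5 : ∑ q ∈ P', og q (p : F) = ((∑ q ∈ P', (og q (p : F)).toNat : ℕ) : ℤ) := by
    rw [Nat.cast_sum]
    exact Finset.sum_congr rfl fun q _ => (Int.toNat_of_nonneg (og_nat q p)).symm
  omega

theorem og_le {p : ℕ} (hp : p.Prime) {q : Pr F} (he : eI ℚ q = 1) : og q (p : F) ≤ 1 := by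
  have h1 := og_algebraMap (F := ℚ) q (p : ℚ)
  have h2 := deg_le (F := ℚ) hp {below ℚ q}
  rw [Finset.sum_singleton, Module.finrank_self] at h2
  rw [map_natCast, he] at h1
  omega

theorem dich (h2 : Module.finrank ℚ F = 2) {p : ℕ} (hp : p.Prime) {q : Pr F}
    (h : og q (p : F) = 1) : dv (p : F) = pd q ∨ ∃ q', Spl p q q' := by
  by_cases h0 : ∀ q', q' ≠ q → og q' (p : F) = 0
  · refine Or.inl (Finsupp.ext fun q' => ?_)
    by_cases h1 : q' = q
    · rw [h1, dv_apply, h, Finsupp.single_eq_same]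
    · rw [dv_apply, h0 q' h1, Finsupp.single_eq_of_ne h1]
  · push Not at h0
    obtain ⟨q', h1, h3⟩ := h0
    have h4 := og_nat q' p
    refine Or.inr ⟨q', hp, h1.symm, Finsupp.ext fun t => ?_⟩
    have h5 := deg_le hp {q, q'}
    rw [Finset.sum_pair h1.symm, h2] at h5
    rw [dv_apply, Finsupp.add_apply]
    by_cases h6 : t = q
    · rw [h6, h, Finsupp.single_eq_same, Finsupp.single_eq_of_ne h1.symm, add_zero]
    · by_cases h7 : t = q'
      · rw [h7, Finsupp.single_eq_same, Finsupp.single_eq_of_ne h1]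
        omega
      · have h8 := deg_le hp (insert t {q, q'})
        rw [Finset.sum_insert (by simp [h6, h7]), Finset.sum_pair h1.symm, h2] at h8
        have h9 := og_nat t p
        rw [Finsupp.single_eq_of_ne h6, Finsupp.single_eq_of_ne h7]
        omega

theorem exists_bad (h2 : Module.finrank ℚ F = 2) (S : Finset (Pr F)) (B : ℕ) :
    ∃ P : Finset (Pr F), ∀ q ∉ P, ∃ p : ℕ, B < p ∧ PS S (p : F) ∧
      (dv (p : F) = pd q ∨ ∃ q', Spl p q q') := by
  set m := B.factorial * ∏ s ∈ S, Ideal.absNorm s.asIdeal with hm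
  have hm0 : m ≠ 0 := mul_ne_zero B.factorial_ne_zero
    (Finset.prod_ne_zero_iff.2 fun s _ => Ideal.absNorm_eq_zero_iff.not.2 s.ne_bot)
  refine ⟨(ram_finite (F := ℚ) (K := F)).toFinset ∪ (dv (m : F)).support, fun q hq => ?_⟩
  rw [Finset.mem_union, not_or, Set.Finite.mem_toFinset, Finsupp.mem_support_iff, dv_apply] at hq
  have := q.isMaximal
  obtain ⟨p, -, -, h3, hp, -⟩ := Ideal.exists_prime_and_absNorm_eq_pow q.asIdeal
  have h4 : ¬ p ∣ m := by
    rintro ⟨k, hk⟩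
    refine hq.2 ((og_nat_pos q hm0).2 ?_).ne'
    rw [hk, Nat.cast_mul]
    exact Ideal.mul_mem_right _ _ h3
  refine ⟨p, not_le.1 fun h => h4 ((hp.dvd_factorial.2 h).mul_right _),
    ⟨Nat.cast_ne_zero.2 hp.ne_zero, fun s hs => le_antisymm (not_lt.1 fun h => h4 ?_)
      (og_nat s p)⟩, dich h2 hp ?_⟩
  · exact ((dvd_norm hp ((og_nat_pos s hp.ne_zero).1 h)).trans
      (Finset.dvd_prod_of_mem (fun s : Pr F => Ideal.absNorm s.asIdeal) hs)).mul_left _
  · have h5 := og_le hp (not_not.1 hq.1)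
    have h6 := (og_nat_pos q hp.ne_zero).2 h3
    omega

theorem gen (h2 : Module.finrank ℚ F = 2) (τ : F →+* ℝ) (S : Finset (Pr F)) (N B : ℕ)
    (T : AddSubgroup (Cl τ S N)) (hP : PP τ S N ≤ T)
    (hT : ∀ p q q', B < p → Spl p q q' → cls τ S N (pd q) ∈ T) : T = ⊤ := by
  obtain ⟨P, hb⟩ := exists_bad h2 S B
  have h1 : ∀ q, q ∈ S ∨ q ∉ P → cls τ S N (pd q) ∈ T := fun q hq => by
    rcases hq with hq | hq
    · have : cls τ S N (pd q) = cls τ S N 0 := cls_eq.2 ⟨1, Ray.one S N, by simp, fun t ht => by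
        rw [Finsupp.single_eq_of_ne (ne_of_mem_of_not_mem hq ht).symm]
        simp [og]⟩
      rw [this, map_zero]
      exact zero_mem _
    · obtain ⟨p, h3, h4, h5 | ⟨q', h5⟩⟩ := hb q hq
      · exact hP ⟨p, h4, by rw [h5]⟩
      · exact hT p q q' h3 h5
  refine eq_top_iff.2 fun c _ => ?_
  obtain ⟨a, ha0, ha⟩ := exists_og (S ∪ P) fun q => if q ∈ S then 0 else c.out q
  have h3 : cls τ S N (dv a) ∈ T := hP ⟨a, ⟨ha0, fun q hq => by
    rw [ha q (Finset.mem_union_left _ hq), if_pos hq]⟩, rfl⟩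
  have h4 : cls τ S N (c.out - dv a) ∈ T := by
    rw [← Finsupp.sum_single (c.out - dv a), Finsupp.sum, map_sum]
    refine sum_mem fun q hq => ?_
    rw [← Finsupp.smul_single_one, map_zsmul]
    refine zsmul_mem (h1 q (or_iff_not_imp_left.2 fun h5 h6 => Finsupp.mem_support_iff.1 hq ?_)) _
    rw [Finsupp.sub_apply, dv_apply, ha q (Finset.mem_union_right _ h6), if_neg h5, sub_self]
  have h5 := add_mem h4 h3
  rwa [← map_add, sub_add_cancel, cls_out] at h5

end GenAux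

variable {K : Type} [Field K] [NumberField K] {σ σ' : K →+* ℝ}
  {H : Type} [Field H] [NumberField H] [Algebra K H] [IsAbelianGalois K H]

theorem genS (h : RQ σ σ') : GenSt σ' := ⟨GenAux.fin σ', GenAux.gen h.two σ'⟩

end Pool.Agent.StarkD
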