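import Pool.Agent.Lib.MP_ca56d1_nt.D.St

/-! Existence of a large Galois number field inside the complex numbers. -/

namespace Pool.Agent.StarkD

open NumberField IsDedekindDomain Pool.Agent.Stark Pool.Agent.Stark.AR Pool.Agent.RM StarkStmt
open scoped IsMulCommutative Classical nonZeroDivisors

namespace FldAux

open IntermediateField

/-- A finite extension inside the complex numbers lies in a finite Galois one. -/
lemma exists_gal (E : IntermediateField ℚ ℂ) [FiniteDimensional ℚ E] :
    ∃ M : IntermediateField ℚ ℂ, FiniteDimensional ℚ M ∧ IsGalois ℚ M ∧ E ≤ M := by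
  have : Normal ℚ (normalClosure ℚ E ℂ) :=
    (Algebra.IsAlgebraic.isNormalClosure_normalClosure (F := ℚ) (K := E) (L := ℂ)
      fun _ => IsAlgClosed.splits _).normal
  exact ⟨normalClosure ℚ E ℂ, inferInstance, ⟨⟩, le_normalClosure E⟩

end FldAux

variable {K : Type} [Field K] [NumberField K] {σ σ' : K →+* ℝ}
  {H : Type} [Field H] [NumberField H] [Algebra K H] [IsAbelianGalois K H]

theorem fldS : FldSt (K := K) H := by
  intro φ T hT hA
  let ψ : H →ₐ[ℚ] ℂ := (Complex.ofRealHom.comp φ).toRatAlgHom
  have : FiniteDimensional ℚ ψ.fieldRange := ψ.toLinearMap.finiteDimensional_range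
  have : Finite T := hT
  have : FiniteDimensional ℚ (IntermediateField.adjoin ℚ T) :=
    IntermediateField.finiteDimensional_adjoin fun z hz => (hA z hz).isIntegral
  obtain ⟨M, h1, h2, h3⟩ := FldAux.exists_gal (ψ.fieldRange ⊔ IntermediateField.adjoin ℚ T)
  have : NumberField M := ⟨⟩
  let _ : Algebra H M := (ψ.toRingHom.codRestrict M.toSubfield fun y =>
    h3 (le_sup_left (a := ψ.fieldRange) ⟨y, rfl⟩)).toAlgebra
  let _ : Algebra K M := ((algebraMap H M).comp (algebraMap K H)).toAlgebra
  exact ⟨M, inferInstance, inferInstance, inferInstance, inferInstance,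
    IsScalarTower.of_algebraMap_eq fun _ => rfl, M.val.toRingHom, h2, fun _ => rfl, fun z hz =>
    ⟨⟨z, h3 (le_sup_right (a := ψ.fieldRange) (IntermediateField.subset_adjoin ℚ T hz))⟩, rfl⟩⟩

end Pool.Agent.StarkD
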