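import Pool.Agent.Lib.MP_ca56d1_nt.D.St
import Pool.Agent.Lib.MP_ca56d1_nt.C.Fin

/-! Eigenvectors of a unit modulo a split prime. -/

namespace Pool.Agent.StarkD

open NumberField IsDedekindDomain Pool.Agent.Stark Pool.Agent.Stark.AR Pool.Agent.RM StarkStmt
open scoped IsMulCommutative Classical nonZeroDivisors

namespace EigAux

section Loc

variable {k : Type*} [Field k] {w : Valuation k (WithZero (Multiplicative ℤ))}

theorem one_notMem : (1 : k) ∉ pw w 1 := fun h => by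
  rcases mem_pw_iff.1 h with h1 | h1
  · exact one_ne_zero h1
  · rw [ord_one] at h1
    omega

theorem int_mem (n : ℤ) : (n : k) ∈ pw w 0 := by
  have h1 : (1 : k) ∈ pw w 0 := mem_pw_iff.2 (Or.inr (by rw [ord_one]))
  have h2 := zsmul_mem h1 n
  rwa [zsmul_eq_mul, mul_one] at h2

theorem res_loc {p : ℕ} (hp : p.Prime) (h : rc w = p) {y : k} (hy : y ∈ pw w 0) :
    ∃ n : ℤ, y - n ∈ pw w 1 := by
  have := Fact.mk hp
  have h1 : (1 : k) ∈ pw w 0 := by simpa using int_mem (w := w) 1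
  have h2 : (QuotientAddGroup.mk ⟨1, h1⟩ : pw w 0 ⧸ (pw w 1).addSubgroupOf (pw w 0)) ≠ 0 :=
    fun e => one_notMem (AddSubgroup.mem_addSubgroupOf.1 ((QuotientAddGroup.eq_zero_iff _).1 e))
  obtain ⟨n, hn⟩ := AddSubgroup.mem_zmultiples_iff.1
    (mem_zmultiples_of_prime_card (p := p) h h2 (g' := QuotientAddGroup.mk ⟨y, hy⟩))
  rw [← QuotientAddGroup.mk_zsmul, QuotientAddGroup.eq, AddSubgroup.mem_addSubgroupOf] at hn
  refine ⟨n, ?_⟩
  convert hn using 1
  simp [sub_eq_neg_add]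

theorem dvd_of_mem {p : ℕ} (hp : p.Prime) (h : (p : k) ∈ pw w 1) {a : ℤ} (ha : (a : k) ∈ pw w 1) :
    (p : ℤ) ∣ a := by
  by_contra hd
  obtain ⟨u, v, huv⟩ := (Int.isCoprime_iff_gcd_eq_one.2
    ((Nat.Prime.coprime_iff_not_dvd hp).2 (fun h1 => hd (Int.natCast_dvd.2 h1))) :
    IsCoprime (p : ℤ) a)
  have h1 := add_mem (zsmul_mem h u) (zsmul_mem ha v)
  have h2 : u • (p : k) + v • (a : k) = 1 := by
    rw [zsmul_eq_mul, zsmul_eq_mul]
    exact_mod_cast congrArg (Int.cast : ℤ → k) huv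
  rw [h2] at h1
  exact one_notMem h1

theorem cancel {a s : k} {m j : ℤ} (hs : s ≠ 0) (hm : ord w s = m) (h : a * s ∈ pw w (m + j)) :
    a ∈ pw w j := by
  have h1 := ComplAux.pw_div hs (hm ▸ h)
  rwa [mul_div_cancel_right₀ _ hs] at h1

end Loc

variable {K : Type} [Field K] [NumberField K] {σ σ' : K →+* ℝ}

theorem og_p {p : ℕ} {q q' : Pr K} (h : Spl p q q') (r : Pr K) :
    og r (p : K) = (pd q + pd q') r := by
  rw [← h.2.2, dv_apply]

theorem og_q {p : ℕ} {q q' : Pr K} (h : Spl p q q') : og q (p : K) = 1 := by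
  rw [og_p h, Finsupp.add_apply, Finsupp.single_eq_same, Finsupp.single_eq_of_ne h.2.1, add_zero]

theorem og_r {p : ℕ} {q q' : Pr K} (h : Spl p q q') {r : Pr K} (h1 : r ≠ q) (h2 : r ≠ q') :
    og r (p : K) = 0 := by
  rw [og_p h, Finsupp.add_apply, Finsupp.single_eq_of_ne h1, Finsupp.single_eq_of_ne h2, add_zero]

theorem p_mem {p : ℕ} {q q' : Pr K} (h : Spl p q q') : (p : K) ∈ pw (q.valuation K) 1 :=
  mem_pw_iff.2 (Or.inr (og_q h).ge)

theorem norm_eq (hK : RQ σ σ') {p : ℕ} {q q' : Pr K} (h : Spl p q q') :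
    Ideal.absNorm q.asIdeal = p := by
  have h0 : ((p : 𝓞 K) : K) = p := map_natCast (algebraMap (𝓞 K) K) p
  have hp0 : (p : 𝓞 K) ≠ 0 := Nat.cast_ne_zero.2 h.1.ne_zero
  have h1 := congrArg Ideal.absNorm (ComplAux.span_eq_prod hp0 {q, q'} (fun r hr => by
    rw [Finset.mem_insert, Finset.mem_singleton, not_or] at hr
    rw [h0]
    exact og_r h hr.1 hr.2))
  rw [Finset.prod_pair h.2.1, h0, og_q h, og_q h.symm, Ideal.absNorm_span_singleton,
    ← map_natCast (algebraMap ℤ (𝓞 K)) p, Algebra.norm_algebraMap, RingOfIntegers.rank, hK.two,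
    map_mul] at h1
  simp only [Int.toNat_one, pow_one, Int.natAbs_pow, Int.natAbs_natCast] at h1
  have h2 : ∀ r : Pr K, Ideal.absNorm r.asIdeal ≠ 1 := fun r e =>
    r.isPrime.ne_top (Ideal.absNorm_eq_one_iff.1 e)
  exact ((h.1.mul_eq_prime_sq_iff (h2 q) (h2 q')).1 h1.symm).1

theorem res (hK : RQ σ σ') {p : ℕ} {q q' : Pr K} (h : Spl p q q') {y : K}
    (hy : y ∈ pw (q.valuation K) 0) : ∃ n : ℤ, y - n ∈ pw (q.valuation K) 1 := by
  obtain ⟨n, hn⟩ := res_loc h.1 ((rc_wv q).trans (norm_eq hK h))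
    ((ComplAux.emb_mem_pw q y 0).2 hy)
  refine ⟨n, (ComplAux.emb_mem_pw q _ 1).1 ?_⟩
  rwa [map_sub, map_intCast]

theorem exists_s (S : Finset (Pr K)) (N : ℕ) (D : Dv K) {q : Pr K} (hq : q ∉ S) :
    ∃ s : K, s ≠ 0 ∧ og q s = -D q - 1 ∧ s ∈ lat S N (D + pd q) := by
  obtain ⟨π, hπ⟩ := q.valuation_exists_uniformizer K
  have π0 : π ≠ 0 := fun e => by
    rw [e, map_zero] at hπ
    exact WithZero.exp_ne_zero hπ.symm
  have π1 : ord (q.valuation K) π = 1 := by rw [ord, hπ, WithZero.log_exp, neg_neg]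
  obtain ⟨j, j1, j2⟩ : ∃ j : ℤ, (N : ℤ) + 1 ≤ j ∧ ∀ r, -D r ≤ j := by
    refine ⟨(N : ℤ) + 1 + ∑ r ∈ D.support, |D r|, le_add_of_nonneg_right
      (Finset.sum_nonneg fun r _ => abs_nonneg _), fun r => ?_⟩
    have h0 : 0 ≤ ∑ r ∈ D.support, |D r| := Finset.sum_nonneg fun r _ => abs_nonneg _
    by_cases hr : r ∈ D.support
    · have h1 := Finset.single_le_sum (f := fun r => |D r|) (fun r _ => abs_nonneg _) hr
      have h2 := neg_le_abs (D r)
      omega
    · rw [Finsupp.notMem_support_iff.1 hr]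
      omega
  obtain ⟨y, h1, h2⟩ := approx_strong (insert q (S ∪ D.support))
    (fun r => emb r (if r = q then π ^ (-D q - 1) else 0)) j
  have h3 : ∀ r ∈ insert q (S ∪ D.support), r ≠ q → y ∈ pw (r.valuation K) j := fun r hr hne => by
    have h4 := h1 r hr
    rw [if_neg hne, map_zero, sub_zero] at h4
    exact (ComplAux.emb_mem_pw r y j).1 h4
  have h4 : y ≠ 0 ∧ og q y = -D q - 1 := by
    have h5 := h1 q (Finset.mem_insert_self _ _)
    rw [if_pos rfl, ← map_sub, ComplAux.emb_mem_pw] at h5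
    have h6 : π ^ (-D q - 1) ≠ 0 := zpow_ne_zero _ π0
    have h7 : ord (q.valuation K) (π ^ (-D q - 1)) = -D q - 1 := by rw [ord_zpow, π1, mul_one]
    by_cases h8 : y - π ^ (-D q - 1) = 0
    · rw [sub_eq_zero.1 h8]
      exact ⟨h6, h7⟩
    · have h9 := (mem_pw_iff.1 h5).resolve_left h8
      have h10 := ord_add_of_lt (w := q.valuation K) h6 h8 (by have := j2 q; omega)
      rw [add_sub_cancel, h7] at h10
      exact h10
  refine ⟨y, h4.1, h4.2, fun r hr => ComplAux.pw_mono j1 (h3 r (by simp [hr])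
    (fun e => hq (e ▸ hr))), fun r _ => ?_⟩
  by_cases e : r = q
  · subst e
    rw [Finsupp.add_apply, Finsupp.single_eq_same]
    exact mem_pw_iff.2 (Or.inr (by have := h4.2; rw [og] at this; omega))
  · rw [Finsupp.add_apply, Finsupp.single_eq_of_ne e, add_zero]
    by_cases hr : r ∈ insert q (S ∪ D.support)
    · exact ComplAux.pw_mono (j2 r) (h3 r hr e)
    · have h5 : D r = 0 := Finsupp.notMem_support_iff.1 fun h => hr (by simp [h])
      rw [h5, neg_zero]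
      exact ComplAux.mem_pw_zero.2 (h2 r hr)

theorem down {S : Finset (Pr K)} {N : ℕ} {D : Dv K} {q : Pr K} {z : K}
    (h1 : z ∈ lat S N (D + pd q)) (h2 : z ∈ pw (q.valuation K) (-D q)) : z ∈ lat S N D := by
  refine ⟨h1.1, fun r hr => ?_⟩
  by_cases e : r = q
  · rw [e]
    exact h2
  · have h3 := h1.2 r hr
    rwa [Finsupp.add_apply, Finsupp.single_eq_of_ne e, add_zero] at h3

theorem mul_down {S : Finset (Pr K)} {N : ℕ} {D : Dv K} {q : Pr K} {a s : K}
    (hs : og q s = -D q - 1) (h1 : a * s ∈ lat S N (D + pd q)) (ha : a ∈ pw (q.valuation K) 1) :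
    a * s ∈ lat S N D := by
  refine down h1 ?_
  have h2 := pw_mul ha (mem_pw_iff.2 (Or.inr hs.ge) : s ∈ pw (q.valuation K) (-D q - 1))
  rwa [show 1 + (-D q - 1) = -D q by ring] at h2

omit [NumberField K] in
theorem int_mul {L : Submodule ℤ K} {s : K} (h : s ∈ L) (n : ℤ) : (n : K) * s ∈ L := by
  rw [← zsmul_eq_mul]
  exact zsmul_mem h n

theorem sup_eq (hK : RQ σ σ') (hL : LatSt K) {p : ℕ} {q q' : Pr K} (h : Spl p q q')
    {S : Finset (Pr K)} (hq : q ∉ S) {N : ℕ} {D : Dv K} {s : K} (h0 : s ≠ 0)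
    (hs : og q s = -D q - 1) (h1 : s ∈ lat S N (D + pd q)) :
    lat S N D ⊔ Submodule.span ℤ {s} = lat S N (D + pd q) := by
  refine le_antisymm (sup_le (hL.mono S N _ _ fun r _ => ?_).1
    ((Submodule.span_singleton_le_iff_mem _ _).2 h1)) fun y hy => ?_
  · rw [Finsupp.add_apply, Finsupp.single_apply]
    split_ifs <;> omega
  · have h2 : y / s ∈ pw (q.valuation K) 0 := by
      refine ComplAux.pw_div h0 ?_
      have h3 := hy.2 q hq
      rw [Finsupp.add_apply, Finsupp.single_eq_same] at h3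
      rw [og] at hs
      rwa [hs, show -D q - 1 + 0 = -(D q + 1) by ring]
    obtain ⟨n, hn⟩ := res hK h h2
    have e : (y / s - n) * s = y - n * s := by field_simp
    have h3 := mul_down hs (e ▸ sub_mem hy (int_mul h1 n)) hn
    rw [e] at h3
    have e2 : y = (y - n * s) + n * s := by ring
    rw [e2]
    exact Submodule.add_mem_sup h3 (int_mul (Submodule.mem_span_singleton_self s) n)

theorem ind {p : ℕ} {q q' : Pr K} (h : Spl p q q') {S : Finset (Pr K)} (hq : q ∉ S) {N : ℕ}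
    {D : Dv K} {s t : K} (h0 : s ≠ 0) (hs : og q s = -D q - 1) (ht : t ∈ lat S N (D + pd q'))
    {a b : ℤ} (hab : (a : K) * s + b * t ∈ lat S N D) : (p : ℤ) ∣ a := by
  have h1 := (int_mul ht b).2 q hq
  rw [Finsupp.add_apply, Finsupp.single_eq_of_ne h.2.1, add_zero] at h1
  have h2 := sub_mem (hab.2 q hq) h1
  rw [add_sub_cancel_right, show -D q = -D q - 1 + 1 by ring] at h2
  exact dvd_of_mem h.1 (p_mem h) (cancel h0 hs h2)

theorem mem_int {y : K} : y ∈ lat (∅ : Finset (Pr K)) 0 0 ↔ ∀ r : Pr K, y ∈ pw (r.valuation K) 0 :=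
  ⟨fun h r => by simpa using h.2 r (Finset.notMem_empty r),
    fun h => ⟨fun r hr => absurd hr (Finset.notMem_empty r), fun r _ => by simpa using h r⟩⟩

theorem root {p : ℕ} {q q' : Pr K} (h : Spl p q q') {ε : K} (hε : ε ∈ pw (q.valuation K) 0)
    {T n : ℤ} (hT : ε ^ 2 = T * ε - 1) (hn : ε - n ∈ pw (q.valuation K) 1) :
    (p : ℤ) ∣ n ^ 2 - T * n + 1 := by
  refine dvd_of_mem h.1 (p_mem h) ?_
  have h1 := pw_mul hn (sub_mem (int_mem T) (add_mem hε (int_mem n)))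
  rw [add_zero] at h1
  convert h1 using 1
  push_cast
  linear_combination hT

theorem div_int {p : ℕ} {q q' : Pr K} (h : Spl p q q') {x : K}
    (h0 : ∀ r : Pr K, x ∈ pw (r.valuation K) 0) (h1 : x ∈ pw (q.valuation K) 1)
    (h2 : x ∈ pw (q'.valuation K) 1) (r : Pr K) : x / p ∈ pw (r.valuation K) 0 := by
  refine ComplAux.pw_div (Nat.cast_ne_zero.2 h.1.ne_zero) ?_
  rw [add_zero]
  change x ∈ pw (r.valuation K) (og r (p : K))
  by_cases e : r = q
  · rw [e, og_q h]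
    exact h1
  · by_cases e' : r = q'
    · rw [e', og_q h.symm]
      exact h2
    · rw [og_r h e e']
      exact h0 r

theorem data (hK : RQ σ σ') (hL : LatSt K) {ε : K} (hε : Eps σ σ' ε) (hu : IsU ε) :
    ∃ T : ℤ, T ^ 2 - 4 ≠ 0 ∧ ε ^ 2 = T * ε - 1 ∧ ∀ (p : ℕ) (n : ℤ), p ≠ 0 →
      (∀ r : Pr K, (ε - n) / p ∈ pw (r.valuation K) 0) → (p : ℤ) ∣ n ^ 2 - 1 := by
  have hE := hL.elat ∅ 0 0 ε hu
  obtain ⟨w₁, w₂, b1, b2⟩ := FinAux.exists_basis hK hE
  have m1 : w₁ ∈ lat (∅ : Finset (Pr K)) 0 0 := (b2 _).2 ⟨1, 0, by simp⟩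
  have m2 : w₂ ∈ lat (∅ : Finset (Pr K)) 0 0 := (b2 _).2 ⟨0, 1, by simp⟩
  have hw : w₁ ≠ 0 := fun e => one_ne_zero (b1 1 0 (by simp [e])).1
  obtain ⟨a, c, h1⟩ := (b2 _).1 ((hE.stab _).2 m1)
  obtain ⟨b, d, h2⟩ := (b2 _).1 ((hE.stab _).2 m2)
  obtain ⟨h3, h4, h5⟩ := FinAux.trace_det hε hw h1 h2
  refine ⟨a + d, fun e => ?_, h5, fun p n hp hn => ?_⟩
  · have e1 : ((a + d : ℤ) : ℝ) ^ 2 - 4 = 0 := by exact_mod_cast e
    rw [h3] at e1
    have e2 : (σ ε - σ' ε) ^ 2 = 0 := by linear_combination e1 - 4 * hε.norm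
    have e3 := pow_eq_zero_iff two_ne_zero |>.1 e2
    linarith [hε.one_lt, hε.lt_one]
  · have hp' : (p : K) ≠ 0 := Nat.cast_ne_zero.2 hp
    have key : ∀ w ∈ lat (∅ : Finset (Pr K)) 0 0,
        ∃ x y : ℤ, (ε - n) * w = p * (x * w₁ + y * w₂) := fun w hw => by
      obtain ⟨x, y, e⟩ := (b2 ((ε - n) / p * w)).1 (mem_int.2 fun r => by
        simpa using pw_mul (hn r) (mem_int.1 hw r))
      refine ⟨x, y, ?_⟩
      rw [← e]
      field_simp
    obtain ⟨x, y, e1⟩ := key w₁ m1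
    obtain ⟨x', y', e2⟩ := key w₂ m2
    obtain ⟨f1, f2⟩ := b1 (a - n - p * x) (c - p * y) (by push_cast; linear_combination e1 - h1)
    obtain ⟨f3, f4⟩ := b1 (b - p * x') (d - n - p * y') (by push_cast; linear_combination e2 - h2)
    refine ⟨-(n * y' + n * x + p * x * y' - p * x' * y), ?_⟩
    have g1 : a = n + p * x := by linarith
    have g2 : c = p * y := by linarith
    have g3 : b = p * x' := by linarith
    have g4 : d = n + p * y' := by linarith
    rw [g1, g2, g3, g4] at h4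
    linear_combination h4

end EigAux

variable {K : Type} [Field K] [NumberField K] {σ σ' : K →+* ℝ}

open EigAux in
theorem eigS (h : RQ σ σ') (hL : LatSt K) : EigSt σ σ' := by
  intro S N ε hε hu
  obtain ⟨T, T0, T1, T2⟩ := data h hL hε hu
  refine ⟨4 + (T ^ 2 - 4).natAbs + S.sup fun r => Ideal.absNorm r.asIdeal,
    fun p q q' hB hp => ?_⟩
  have hS : ∀ r r' : Pr K, Spl p r r' → r ∉ S := fun r r' hr hrS => by
    have h1 := Finset.le_sup (f := fun r : Pr K => Ideal.absNorm r.asIdeal) hrS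
    have h2 := norm_eq h hr
    omega
  have hq := hS q q' hp
  have hq' := hS q' q hp.symm
  refine ⟨by omega, hq, hq', fun D => ?_⟩
  have e0 : ∀ r : Pr K, ε ∈ pw (r.valuation K) 0 := fun r =>
    ComplAux.mem_pw_zero.2 (hu.2 r).ge
  obtain ⟨s, s0, s1, s2⟩ := exists_s S N D hq
  obtain ⟨t, t0, t1, t2⟩ := exists_s S N D hq'
  obtain ⟨n, hn⟩ := res h hp (e0 q)
  obtain ⟨n', hn'⟩ := res h hp.symm (e0 q')
  have r1 := root hp (e0 q) T1 hn
  have r2 := root hp.symm (e0 q') T1 hn'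
  have pp : Prime (p : ℤ) := Nat.prime_iff_prime_int.1 hp.1
  have hsq : ¬ (p : ℤ) ∣ n ^ 2 - 1 := fun hd => by
    have h1 : (p : ℤ) ∣ T ^ 2 - 4 := by
      have e : T ^ 2 - 4 = -(T * n + 2) * (n ^ 2 - T * n + 1) +
          (T * n + 2 - T ^ 2) * (n ^ 2 - 1) := by ring
      rw [e]
      exact dvd_add (dvd_mul_of_dvd_right r1 _) (dvd_mul_of_dvd_right hd _)
    have h2 := Nat.le_of_dvd (Int.natAbs_pos.2 T0) (Int.natCast_dvd.1 h1)
    omega
  have hev : ∀ (r : Pr K) (u : K) (m : ℤ), og r u = -D r - 1 → u ∈ lat S N (D + pd r) →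
      ε - m ∈ pw (r.valuation K) 1 → ε * u - m * u ∈ lat S N D := fun r u m h1 h2 h3 => by
    rw [← sub_mul]
    refine mul_down h1 ?_ h3
    rw [sub_mul]
    exact sub_mem (((hL.elat S N _ ε hu).stab u).2 h2) (int_mul h2 m)
  refine ⟨s, t, n, n', ⟨?_, ?_, fun a b hab => ⟨ind hp hq s0 s1 t2 hab,
    ind hp.symm hq' t0 t1 s2 (add_comm ((a : K) * s) _ ▸ hab)⟩, hev q s n s1 s2 hn,
    hev q' t n' t1 t2 hn', ?_, hsq⟩, sup_eq h hL hp hq s0 s1 s2,
    sup_eq h hL hp.symm hq' t0 t1 t2, hn⟩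
  · exact mul_down s1 (by simpa using int_mul s2 p) (p_mem hp)
  · exact mul_down t1 (by simpa using int_mul t2 p) (p_mem hp.symm)
  · have h1 : (p : ℤ) ∣ (n - n') * (n + n' - T) := by
      have e : (n - n') * (n + n' - T) = (n ^ 2 - T * n + 1) - (n' ^ 2 - T * n' + 1) := by ring
      rw [e]
      exact dvd_sub r1 r2
    rcases pp.dvd_or_dvd h1 with h2 | h2
    · refine absurd (T2 p n hp.1.ne_zero
        (div_int hp (fun r => sub_mem (e0 r) (int_mem n)) hn ?_)) hsq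
      obtain ⟨c, hc⟩ := h2
      have h3 := sub_mem hn' (zsmul_mem (p_mem hp.symm) c)
      convert h3 using 1
      have h4 : (n : K) - n' = p * c := by exact_mod_cast congrArg (Int.cast : ℤ → K) hc
      rw [zsmul_eq_mul]
      linear_combination -h4
    · have e : n * n' - 1 = n * (n + n' - T) - (n ^ 2 - T * n + 1) := by ring
      rw [e]
      exact dvd_sub (dvd_mul_of_dvd_right h2 _) r1

end Pool.Agent.StarkD
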