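import Pool.Agent.Lib.MP_ca56d1_nt.D.St

/-! The reciprocity law with its sign at the second real place. -/

namespace Pool.Agent.StarkD

open NumberField IsDedekindDomain Pool.Agent.Stark Pool.Agent.Stark.AR Pool.Agent.RM StarkStmt
open scoped IsMulCommutative Classical nonZeroDivisors

variable {K : Type} [Field K] [NumberField K] {σ σ' : K →+* ℝ}
  {H : Type} [Field H] [NumberField H] [Algebra K H] [IsAbelianGalois K H]

namespace SignAux

/-- A real quadratic field has only two real embeddings. -/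
theorem two (h : RQ σ σ') (χ : K →+* ℝ) : χ = σ ∨ χ = σ' := by
  by_contra hc
  rw [not_or] at hc
  have inj : ∀ a b : K →+* ℝ, a ≠ b → Complex.ofRealHom.comp a ≠ Complex.ofRealHom.comp b :=
    fun a b hab e => hab (RingHom.ext fun x => Complex.ofReal_injective (RingHom.congr_fun e x))
  have h1 : 2 < Fintype.card (K →+* ℂ) :=
    Fintype.two_lt_card_iff.2 ⟨_, _, _, inj _ _ hc.1, inj _ _ hc.2, inj _ _ h.ne⟩
  rw [Embeddings.card, h.two] at h1
  exact lt_irrefl _ h1

omit [IsAbelianGalois K H] in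
/-- A real embedding of `K` extends to a complex embedding of `H`. -/
theorem ext_emb (χ : K →+* ℝ) : ∃ ψ : H →+* ℂ, ∀ x : K, ψ (algebraMap K H x) = χ x :=
  ⟨ComplexEmbedding.lift H (Complex.ofRealHom.comp χ), fun x =>
    ComplexEmbedding.lift_algebraMap_apply H (Complex.ofRealHom.comp χ) x⟩

theorem sq_eq {τ : H ≃ₐ[K] H} (hτ : IsCj σ' τ) : τ ^ (2 : ℤ) = 1 := by
  obtain ⟨ψ, hψ⟩ := ext_emb (H := H) σ'
  ext y
  apply ψ.injective
  rw [zpow_two, AlgEquiv.mul_apply, hτ ψ hψ, hτ ψ hψ, Complex.conj_conj, AlgEquiv.one_apply]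

theorem mem_two {τ g : H ≃ₐ[K] H} (hτ : IsCj σ' τ) (hg : g ∈ Subgroup.zpowers τ) :
    g = 1 ∨ g = τ := by
  obtain ⟨k, rfl⟩ := Subgroup.mem_zpowers_iff.1 hg
  obtain ⟨m, rfl | rfl⟩ := Int.even_or_odd' k
  · exact Or.inl (by rw [zpow_mul, sq_eq hτ, one_zpow])
  · exact Or.inr (by rw [zpow_add_one, zpow_mul, sq_eq hτ, one_zpow, one_mul])

omit [IsAbelianGalois K H] in
/-- No real place ramifies in the fixed field of the complex conjugation. -/
theorem noRam (h : RQ σ σ') {φ : H →+* ℝ} (hφ : φ.comp (algebraMap K H) = σ) {τ : H ≃ₐ[K] H}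
    (hτ : IsCj σ' τ) (χ : K →+* ℝ) :
    ¬ RamR (IntermediateField.fixedField (Subgroup.zpowers τ)) χ := by
  rw [RamR, not_not]
  rcases two h χ with rfl | rfl
  · refine ⟨φ.comp (algebraMap _ H), RingHom.ext fun x => ?_⟩
    rw [← hφ]
    rfl
  · obtain ⟨ψ, hψ⟩ := ext_emb (H := H) χ
    have hr : ComplexEmbedding.IsReal
        (ψ.comp (algebraMap (IntermediateField.fixedField (Subgroup.zpowers τ)) H)) := by
      refine ComplexEmbedding.isReal_iff.2 (RingHom.ext fun y => ?_)
      have h1 : τ (y : H) = y := y.2 ⟨τ, Subgroup.mem_zpowers τ⟩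
      have h2 := hτ ψ hψ y
      rw [h1] at h2
      exact h2.symm
    refine ⟨hr.embedding, RingHom.ext fun x => Complex.ofReal_injective ?_⟩
    rw [RingHom.comp_apply, hr.coe_embedding_apply]
    exact hψ x

theorem one (h : RQ σ σ') {S : Finset (Pr K)} (hS : UnrO H S) {φ : H →+* ℝ}
    (hφ : φ.comp (algebraMap K H) = σ) (τ : H ≃ₐ[K] H) :
    ∃ N, IsCj σ' τ → ∀ a : K, Ray S N a → ev (fr K H) (dv a) ∈ Subgroup.zpowers τ := by
  have hT := hTow K H (IntermediateField.fixedField (Subgroup.zpowers τ))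
  obtain ⟨N, hN⟩ := hRec K (IntermediateField.fixedField (Subgroup.zpowers τ)) S (hT.bot S hS)
  refine ⟨N, fun hτ a ha => ?_⟩
  have h3 := hN a ha fun χ hχ => absurd hχ (noRam h hφ hτ χ)
  have h4 : AlgEquiv.restrictNormalHom (IntermediateField.fixedField (Subgroup.zpowers τ))
      (ev (fr K H) (dv a)) = 1 := by
    rw [← h3]
    refine (map_ev (Γ' := IntermediateField.fixedField (Subgroup.zpowers τ) ≃ₐ[K]
        IntermediateField.fixedField (Subgroup.zpowers τ))
      (AlgEquiv.restrictNormalHom (IntermediateField.fixedField (Subgroup.zpowers τ))) (fr K H)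
      (dv a)).trans (ev_congr fun q hq => ?_)
    have hq' : q ∉ S := fun h => hq (ha.og_eq h)
    ext x
    have h5 := hT.res inferInstance S hS q hq' x
    have h6 := AlgEquiv.restrictNormal_commutes (fr K H q)
      (IntermediateField.fixedField (Subgroup.zpowers τ)) x
    exact h6.trans h5
  rwa [← MonoidHom.mem_ker, IntermediateField.restrictNormalHom_ker,
    IntermediateField.fixingSubgroup_fixedField] at h4

end SignAux

theorem signS (h : RQ σ σ') : SignSt σ σ' H := by
  intro S φ hS hφ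
  obtain ⟨N, hN⟩ := hRec K H S hS
  choose N' hN' using SignAux.one h hS hφ
  refine ⟨max N (Finset.univ.sup N'), fun a ha hp => ?_, fun τ hτ a ha => ?_⟩
  · refine hN a (ha.mono subset_rfl (le_max_left _ _)) fun χ hχ => ?_
    rcases SignAux.two h χ with rfl | rfl
    · exact absurd ⟨φ, hφ⟩ hχ
    · exact hp
  · exact SignAux.mem_two hτ (hN' τ hτ a (ha.mono subset_rfl
      ((Finset.le_sup (Finset.mem_univ τ)).trans (le_max_right _ _))))

end Pool.Agent.StarkD
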