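import Pool.Agent.Lib.MP_ca56d1_nt.D.Gen

/-! Elementary properties of the lattices attached to divisors. -/

namespace Pool.Agent.StarkD

open NumberField IsDedekindDomain Pool.Agent.Stark Pool.Agent.Stark.AR Pool.Agent.RM StarkStmt
open scoped IsMulCommutative Classical nonZeroDivisors

variable {K : Type} [Field K] [NumberField K]

namespace LatH

theorem mul_iff (q : Pr K) {a : K} (ha : a ≠ 0) (y : K) (j : ℤ) :
    a * y ∈ pw (q.valuation K) j ↔ y ∈ pw (q.valuation K) (j - og q a) := by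
  by_cases hy : y = 0
  · simp [hy]
  rw [mem_pw_iff, mem_pw_iff, ord_mul ha hy, og]
  simp only [mul_ne_zero ha hy, hy, false_or]
  omega

theorem self_mem (q : Pr K) (y : K) : y ∈ pw (q.valuation K) (og q y) :=
  mem_pw_iff.2 (Or.inr le_rfl)

theorem smul_lat (S : Finset (Pr K)) (N : ℕ) (D : Dv K) (a : K) (ha : PS S a) (y : K) :
    y ∈ lat S N (D + dv a) ↔ a * y ∈ lat S N D := by
  rw [mem_lat, mem_lat]
  refine and_congr (forall₂_congr fun q hq => ?_) (forall₂_congr fun q _ => ?_)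
  · rw [mul_iff q ha.1, ha.2 q hq, sub_zero]
  · rw [mul_iff q ha.1, Finsupp.add_apply, dv_apply, neg_add']

theorem exists_nat (P : Finset (Pr K)) (j : Pr K → ℤ) (z : K) :
    ∃ n : ℕ, n ≠ 0 ∧ ∀ q ∈ P, (n : K) * z ∈ pw (q.valuation K) (j q) := by
  choose n h0 hn using fun q => RayTAux.exists_mul q (j q) z
  exact ⟨∏ q ∈ P, n q, Finset.prod_ne_zero_iff.2 fun q _ => h0 q,
    fun q hq => hn q _ (Finset.dvd_prod_of_mem _ hq)⟩

theorem full (S : Finset (Pr K)) (N : ℕ) (D : Dv K) (y : K) :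
    ∃ n : ℕ, n ≠ 0 ∧ (n : K) * y ∈ lat S N D := by
  obtain ⟨n, h0, hn⟩ := exists_nat (S ∪ D.support ∪ (dv y).support)
    (fun q => if q ∈ S then (N : ℤ) + 1 else -D q) y
  refine ⟨n, h0, fun q hq => ?_, fun q hq => ?_⟩
  · simpa [hq] using hn q (by simp [hq])
  · by_cases h : q ∈ S ∪ D.support ∪ (dv y).support
    · simpa [hq] using hn q h
    · simp only [Finset.mem_union, Finsupp.mem_support_iff, not_or, not_not, dv_apply] at h
      have h1 := pw_mul (ComplAux.mem_pw_zero.2 (GenAux.og_nat q n)) (self_mem q y)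
      rw [h.2] at h1
      rw [h.1.2]
      exact h1

theorem fg (S : Finset (Pr K)) (N : ℕ) (D : Dv K) : (lat S N D).FG := by
  obtain ⟨n, h0, hn⟩ := exists_nat D.support D (1 : K)
  have hn0 : (n : K) ≠ 0 := Nat.cast_ne_zero.2 h0
  let f : 𝓞 K →ₗ[ℤ] K := (LinearMap.mul ℤ K (n : K)⁻¹).comp (algebraMap (𝓞 K) K).toIntAlgHom.toLinearMap
  have h1 : (LinearMap.range f).FG := by
    rw [LinearMap.range_eq_map]
    exact Module.Finite.fg_top.map f
  refine Submodule.FG.of_le h1 fun y hy => ?_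
  obtain ⟨z, hz⟩ := exists_int_of_og (x := (n : K) * y) fun q => by
    refine ComplAux.mem_pw_zero.1 ?_
    by_cases hq : q ∈ S
    · exact ComplAux.pw_mono (by omega)
        (pw_mul (ComplAux.mem_pw_zero.2 (GenAux.og_nat q n)) (hy.1 q hq))
    · have h2 : (n : K) ∈ pw (q.valuation K) (D q) := by
        by_cases h : q ∈ D.support
        · simpa using hn q h
        · rw [Finsupp.notMem_support_iff.1 h]
          exact ComplAux.mem_pw_zero.2 (GenAux.og_nat q n)
      simpa using pw_mul h2 (hy.2 q hq)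
  refine ⟨z, ?_⟩
  change (n : K)⁻¹ * (z : K) = y
  rw [hz, inv_mul_cancel_left₀ hn0]

theorem ne (S : Finset (Pr K)) (N : ℕ) (D : Dv K) : (Lam S N D).Nonempty := by
  obtain ⟨y, h1, h2⟩ := approx_strong (S ∪ D.support)
    (fun q => emb q (if q ∈ S then 1 else 0)) ((N : ℤ) + 1 + ∑ q ∈ D.support, |D q|)
  have h3 : (0 : ℤ) ≤ ∑ q ∈ D.support, |D q| := Finset.sum_nonneg fun _ _ => abs_nonneg _
  refine ⟨y, fun q hq => ?_, fun q hq => ?_⟩
  · have := h1 q (by simp [hq])
    rw [if_pos hq, ← map_sub, ComplAux.emb_mem_pw] at this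
    exact ComplAux.pw_mono (by omega) this
  · by_cases h : q ∈ D.support
    · have := h1 q (Finset.mem_union_right _ h)
      rw [if_neg hq, ← map_sub, ComplAux.emb_mem_pw, sub_zero] at this
      have h4 := Finset.single_le_sum (f := fun q => |D q|) (fun _ _ => abs_nonneg _) h
      have h5 := neg_le_abs (D q)
      exact ComplAux.pw_mono (by omega) this
    · rw [Finsupp.notMem_support_iff.1 h]
      exact ComplAux.mem_pw_zero.2 (h2 q (by simp only [Finset.mem_union, hq, h]; simp))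

theorem lam_int {S : Finset (Pr K)} {N : ℕ} {D : Dv K} {x : K} (hx : x ∈ Lam S N D) {q : Pr K}
    (hq : q ∈ S) : x ∈ pw (q.valuation K) 0 := by
  have h1 : (1 : K) ∈ pw (q.valuation K) 0 := ComplAux.mem_pw_zero.2 (by simp)
  simpa using add_mem (ComplAux.pw_mono (by omega) (hx.1 q hq)) h1

theorem latS : LatSt K where
  elat S N D ε hε := ⟨fg S N D, full S N D, fun y => by
    rw [← smul_lat S N D ε ⟨hε.1, fun q _ => hε.2 q⟩, show dv ε = 0 from Finsupp.ext hε.2,
      add_zero]⟩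
  ne := ne
  coset S N D x hx := Set.ext fun y => ⟨fun hy => ⟨fun q hq => by
      simpa using sub_mem (hy.1 q hq) (hx.1 q hq), fun q hq => sub_mem (hy.2 q hq) (hx.2 q hq)⟩,
    fun hy => ⟨fun q hq => by simpa using add_mem (hy.1 q hq) (hx.1 q hq),
      fun q hq => by simpa using add_mem (hy.2 q hq) (hx.2 q hq)⟩⟩
  stab S N D u hu x hx := ⟨fun q hq => by simpa using pw_mul (hu.2.2 q hq) (lam_int hx hq),
    fun q hq => by
      have h1 : u - 1 ∈ pw (q.valuation K) 0 :=
        sub_mem (ComplAux.mem_pw_zero.2 (hu.1.2 q).ge) (ComplAux.mem_pw_zero.2 (by simp))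
      simpa using pw_mul h1 (hx.2 q hq)⟩
  notMem S N D D' hS x hx h := by
    obtain ⟨q, hq⟩ := hS
    have h1 := sub_mem (h.1 q hq) (hx.1 q hq)
    rw [sub_sub_cancel, mem_pw_iff, ord_one] at h1
    rcases h1 with h1 | h1
    · exact one_ne_zero h1
    · omega
  off S N D D' h := ⟨Submodule.ext fun y => and_congr_right fun _ =>
      forall₂_congr fun q hq => by rw [h q hq],
    Set.ext fun y => and_congr_right fun _ => forall₂_congr fun q hq => by rw [h q hq]⟩
  mono S N D D' h := ⟨fun y hy => ⟨hy.1, fun q hq =>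
      ComplAux.pw_mono (neg_le_neg (h q hq)) (hy.2 q hq)⟩,
    fun y hy => ⟨hy.1, fun q hq => ComplAux.pw_mono (neg_le_neg (h q hq)) (hy.2 q hq)⟩⟩
  smul_lat := smul_lat
  smul_Lam S N D a ha := Set.ext fun y => by
    refine and_congr (forall₂_congr fun q hq => ?_) (forall₂_congr fun q _ => ?_)
    · have h1 := (mul_iff q ha.1 (y - 1) ((N : ℤ) + 1))
      rw [ha.og_eq hq, sub_zero] at h1
      rw [← h1, show a * y - 1 = a * (y - 1) + (a - 1) by ring,
        AddSubgroup.add_mem_cancel_right _ (ha.2 q hq)]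
    · rw [mul_iff q ha.1, Finsupp.add_apply, dv_apply, neg_add']
  mul S N D D' a y h1 h2 hy := ⟨fun q hq => by simpa using pw_mul (h1 q hq) (hy.1 q hq),
    fun q hq => ComplAux.pw_mono (by omega) (pw_mul (h2 q hq) (hy.2 q hq))⟩

end LatH

end Pool.Agent.StarkD
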