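import Pool.Agent.Lib.MP_ca56d1_nt.D.CZ

/-! The Artin map on ray classes and the decomposition of the zeta functions. -/

set_option linter.unusedSectionVars false

namespace Pool.Agent.StarkD

open NumberField IsDedekindDomain Pool.Agent.Stark Pool.Agent.Stark.AR Pool.Agent.RM StarkStmt
open scoped IsMulCommutative Classical nonZeroDivisors

variable {K : Type} [Field K] [NumberField K] {σ' : K →+* ℝ}
  {H : Type} [Field H] [NumberField H] [Algebra K H] [IsAbelianGalois K H]

namespace ArtH

theorem artD_eq {S : Finset (Pr K)} {D : Dv K} (h : ∀ q ∈ S, D q = 0) :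
    artD H S D = ev (fr K H) D :=
  ev_congr fun q hq => if_neg fun h1 => hq (h q h1)

theorem artD_S {S : Finset (Pr K)} {D : Dv K} (h : ∀ q ∉ S, D q = 0) : artD H S D = 1 := by
  rw [artD, ev_congr (c' := fun _ => 1) fun q hq => if_pos (by_contra fun h1 => hq (h q h1))]
  simp [ev, Finsupp.prod]

theorem art_cls {S : Finset (Pr K)} {N : ℕ} (hR : Rec H σ' S N) (D : Dv K) :
    art H (cls σ' S N D) = artD H S D := by
  obtain ⟨a, h1, h2, h3⟩ := cls_eq.1 (cls_out (cls σ' S N D)).symm
  have h4 : (cls σ' S N D).out = D + dv a + ((cls σ' S N D).out - D - dv a) := by abel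
  rw [art, h4, artD, ev_add, ev_add, ← artD, ← artD, ← artD, artD_eq (D := dv a) fun q hq => h1.og_eq hq,
    hR a h1 h2, artD_S (D := _ - _ - _) fun q hq => by
      rw [Finsupp.sub_apply, Finsupp.sub_apply, h3 q hq, dv_apply]
      ring, mul_one, mul_one]

theorem artin_idv {I : Ideal (𝓞 K)} (hI : I ≠ ⊥) : artin K H I = ev (fr K H) (idv I) := by
  have h0 : ∀ q, 0 ≤ idv I q := fun q => FractionalIdeal.count_coe_nonneg K q I
  have h1 : idv (∏ q ∈ (idv I).support, q.asIdeal ^ (idv I q).toNat) = idv I :=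
    Finsupp.ext fun q => by
      rw [idv_apply, ← FractionalIdeal.count_finsuppProd K q (idv I)]
      refine congrArg _ ((map_prod (FractionalIdeal.coeIdealHom (𝓞 K)⁰ K) _ _).trans
        (Finset.prod_congr rfl fun v _ => ?_))
      rw [map_pow, ← zpow_natCast, Int.toNat_of_nonneg (h0 v)]
      rfl
  rw [← CZAux.idv_inj (Finset.prod_ne_zero_iff.2 fun q _ => pow_ne_zero _ q.ne_bot) hI h1,
    RecAux.artin_prod, h1]
  refine Finset.prod_congr rfl fun q _ => ?_
  rw [← zpow_natCast, Int.toNat_of_nonneg (h0 q)]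

theorem artS : ArtSt σ' H where
  cls _ _ := art_cls
  add S N hR a b := by
    rw [← cls_out a, ← cls_out b, ← map_add, art_cls hR, art_cls hR, art_cls hR]
    exact ev_add _ _ _
  prime S N hR q hq := by
    rw [art_cls hR, artD, ev_single, if_neg hq, zpow_one]
  prin S N hR a ha := by rw [art_cls hR, artD_eq (D := dv a) ha.2]
  ideal S N hR I hI := by
    rw [art_cls hR, artD_eq fun q hq => (CZAux.cop_iff hI.1 q).1 (hI.2 q hq), artin_idv hI.1]

theorem sub_eq (P : Ideal (𝓞 K) → Prop) (s : ℂ) :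
    ∑' I : {I // P I}, (Ideal.absNorm I.1 : ℂ) ^ (-s) =
      ∑' I, if P I then (Ideal.absNorm I : ℂ) ^ (-s) else 0 := by
  refine (tsum_subtype {I | P I} fun I => (Ideal.absNorm I : ℂ) ^ (-s)).trans
    (tsum_congr fun I => ?_)
  by_cases h : P I
  · rw [if_pos h, Set.indicator_of_mem (by exact h)]
  · rw [if_neg h, Set.indicator_of_notMem (by exact h)]

theorem zetaS (h : ArtSt σ' H) : ZetaSt σ' H := by
  intro S N V hR hfin hV g
  choose Z h1 h2 h3 using hV
  have := Fintype.ofFinite (Cl σ' S N)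
  let T : Finset (Cl σ' S N) := Finset.univ.filter fun c => art H c = g
  refine ⟨fun s => ∑ c ∈ T, Z c s, ⟨fun x hx => ?_, ?_, fun s hs => ?_⟩, ?_, ?_⟩
  · exact MeromorphicAt.fun_sum fun c _ => (h1 c).1 x hx
  · exact Finset.analyticAt_fun_sum _ fun c _ => (h1 c).2.1
  · beta_reduce
    rw [Finset.sum_congr rfl fun c _ => (h1 c).2.2 s hs, pzeta, sub_eq]
    simp only [czeta, sub_eq]
    rw [← Summable.tsum_finsetSum fun c _ =>
      Summable.of_norm_bounded (EulerAux.summable_all hs) fun I => by split_ifs <;> simp]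
    refine tsum_congr fun I => ?_
    by_cases hI : PrimeTo S I
    · simp only [hI, true_and, Finset.sum_ite_eq, T, Finset.mem_filter, Finset.mem_univ,
        h.ideal S N hR I hI]
    · simp [hI]
  · simp only [h2, Finset.sum_const_zero]
  · rw [deriv_fun_sum fun c _ => (h1 c).2.1.differentiableAt, lsum,
      finsum_mem_eq_sum_of_inter_support_eq _ (t := T) (by simp [T])]
    push_cast
    exact Finset.sum_congr rfl fun c _ => h3 c

end ArtH

end Pool.Agent.StarkD
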