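import Pool.Agent.Lib.MP_ca56d1_nt.D.St
import Pool.Agent.Lib.MP_ca56d1_nt.C.Fin
import Pool.Agent.Lib.MP_ca56d1_nt.RM.Basic

/-! The zeta function of a ray class at zero. -/

namespace Pool.Agent.StarkD

open NumberField IsDedekindDomain Pool.Agent.Stark Pool.Agent.Stark.AR Pool.Agent.RM StarkStmt
open scoped IsMulCommutative Classical nonZeroDivisors

variable {K : Type} [Field K] [NumberField K] {σ σ' : K →+* ℝ}

namespace CZAux

theorem abs_norm (h : RQ σ σ') (y : K) :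
    ((|Algebra.norm ℚ y| : ℚ) : ℝ) = |σ y * σ' y| := by
  have hne : plc σ ≠ plc σ' := fun e => h.ne (plc_injective e)
  have h1 : (Finset.univ : Finset (InfinitePlace K)).card ≤ 2 := by
    rw [← h.two, ← InfinitePlace.sum_mult_eq, Finset.card_eq_sum_ones]
    exact Finset.sum_le_sum fun w _ => InfinitePlace.mult_pos
  have h2 : ({plc σ, plc σ'} : Finset (InfinitePlace K)) = Finset.univ :=
    Finset.eq_of_subset_of_card_le (Finset.subset_univ _) (by rwa [Finset.card_pair hne])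
  rw [← InfinitePlace.prod_eq_abs_norm, ← h2, Finset.prod_pair hne, abs_mul,
    (plc_isReal σ).mult_eq_one, (plc_isReal σ').mult_eq_one, pow_one, pow_one, plc_apply,
    plc_apply]

theorem cop_iff {I : Ideal (𝓞 K)} (hI : I ≠ ⊥) (q : Pr K) :
    IsCoprime I q.asIdeal ↔ idv I q = 0 := by
  rw [EulerAux.coprime_iff, idv_apply, FractionalIdeal.count_coe K q hI, Nat.cast_eq_zero,
    ← Associates.count_ne_zero_iff_dvd hI q.irreducible, not_not]

theorem cnt_mk {I : Ideal (𝓞 K)} (hI : I ≠ ⊥) :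
    ComplAux.cnt K (Units.mk0 (I : FractionalIdeal (𝓞 K)⁰ K)
      (FractionalIdeal.coeIdeal_ne_zero.2 hI)) = Multiplicative.ofAdd (idv I) := rfl

theorem idv_inj {I J : Ideal (𝓞 K)} (hI : I ≠ ⊥) (hJ : J ≠ ⊥) (e : idv I = idv J) : I = J := by
  have h1 := ComplAux.cnt_inj ((cnt_mk hI).trans ((congrArg _ e).trans (cnt_mk hJ).symm))
  exact FractionalIdeal.coeIdeal_injective (K := K) (congrArg Units.val h1)

theorem exists_ideal (E : Dv K) (hE : ∀ q, 0 ≤ E q) : ∃ I : Ideal (𝓞 K), I ≠ ⊥ ∧ idv I = E := by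
  refine ⟨∏ q ∈ E.support, q.asIdeal ^ (E q).toNat,
    Finset.prod_ne_zero_iff.2 fun q _ => pow_ne_zero _ q.ne_bot, Finsupp.ext fun q => ?_⟩
  rw [idv_apply, ← FractionalIdeal.count_finsuppProd K q E]
  refine congrArg _ ((map_prod (FractionalIdeal.coeIdealHom (𝓞 K)⁰ K) _ _).trans
    (Finset.prod_congr rfl fun v _ => ?_))
  rw [map_pow, ← zpow_natCast, Int.toNat_of_nonneg (hE v)]
  rfl

theorem exists_kappa (h : RQ σ σ') (S : Finset (Pr K)) (D : Dv K) : ∃ κ : ℝ, 0 < κ ∧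
    ∀ (I : Ideal (𝓞 K)) (y : K), PrimeTo S I → PS S y → (∀ q ∉ S, idv I q = D q + og q y) →
      (Ideal.absNorm I : ℝ) = κ * |σ y * σ' y| := by
  obtain ⟨J, hJ⟩ := ComplAux.cnt_surj (Multiplicative.ofAdd (D.filter (· ∉ S)))
  refine ⟨(FractionalIdeal.absNorm J.1 : ℚ), ?_, fun I y hI hy e => ?_⟩
  · exact_mod_cast (FractionalIdeal.absNorm_nonneg J.1).lt_of_ne fun h0 =>
      J.ne_zero (FractionalIdeal.absNorm_eq_zero_iff.1 h0.symm)
  · have h1 : Units.mk0 (I : FractionalIdeal (𝓞 K)⁰ K) (FractionalIdeal.coeIdeal_ne_zero.2 hI.1) =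
        J * toPrincipalIdeal (𝓞 K) K (Units.mk0 y hy.1) := by
      refine ComplAux.cnt_inj ?_
      rw [cnt_mk hI.1, map_mul, hJ, ComplAux.cnt_prin, ← ofAdd_add]
      refine congrArg _ (Finsupp.ext fun q => ?_)
      rw [Finsupp.add_apply, Finsupp.filter_apply, dv_apply, Units.val_mk0]
      split_ifs with hq
      · rw [(cop_iff hI.1 q).1 (hI.2 q hq), hy.2 q hq, add_zero]
      · exact e q hq
    have h2 := congrArg (fun U : (FractionalIdeal (𝓞 K)⁰ K)ˣ => FractionalIdeal.absNorm U.1) h1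
    simp only [Units.val_mk0, Units.val_mul, map_mul, coe_toPrincipalIdeal,
      FractionalIdeal.coeIdeal_absNorm, FractionalIdeal.absNorm_span_singleton] at h2
    rw [← abs_norm h, ← Rat.cast_mul, ← h2, Rat.cast_natCast]

theorem ru_zpow {S : Finset (Pr K)} {N : ℕ} {η : K} (h : RU S N η) (k : ℤ) : RU S N (η ^ k) := by
  refine ⟨⟨zpow_ne_zero _ h.1.1, fun q => ?_⟩, ?_⟩
  · have := h.1.2 q
    rw [og] at *
    rw [ord_zpow, this, mul_zero]
  · induction k using Int.induction_on with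
    | zero => simpa using Ray.one S N
    | succ n ih => rw [zpow_add_one₀ h.1.1]; exact ih.mul h.2
    | pred n ih => rw [zpow_sub_one₀ h.1.1]; exact ih.mul h.2.inv

theorem og_ru {S : Finset (Pr K)} {N : ℕ} {u y : K} (h : RU S N u) (hy : y ≠ 0) (q : Pr K) :
    og q (u * y) = og q y := by
  have := h.1.2 q
  rw [og] at *
  rw [ord_mul h.1.1 hy, this, zero_add, og]

omit [NumberField K] in
theorem isFD_pow {ι : Type} {η : K} {U : Set K} {a : ι → K} (hη : η ≠ 0) (hU : Stab η U)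
    (ha : IsFD η U a) {m : ℕ} (hm : m ≠ 0) :
    IsFD (η ^ m) U fun c : ι × Fin m => η ^ (c.2 : ℕ) * a c.1 := by
  have hm' : (0 : ℤ) < m := by omega
  have key : ∀ (k : ℤ) (j : ℕ) (x : K), (η ^ m) ^ k * (η ^ j * x) = η ^ (m * k + j : ℤ) * x := by
    intro k j x
    rw [zpow_add₀ hη, zpow_mul, zpow_natCast, zpow_natCast, mul_assoc]
  refine ⟨fun c => (hU.pow _ _).2 (ha.1 _), fun y hy => ?_⟩
  obtain ⟨⟨i, k⟩, h1, h2⟩ := ha.2 y hy
  have h3 := Int.emod_nonneg k hm'.ne'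
  have h4 := Int.emod_lt_of_pos k hm'
  refine ⟨((i, ⟨(k % m).toNat, by omega⟩), k / m), ?_, ?_⟩
  · beta_reduce
    rw [key, Int.toNat_of_nonneg h3, Int.mul_ediv_add_emod]
    exact h1
  · rintro ⟨⟨i', j⟩, k'⟩ e
    beta_reduce at e
    rw [key] at e
    obtain ⟨rfl, e2⟩ := Prod.mk.inj (h2 (i', m * k' + j) e)
    have hj : ((j : ℕ) : ℤ) < m := by exact_mod_cast j.2
    obtain ⟨e3, e4⟩ := (Int.ediv_emod_unique hm' (a := k) (r := (j : ℕ)) (q := k')).2
      ⟨by omega, by omega, hj⟩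
    refine Prod.ext (Prod.ext rfl (Fin.ext ?_)) e3.symm
    simp only [e4, Int.toNat_natCast]

theorem exists_fd {S : Finset (Pr K)} {N : ℕ} {η : K} (hη : UGen σ σ' S N η) (D : Dv K) :
    ∃ a : {I : Ideal (𝓞 K) // PrimeTo S I ∧ cls σ' S N (idv I) = cls σ' S N D} → K,
      IsFD η {y | y ∈ Lam S N D ∧ 0 < σ' y} a ∧
      ∀ I, PS S (a I) ∧ ∀ q ∉ S, idv I.1 q = D q + og q (a I) := by
  choose a a1 a2 a3 using
    fun I : {I : Ideal (𝓞 K) // PrimeTo S I ∧ cls σ' S N (idv I) = cls σ' S N D} =>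
      cls_eq.1 I.2.2.symm
  refine ⟨a, ⟨fun I => ⟨⟨(a1 I).2, fun q hq => mem_pw_iff.2 (Or.inr ?_)⟩, a2 I⟩, ?_⟩,
    fun I => ⟨PS.of_ray (a1 I), a3 I⟩⟩
  · have h1 : 0 ≤ idv I.1 q := FractionalIdeal.count_coe_nonneg K q I.1
    have h2 := a3 I q hq
    rw [og] at h2
    omega
  rintro y ⟨hy, hy'⟩
  have y0 : y ≠ 0 := fun e => by simp [e] at hy'
  have yr : Ray S N y := ⟨y0, hy.1⟩
  obtain ⟨I, I0, hI⟩ := exists_ideal ((D + dv y).filter (· ∉ S)) fun q => by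
    rw [Finsupp.filter_apply]
    split_ifs with hq
    · exact le_rfl
    · have := (mem_pw_iff.1 (hy.2 q hq)).resolve_left y0
      rw [Finsupp.add_apply, dv_apply, og]
      omega
  have I1 : ∀ q ∉ S, idv I q = D q + og q y := fun q hq => by
    rw [hI, Finsupp.filter_apply, if_pos hq, Finsupp.add_apply, dv_apply]
  have I2 : PrimeTo S I := ⟨I0, fun q hq => (cop_iff I0 q).2 (by
    rw [hI, Finsupp.filter_apply, if_neg (not_not.2 hq)])⟩
  have I3 := (cls_eq.2 ⟨y, yr, hy', I1⟩).symm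
  have b0 := (a1 ⟨I, I2, I3⟩).1
  have hr := yr.div (a1 ⟨I, I2, I3⟩)
  obtain ⟨k, hk⟩ := hη.gen (y / a ⟨I, I2, I3⟩) ⟨⟨hr.1, fun q => by
    by_cases hq : q ∈ S
    · exact hr.og_eq hq
    · have h1 := a3 ⟨I, I2, I3⟩ q hq
      rw [I1 q hq, add_right_inj, og, og] at h1
      rw [og, ord_div y0 b0, h1, sub_self]⟩, hr⟩ (by rw [map_div₀]; exact div_pos hy' (a2 _))
  have hy1 : y = η ^ k * a ⟨I, I2, I3⟩ := by rw [← hk, div_mul_cancel₀ _ b0]
  refine ⟨(⟨I, I2, I3⟩, k), hy1, ?_⟩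
  rintro ⟨J, l⟩ e
  have hJ : J = ⟨I, I2, I3⟩ := Subtype.ext (idv_inj J.2.1.1 I0 (Finsupp.ext fun q => by
    by_cases hq : q ∈ S
    · rw [(cop_iff J.2.1.1 q).1 (J.2.1.2 q hq), (cop_iff I0 q).1 (I2.2 q hq)]
    · rw [a3 J q hq, I1 q hq, e, og_ru (ru_zpow hη.ru l) (a1 J).1]))
  subst hJ
  have h1 := congrArg (fun z => |σ z|) (mul_right_cancel₀ b0 (e.symm.trans hy1))
  simp only [map_zpow₀, abs_zpow] at h1
  rw [zpow_right_injective₀ (by linarith [hη.one_lt]) hη.one_lt.ne' h1]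

theorem cont_scale {f g Z : ℂ → ℂ} {κ : ℝ} {m : ℕ} (hκ : 0 < κ) (hm : m ≠ 0) (hZ : IsCont f Z)
    (h0 : Z 0 = 0) (e : ∀ s : ℂ, 1 < s.re → f s = g s * (κ : ℂ) ^ s * m) :
    ∃ W, IsCont g W ∧ W 0 = 0 ∧ deriv W 0 = deriv Z 0 / m := by
  have hκ' : (κ : ℂ) ≠ 0 := by exact_mod_cast hκ.ne'
  have hm' : (m : ℂ) ≠ 0 := by exact_mod_cast hm
  have hd : Differentiable ℂ fun s : ℂ => (κ : ℂ) ^ (-s) / m :=
    (differentiable_id.neg.const_cpow (Or.inl hκ')).div_const _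
  refine ⟨fun s => (κ : ℂ) ^ (-s) / m * Z s, ⟨fun s hs => (hd.analyticAt s).meromorphicAt.mul
    (hZ.1 s hs), (hd.analyticAt 0).mul hZ.2.1, fun s hs => ?_⟩, by simp only [h0, mul_zero], ?_⟩
  · have := Complex.cpow_ne_zero_iff.2 (Or.inl hκ' : (κ : ℂ) ≠ 0 ∨ s = 0)
    simp only [hZ.2.2 s hs, e s hs, Complex.cpow_neg]
    field_simp
  · rw [((hd 0).hasDerivAt.fun_mul hZ.2.1.differentiableAt.hasDerivAt).deriv, h0]
    simp only [neg_zero, Complex.cpow_zero]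
    ring

end CZAux

open CZAux

theorem czS (h : RQ σ σ') (hA : PartA σ σ') (hL : LatSt K) : CZSt σ σ' := by
  intro S N η m hS hη hm hε D
  obtain ⟨x, hx⟩ := hL.ne S N D
  have hst : ∀ u, RU S N u → Stab u (Lam S N D) := fun u hu => by
    rw [hL.coset S N D x hx]
    exact coset_stab (hL.elat S N D u hu.1) (hL.stab S N D u hu x hx)
  have hlat : Lat (Lam S N D) := by
    rw [hL.coset S N D x hx]
    exact coset_lat (hL.elat S N D η hη.ru.1) x
  have hru : RU S N (η ^ m) := by simpa using ru_zpow hη.ru m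
  obtain ⟨a, a1, a2⟩ := exists_fd hη D
  obtain ⟨κ, k0, k1⟩ := exists_kappa h S D
  have hU : Stab η {y | y ∈ Lam S N D ∧ 0 < σ' y} := fun y => by
    simp only [Set.mem_ofPred_eq, hst η hη.ru y, map_mul, mul_pos_iff_of_pos_left hη.pos]
  obtain ⟨Z, z1, z2, z3⟩ := hA.shintani _ _ hε hlat (hst _ hru)
    (fun h0 => hL.notMem S N D D hS 0 h0 (zero_mem _)) _ (isFD_pow hη.ru.1.1 hU a1 hm)
  obtain ⟨W, w1, w2, w3⟩ := cont_scale (g := czeta (cls σ' S N D)) k0 hm z1 z2 fun s hs => by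
    have hs1 := (EulerAux.summable_all (F := K) hs).subtype
      fun I => PrimeTo S I ∧ cls σ' S N (idv I) = cls σ' S N D
    have hs2 : Summable fun _ : Fin m => ‖(κ : ℂ) ^ s‖ := Summable.of_finite
    have h1 := tsum_mul_tsum_of_summable_norm hs1 hs2
    rw [tsum_fintype (β := Fin m), Finset.sum_const, Finset.card_univ, Fintype.card_fin, nsmul_eq_mul] at h1
    rw [mul_assoc, mul_comm _ (m : ℂ)]
    refine Eq.trans (tsum_congr fun c => ?_) h1.symm
    have h2 : |σ (η ^ (c.2 : ℕ) * a c.1) * σ' (η ^ (c.2 : ℕ) * a c.1)| =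
        |σ (a c.1) * σ' (a c.1)| := by
      rw [map_mul, map_mul, mul_mul_mul_comm, abs_mul, map_pow, map_pow, ← mul_pow, abs_pow,
        hη.norm, one_pow, one_mul]
    have h3 := k1 c.1.1 (a c.1) c.1.2.1 (a2 c.1).1 (a2 c.1).2
    have h4 := Complex.cpow_ne_zero_iff.2
      (Or.inl (by exact_mod_cast k0.ne') : (κ : ℂ) ≠ 0 ∨ s = 0)
    rw [h2, ← Complex.ofReal_natCast, h3, Complex.ofReal_mul,
      Complex.mul_cpow_ofReal_nonneg k0.le (abs_nonneg _), Complex.cpow_neg (κ : ℂ)]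
    field_simp
  exact ⟨W, w1, w2, by rw [w3, z3, gD]; push_cast; rfl⟩

end Pool.Agent.StarkD
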