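import Pool.Agent.Lib.MP_ca56d1_nt.D.St

/-! The ray units that are positive at one place form an infinite cyclic group. -/

namespace Pool.Agent.StarkD

open NumberField IsDedekindDomain Pool.Agent.Stark Pool.Agent.Stark.AR Pool.Agent.RM StarkStmt
open scoped IsMulCommutative Classical nonZeroDivisors

variable {K : Type} [Field K] [NumberField K] {σ σ' : K →+* ℝ}

namespace UGenAux

theorem cx_ne (h : RQ σ σ') : Complex.ofRealHom.comp σ ≠ Complex.ofRealHom.comp σ' := fun e =>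
  h.ne (RingHom.ext fun x => Complex.ofReal_injective (RingHom.congr_fun e x))

theorem univ_eq (h : RQ σ σ') : (Finset.univ : Finset (K →+* ℂ)) =
    {Complex.ofRealHom.comp σ, Complex.ofRealHom.comp σ'} :=
  (Finset.eq_of_subset_of_card_le (Finset.subset_univ _) (by
    rw [Finset.card_pair (cx_ne h), Finset.card_univ, Embeddings.card, h.two])).symm

theorem norm_eq (h : RQ σ σ') (x : K) : ((Algebra.norm ℚ x : ℚ) : ℝ) = σ x * σ' x := by
  have h1 := Algebra.norm_eq_prod_embeddings ℚ ℂ x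
  rw [← Fintype.prod_equiv (RingHom.equivRatAlgHom K ℂ) (fun φ => φ x) (fun φ => φ x)
    fun _ => rfl, univ_eq h, Finset.prod_pair (cx_ne h)] at h1
  apply Complex.ofReal_injective
  simpa using h1

theorem abs_norm (h : RQ σ σ') {u : K} (hu : IsU u) : |σ u * σ' u| = 1 := by
  obtain ⟨v, rfl⟩ := isU_iff.1 hu
  rw [← norm_eq h]
  exact_mod_cast Units.norm K v

theorem rank_eq (h : RQ σ σ') : Units.rank K = 1 := by
  have : IsTotallyReal K := ⟨fun w => by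
    have h1 := Finset.mem_univ w.embedding
    rw [univ_eq h, Finset.mem_insert, Finset.mem_singleton] at h1
    rw [InfinitePlace.isReal_iff, ComplexEmbedding.isReal_iff]
    rcases h1 with h1 | h1 <;> rw [h1] <;> ext x <;> simp⟩
  rw [Units.rank, InfinitePlace.card_eq_nrRealPlaces_add_nrComplexPlaces,
    IsTotallyReal.nrComplexPlaces_eq_zero, ← IsTotallyReal.finrank, h.two]

/-- the fundamental unit -/
theorem fund (h : RQ σ σ') : ∃ ε : K, IsU ε ∧ (∀ n : ℕ, n ≠ 0 → ε ^ n ≠ 1) ∧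
    ∀ u, IsU u → ∃ k : ℤ, |σ' u| = |σ' ε| ^ k := by
  have : Unique (Fin (Units.rank K)) := rank_eq h ▸ inferInstance
  refine ⟨(Units.fundSystem K default : 𝓞 K), isU_iff.2 ⟨_, rfl⟩, fun n hn e => ?_, fun u hu => ?_⟩
  · have e1 : Units.fundSystem K default ^ n = 1 :=
      Units.ext (RingOfIntegers.ext (by simpa using e))
    have e2 := (Units.exist_unique_eq_mul_prod K 1).unique (y₁ := (1, fun _ => 0))
      (y₂ := (1, fun _ => n)) (by simp) (by simp [e1])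
    have e3 : (0 : ℤ) = n := congrFun (congrArg Prod.snd e2) default
    omega
  · obtain ⟨v, rfl⟩ := isU_iff.1 hu
    obtain ⟨⟨ζ, e⟩, h1, -⟩ := Units.exist_unique_eq_mul_prod K v
    have h2 := (Units.mem_torsion K).1 ζ.2 (InfinitePlace.mk (Complex.ofRealHom.comp σ'))
    rw [InfinitePlace.apply] at h2
    refine ⟨e default, ?_⟩
    rw [h1, Fintype.prod_unique]
    simp only [Units.val_mul, map_mul, abs_mul, Units.coe_zpow, map_zpow₀, abs_zpow]
    rw [show |σ' ((ζ.1 : 𝓞 K) : K)| = 1 by simpa using h2, one_mul]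

theorem ru_mul {S : Finset (Pr K)} {N : ℕ} {u v : K} (hu : RU S N u) (hv : RU S N v) :
    RU S N (u * v) := by
  obtain ⟨a, rfl⟩ := isU_iff.1 hu.1
  obtain ⟨b, rfl⟩ := isU_iff.1 hv.1
  exact ⟨isU_iff.2 ⟨a * b, by simp⟩, hu.2.mul hv.2⟩

theorem ru_inv {S : Finset (Pr K)} {N : ℕ} {u : K} (hu : RU S N u) : RU S N u⁻¹ := by
  obtain ⟨a, rfl⟩ := isU_iff.1 hu.1
  exact ⟨isU_iff.2 ⟨a⁻¹, by simp⟩, hu.2.inv⟩

theorem cyc (h : RQ σ σ') (S : Finset (Pr K)) (N : ℕ) : ∃ η, RU S N η ∧ 0 < σ' η ∧ σ' η ≠ 1 ∧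
    ∀ u, RU S N u → 0 < σ' u → ∃ k : ℤ, u = η ^ k := by
  obtain ⟨ε, h1, h2, h3⟩ := fund h
  have h0 : |σ' ε| ≠ 0 := by simpa using h1.1
  let A : AddSubgroup ℤ :=
    { carrier := {k | ∃ u, RU S N u ∧ σ' u = |σ' ε| ^ k}
      zero_mem' := ⟨1, ⟨isU_iff.2 ⟨1, by simp⟩, Ray.one S N⟩, by simp⟩
      add_mem' := by
        rintro a b ⟨u, hu, e⟩ ⟨v, hv, e'⟩
        exact ⟨u * v, ru_mul hu hv, by rw [map_mul, e, e', zpow_add₀ h0]⟩
      neg_mem' := by
        rintro a ⟨u, hu, e⟩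
        exact ⟨u⁻¹, ru_inv hu, by rw [map_inv₀, e, zpow_neg]⟩ }
  obtain ⟨a, ha⟩ := Int.subgroup_cyclic A
  obtain ⟨η, h4, h5⟩ : a ∈ A := ha ▸ AddSubgroup.subset_closure rfl
  have h6 : ∀ u, RU S N u → 0 < σ' u → ∃ k : ℤ, u = η ^ k := fun u hu hp => by
    obtain ⟨k, hk⟩ := h3 u hu.1
    rw [abs_of_pos hp] at hk
    have h7 : k ∈ A := ⟨u, hu, hk⟩
    rw [ha, AddSubgroup.mem_closure_singleton] at h7
    obtain ⟨m, rfl⟩ := h7
    refine ⟨m, σ'.injective ?_⟩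
    rw [hk, map_zpow₀, h5, ← zpow_mul, smul_eq_mul, mul_comm]
  refine ⟨η, h4, h5 ▸ by positivity, fun e => ?_, h6⟩
  obtain ⟨k, hk, h7⟩ := (rayT K).pow S N ε h1.1 fun q _ => h1.2 q
  obtain ⟨v, hv⟩ := isU_iff.1 h1
  have h8 : RU S N (ε ^ k) := ⟨isU_iff.2 ⟨v ^ k, by simp [hv]⟩, h7⟩
  obtain ⟨m, hm⟩ := h6 _ (ru_mul h8 h8) (by
    rw [map_mul]
    exact mul_self_pos.2 (by simpa using fun h => absurd h h1.1))
  rw [σ'.injective (e.trans (map_one σ').symm), one_zpow, ← pow_add] at hm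
  exact h2 _ (by omega) hm

end UGenAux

theorem unitS (h : RQ σ σ') : UnitSt σ σ' := by
  intro S N
  have key : ∀ η, RU S N η → 0 < σ' η → σ' η < 1 →
      (∀ u, RU S N u → 0 < σ' u → ∃ k : ℤ, u = η ^ k) → UGen σ σ' S N η := by
    intro η h1 h2 h3 h4
    have h5 := UGenAux.abs_norm h h1.1
    refine ⟨h1, h2, ?_, h5, h4⟩
    rw [abs_mul, abs_of_pos h2] at h5
    nlinarith [abs_nonneg (σ η)]
  obtain ⟨η, h1, h2, h3, h4⟩ := UGenAux.cyc h S N
  rcases h3.lt_or_gt with h5 | h5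
  · exact ⟨η, key η h1 h2 h5 h4⟩
  · refine ⟨η⁻¹, key _ (UGenAux.ru_inv h1) (by rwa [map_inv₀, inv_pos])
      (by rw [map_inv₀]; exact inv_lt_one_of_one_lt₀ h5) fun u hu hp => ?_⟩
    obtain ⟨k, rfl⟩ := h4 u hu hp
    exact ⟨-k, by simp⟩

end Pool.Agent.StarkD
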