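import Pool.Agent.Lib.MP_ca56d1_nt.C.St
import Pool.Agent.Lib.MP_ca56d1_nt.AR.All
import Pool.Agent.Lib.MP_ca56d1_nt.AR.Tate
import Pool.Agent.Lib.MP_ca56d1_nt.D.Cover

/-! Definitions for the reciprocity law of real multiplication values. -/

namespace Pool.Agent.StarkD

open NumberField IsDedekindDomain Pool.Agent.Stark Pool.Agent.Stark.AR Pool.Agent.RM StarkStmt
open scoped IsMulCommutative Classical nonZeroDivisors

variable {K : Type} [Field K] [NumberField K]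

/-- The divisor of an ideal. -/
noncomputable def idv (I : Ideal (𝓞 K)) : Dv K :=
  Finsupp.ofSupportFinite (fun q => FractionalIdeal.count K q (I : FractionalIdeal (𝓞 K)⁰ K))
    (FractionalIdeal.finite_factors _)

theorem idv_apply (I : Ideal (𝓞 K)) (q : Pr K) :
    idv I q = FractionalIdeal.count K q (I : FractionalIdeal (𝓞 K)⁰ K) := rfl

/-- The divisor of a prime. -/
noncomputable abbrev pd (q : Pr K) : Dv K := Finsupp.single q 1

/-- Divisors that agree outside `S` with the divisor of a ray element positive at `σ'`. -/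
def rel (σ' : K →+* ℝ) (S : Finset (Pr K)) (N : ℕ) : AddSubgroup (Dv K) where
  carrier := {D | ∃ a : K, Ray S N a ∧ 0 < σ' a ∧ ∀ q ∉ S, D q = og q a}
  zero_mem' := ⟨1, Ray.one S N, by simp, fun q _ => by simp [og]⟩
  add_mem' := by
    rintro D D' ⟨a, h1, h2, h3⟩ ⟨b, h4, h5, h6⟩
    refine ⟨a * b, h1.mul h4, by rw [map_mul]; exact mul_pos h2 h5, fun q hq => ?_⟩
    rw [Finsupp.add_apply, h3 q hq, h6 q hq, og, og, og, ord_mul h1.1 h4.1]
  neg_mem' := by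
    rintro D ⟨a, h1, h2, h3⟩
    refine ⟨a⁻¹, h1.inv, by rw [map_inv₀]; exact inv_pos.2 h2, fun q hq => ?_⟩
    rw [Finsupp.neg_apply, h3 q hq, og, og, ord_inv]

/-- The ray class group with a sign condition at `σ'` only. -/
abbrev Cl (σ' : K →+* ℝ) (S : Finset (Pr K)) (N : ℕ) : Type := Dv K ⧸ rel σ' S N

/-- The class of a divisor. -/
noncomputable def cls (σ' : K →+* ℝ) (S : Finset (Pr K)) (N : ℕ) : Dv K →+ Cl σ' S N :=
  QuotientAddGroup.mk' _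

theorem cls_eq {σ' : K →+* ℝ} {S : Finset (Pr K)} {N : ℕ} {D D' : Dv K} :
    cls σ' S N D = cls σ' S N D' ↔
      ∃ a : K, Ray S N a ∧ 0 < σ' a ∧ ∀ q ∉ S, D' q = D q + og q a := by
  refine QuotientAddGroup.eq.trans (exists_congr fun a => and_congr_right fun _ =>
    and_congr_right fun _ => forall₂_congr fun q _ => ?_)
  rw [Finsupp.add_apply, Finsupp.neg_apply]
  omega

theorem cls_out {σ' : K →+* ℝ} {S : Finset (Pr K)} {N : ℕ} (c : Cl σ' S N) :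
    cls σ' S N c.out = c := Quotient.out_eq c

/-- `a` is nonzero and prime to `S`. -/
def PS (S : Finset (Pr K)) (a : K) : Prop := a ≠ 0 ∧ ∀ q ∈ S, og q a = 0

theorem PS.of_ray {S : Finset (Pr K)} {N : ℕ} {a : K} (h : Ray S N a) : PS S a :=
  ⟨h.1, fun _ hq => h.og_eq hq⟩

theorem PS.mul {S : Finset (Pr K)} {a b : K} (ha : PS S a) (hb : PS S b) : PS S (a * b) :=
  ⟨mul_ne_zero ha.1 hb.1, fun q hq => by
    have h1 := ha.2 q hq
    have h2 := hb.2 q hq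
    rw [og] at *
    rw [ord_mul ha.1 hb.1, h1, h2, add_zero]⟩

theorem PS.inv {S : Finset (Pr K)} {a : K} (ha : PS S a) : PS S a⁻¹ :=
  ⟨inv_ne_zero ha.1, fun q hq => by
    have h1 := ha.2 q hq
    rw [og] at *
    rw [ord_inv, h1, neg_zero]⟩

/-- The classes of principal divisors prime to `S`. -/
def PP (σ' : K →+* ℝ) (S : Finset (Pr K)) (N : ℕ) : AddSubgroup (Cl σ' S N) where
  carrier := {c | ∃ a : K, PS S a ∧ cls σ' S N (dv a) = c}
  zero_mem' := ⟨1, PS.of_ray (Ray.one S N), by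
    rw [show dv (1 : K) = 0 from Finsupp.ext fun q => by simp [og], map_zero]⟩
  add_mem' := by
    rintro _ _ ⟨a, h1, rfl⟩ ⟨b, h2, rfl⟩
    exact ⟨a * b, h1.mul h2, by rw [dv_mul h1.1 h2.1, map_add]⟩
  neg_mem' := by
    rintro _ ⟨a, h1, rfl⟩
    exact ⟨a⁻¹, h1.inv, by rw [dv_inv, map_neg]⟩

/-- The prime number `p` splits as `q q'`. -/
def Spl (p : ℕ) (q q' : Pr K) : Prop := p.Prime ∧ q ≠ q' ∧ dv (p : K) = pd q + pd q'

theorem Spl.symm {p : ℕ} {q q' : Pr K} (h : Spl p q q') : Spl p q' q :=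
  ⟨h.1, h.2.1.symm, h.2.2.trans (add_comm _ _)⟩

/-- The lattice `𝔣 D⁻¹`, where `𝔣` is the product of the `q ^ (N + 1)` for `q` in `S`. -/
noncomputable def lat (S : Finset (Pr K)) (N : ℕ) (D : Dv K) : Submodule ℤ K :=
  AddSubgroup.toIntSubmodule
    { carrier := {y | (∀ q ∈ S, y ∈ pw (q.valuation K) ((N : ℤ) + 1)) ∧
        ∀ q ∉ S, y ∈ pw (q.valuation K) (-D q)}
      zero_mem' := ⟨fun _ _ => zero_mem _, fun _ _ => zero_mem _⟩
      add_mem' := fun ha hb => ⟨fun q hq => add_mem (ha.1 q hq) (hb.1 q hq),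
        fun q hq => add_mem (ha.2 q hq) (hb.2 q hq)⟩
      neg_mem' := fun ha => ⟨fun q hq => neg_mem (ha.1 q hq), fun q hq => neg_mem (ha.2 q hq)⟩ }

theorem mem_lat {S : Finset (Pr K)} {N : ℕ} {D : Dv K} {y : K} :
    y ∈ lat S N D ↔ (∀ q ∈ S, y ∈ pw (q.valuation K) ((N : ℤ) + 1)) ∧
      ∀ q ∉ S, y ∈ pw (q.valuation K) (-D q) := Iff.rfl

/-- The elements of `D⁻¹` that are congruent to one modulo `𝔣`. -/
def Lam (S : Finset (Pr K)) (N : ℕ) (D : Dv K) : Set K :=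
  {y | (∀ q ∈ S, y - 1 ∈ pw (q.valuation K) ((N : ℤ) + 1)) ∧
    ∀ q ∉ S, y ∈ pw (q.valuation K) (-D q)}

/-- `u` is a unit congruent to one modulo `𝔣`. -/
def RU (S : Finset (Pr K)) (N : ℕ) (u : K) : Prop := IsU u ∧ Ray S N u

/-- `η` generates the units congruent to one modulo `𝔣` and positive at `σ'`. -/
structure UGen (σ σ' : K →+* ℝ) (S : Finset (Pr K)) (N : ℕ) (η : K) : Prop where
  ru : RU S N η
  pos : 0 < σ' η
  one_lt : 1 < |σ η|
  norm : |σ η * σ' η| = 1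
  gen : ∀ u, RU S N u → 0 < σ' u → ∃ k : ℤ, u = η ^ k

/-- The logarithm of the value attached to a divisor. -/
noncomputable def gD (σ σ' : K →+* ℝ) (ε : K) (S : Finset (Pr K)) (N : ℕ) (D : Dv K) : ℂ :=
  LX σ σ' ε (Lam S N D)

/-- The value attached to a divisor. -/
noncomputable def FD (σ σ' : K →+* ℝ) (ε : K) (S : Finset (Pr K)) (N : ℕ) (D : Dv K) : ℂ :=
  Complex.exp (gD σ σ' ε S N D)

/-- Congruence modulo the maximal ideal of `O`. -/
def Cg (O : ValuationSubring ℂ) (x y : ℂ) : Prop := O.valuation (x - y) < 1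

/-- `s, t` are eigenvectors of `ε` that span `p⁻¹ L / L`, with eigenvalues `h, h'`. -/
structure Eig (ε : K) (p : ℕ) (L : Submodule ℤ K) (s t : K) (h h' : ℤ) : Prop where
  ps : (p : K) * s ∈ L
  pt : (p : K) * t ∈ L
  ind : ∀ a b : ℤ, (a : K) * s + b * t ∈ L → (p : ℤ) ∣ a ∧ (p : ℤ) ∣ b
  es : ε * s - h * s ∈ L
  et : ε * t - h' * t ∈ L
  mul : (p : ℤ) ∣ h * h' - 1
  sq : ¬ (p : ℤ) ∣ h ^ 2 - 1

/-- The Kronecker congruence along `q` holds on the wide class of `D`. -/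
def TyF (σ σ' : K →+* ℝ) (ε : K) (S : Finset (Pr K)) (N : ℕ) (O : ValuationSubring ℂ) (p : ℕ)
    (q : Pr K) (D : Dv K) : Prop :=
  ∀ a : K, PS S a → Cg O (FD σ σ' ε S N (D + dv a + pd q)) (FD σ σ' ε S N (D + dv a) ^ p)

/-- The zeta function of a ray class. -/
noncomputable def czeta {σ' : K →+* ℝ} {S : Finset (Pr K)} {N : ℕ} (c : Cl σ' S N) (s : ℂ) : ℂ :=
  ∑' I : {I : Ideal (𝓞 K) // PrimeTo S I ∧ cls σ' S N (idv I) = c},
    (Ideal.absNorm I.1 : ℂ) ^ (-s)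

/-- The Kronecker congruence along `q` for the square of a class function. -/
def Ty {σ' : K →+* ℝ} {S : Finset (Pr K)} {N : ℕ} (V : Cl σ' S N → ℝ) (O : ValuationSubring ℂ)
    (p : ℕ) (q : Pr K) (c : Cl σ' S N) : Prop :=
  ∀ l ∈ PP σ' S N,
    Cg O ((V (c + l + cls σ' S N (pd q)) : ℂ) ^ 2) (((V (c + l) : ℂ) ^ 2) ^ p)

/-- The congruences satisfied by a class function. -/
structure Kron {σ' : K →+* ℝ} {S : Finset (Pr K)} {N : ℕ} (V : Cl σ' S N → ℝ) (η : K)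
    (J B : ℕ) : Prop where
  loc : ∀ p q q', B < p → Spl p q q' → ∀ O : ValuationSubring ℂ, O.valuation p < 1 →
    ∀ c, Ty V O p q c ∨ Ty V O p q' c
  unif : ∀ p q q', B < p → Spl p q q' → ∀ O : ValuationSubring ℂ, O.valuation p < 1 →
    (∀ c, Cg O ((V (c + cls σ' S N (pd q)) : ℂ) ^ (2 * J)) (((V c : ℂ) ^ (2 * J)) ^ p)) ∨
    (∀ c, Cg O ((V (c + cls σ' S N (pd q')) : ℂ) ^ (2 * J)) (((V c : ℂ) ^ (2 * J)) ^ p))
  root : ∀ p q q', B < p → Spl p q q' → η ^ ((p - 1) / 2) + 1 ∈ pw (q.valuation K) 1 →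
    ∀ c, ∃ (ζ : ℂ) (n : ℕ), n ≠ 0 ∧ ζ ^ n = 1 ∧ ∀ O : ValuationSubring ℂ, O.valuation p < 1 →
      Cg O ((V c : ℂ) ^ p) (ζ * V (c + cls σ' S N (pd q))) ∨ Ty V O p q' c

/-- The properties of the square roots of the Stark numbers of ray classes. -/
structure Sys (σ : K →+* ℝ) {σ' : K →+* ℝ} {S : Finset (Pr K)} {N : ℕ} (V : Cl σ' S N → ℝ) :
    Prop where
  pos : ∀ c, 0 < V c
  neg : ∀ a c, Ray S N a → σ' a < 0 → V (c + cls σ' S N (dv a)) = (V c)⁻¹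
  int : ∀ c, IsIntegral ℤ (V c : ℂ) ∧ IsIntegral ℤ (V c : ℂ)⁻¹
  zeta : ∀ c, ∃ Z, IsCont (czeta c) Z ∧ Z 0 = 0 ∧ deriv Z 0 = Real.log (V c)
  kron : ∃ (η : K) (J B : ℕ), IsU η ∧ σ η < 0 ∧ J ≠ 0 ∧ Kron V η J B

section Ext

variable (H : Type) [Field H] [NumberField H] [Algebra K H]

/-- The Artin map kills the ray modulo `𝔣` and `σ'`. -/
def Rec [IsAbelianGalois K H] (σ' : K →+* ℝ) (S : Finset (Pr K)) (N : ℕ) : Prop :=
  ∀ a : K, Ray S N a → 0 < σ' a → ev (fr K H) (dv a) = 1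

/-- The Artin symbol of the part of a divisor prime to `S`. -/
noncomputable def artD [IsAbelianGalois K H] (S : Finset (Pr K)) (D : Dv K) : H ≃ₐ[K] H :=
  ev (fun q => if q ∈ S then 1 else fr K H q) D

/-- The Artin symbol of a ray class. -/
noncomputable def art [IsAbelianGalois K H] {σ' : K →+* ℝ} {S : Finset (Pr K)} {N : ℕ}
    (c : Cl σ' S N) : H ≃ₐ[K] H := artD H S c.out

/-- The sum of the logarithms over the classes with a given Artin symbol. -/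
noncomputable def lsum [IsAbelianGalois K H] {σ' : K →+* ℝ} {S : Finset (Pr K)} {N : ℕ}
    (V : Cl σ' S N → ℝ) (g : H ≃ₐ[K] H) : ℝ := ∑ᶠ c ∈ {c | art H c = g}, Real.log (V c)

variable {H}

/-- `τ` is the complex conjugation at the places over `σ'`. -/
def IsCj (σ' : K →+* ℝ) (τ : H ≃ₐ[K] H) : Prop :=
  ∀ ψ : H →+* ℂ, (∀ x : K, ψ (algebraMap K H x) = σ' x) →
    ∀ y, ψ (τ y) = (starRingEnd ℂ) (ψ y)

variable {M : Type} [Field M] [NumberField M] [Algebra K M] [Algebra H M]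

/-- `γ` is a Frobenius element at a prime over `q`, where `p = q q'`. -/
def Frb (σ : K →+* ℝ) (ι : M →+* ℂ) (r₁ r₂ : (M ≃ₐ[K] M) →* (H ≃ₐ[K] H)) (p : ℕ) (q q' : Pr K)
    (γ : M ≃ₐ[K] M) : Prop :=
  r₁ γ = fr K H q ∧ r₂ γ = fr K H q' ∧ ∀ δ : M ≃ₐ[K] M, ∃ O : ValuationSubring ℂ,
    O.valuation p < 1 ∧ (∀ x : 𝓞 K, O.valuation (σ x : ℝ) < 1 → x ∈ q.asIdeal) ∧
    ∀ y : M, IsIntegral ℤ y → Cg O (ι ((δ * γ * δ⁻¹) y)) (ι y ^ p)

/-- A large Galois extension inside the complex numbers, with its Frobenius elements. -/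
structure Frame (σ σ' : K →+* ℝ) (φ : H →+* ℝ) (ι : M →+* ℂ)
    (r₁ r₂ : (M ≃ₐ[K] M) →* (H ≃ₐ[K] H)) (ρ : M ≃ₐ[K] M) : Prop where
  embK : ∀ x : K, ι (algebraMap K M x) = σ x
  embH : ∀ y : H, ι (algebraMap H M y) = φ y
  res : ∀ (γ : M ≃ₐ[K] M) (y : H), γ (algebraMap H M y) = algebraMap H M (r₁ γ y)
  surj : Function.Surjective r₁
  fix : ∀ y : M, (∀ γ : M ≃ₐ[K] M, r₁ γ = 1 → γ y = y) → ∃ x : H, algebraMap H M x = y
  rho : ∀ y : M, ι (ρ y) = (starRingEnd ℂ) (ι y)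
  tau : IsCj σ' (r₂ ρ)
  gen : ∀ (B : ℕ) (γ : M ≃ₐ[K] M), ∃ p q q' γ', B < p ∧ Spl p q q' ∧ Frb σ ι r₁ r₂ p q q' γ' ∧
    Subgroup.zpowers γ' = Subgroup.zpowers γ
  all : ∃ B : ℕ, ∀ p q q', B < p → Spl p q q' → ∃ γ, Frb σ ι r₁ r₂ p q q' γ

end Ext

end Pool.Agent.StarkD
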