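import Pool.Agent.Lib.MP_ca56d1_nt.D.St

/-! The group theoretic core of the reciprocity law. -/

namespace Pool.Agent.StarkD

namespace AbsAux

/-- The complement of two subgroups missing a common element generates index at most two. -/
theorem index_two {Γ : Type*} [Group Γ] {B Y Z : Subgroup Γ} {ρ : Γ} (hB : ρ ∉ B) (hY : ρ ∉ Y)
    (h : ∀ g, g ∉ B → g ∉ Y → g ∈ Z) {a b : Γ} (ha : a ∉ Z) (hb : b ∉ Z) : a⁻¹ * b ∈ Z := by
  have hρ : ρ ∈ Z := h ρ hB hY
  have k1 : ∀ g, g ∈ B → g ∈ Y → g ∈ Z := fun g h1 h2 =>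
    (Z.mul_mem_cancel_right hρ).1 (h (g * ρ) (fun h3 => hB ((B.mul_mem_cancel_left h1).1 h3))
      (fun h3 => hY ((Y.mul_mem_cancel_left h2).1 h3)))
  have k2 : ∀ g, g ∉ Z → ∃ z ∈ Z, g * z ∈ Y ∧ ρ * (g * z) ∈ B := by
    intro g hg
    have k3 : ∀ z ∈ Z, g * z ∈ Y → ρ * (g * z) ∈ B := fun z hz h1 => by
      by_contra h2
      have h3 := h _ h2 (fun h4 => hY ((Y.mul_mem_cancel_right h1).1 h4))
      exact hg ((Z.mul_mem_cancel_right hz).1 ((Z.mul_mem_cancel_left hρ).1 h3))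
    by_cases h1 : g ∈ Y
    · exact ⟨1, Z.one_mem, by simpa using h1, k3 1 Z.one_mem (by simpa using h1)⟩
    · have h2 : g ∈ B := by
        by_contra h2
        exact hg (h g h2 h1)
      have h3 : g * ρ ∈ Y := by
        by_contra h3
        exact hg ((Z.mul_mem_cancel_right hρ).1
          (h _ (fun h4 => hB ((B.mul_mem_cancel_left h2).1 h4)) h3))
      exact ⟨ρ, hρ, h3, k3 ρ hρ h3⟩
  obtain ⟨z, hz, h1, h2⟩ := k2 a ha
  obtain ⟨z', hz', h3, h4⟩ := k2 b hb
  have h5 : (a * z)⁻¹ * (b * z') ∈ B := by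
    convert B.mul_mem (B.inv_mem h2) h4 using 1
    group
  have h6 := k1 _ h5 (Y.mul_mem (Y.inv_mem h1) h3)
  convert Z.mul_mem (Z.mul_mem hz h6) (Z.inv_mem hz') using 1
  group

theorem cover_two {Γ : Type*} [Group Γ] {A B : Subgroup Γ} (h : ∀ g, g ∈ A ∨ g ∈ B) {ρ : Γ}
    (hρ : ρ ∉ B) (g : Γ) : g ∈ A := by
  have hA : ρ ∈ A := (h ρ).resolve_right hρ
  rcases h g with h1 | h1
  · exact h1
  · rcases h (g * ρ) with h2 | h2
    · exact (A.mul_mem_cancel_right hA).1 h2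
    · exact absurd ((B.mul_mem_cancel_left h1).1 h2) hρ

variable {Γ C G M : Type*} [Group Γ] [AddCommGroup C] [CommGroup G]

/-- The elements acting on a class function by a shift with prescribed symbol. -/
def shifts [MulAction Γ M] (w : C → M) (ar : C → G) (har : ∀ a b, ar (a + b) = ar a * ar b)
    (r : Γ →* G) : Subgroup Γ where
  carrier := {g | ∃ a, ar a = r g ∧ ∀ c, g • w c = w (c + a)}
  one_mem' := ⟨0, by
    have := har 0 0
    rw [add_zero] at this
    rw [map_one]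
    exact left_eq_mul.1 this, fun c => by rw [one_smul, add_zero]⟩
  mul_mem' := by
    rintro g h ⟨a, h1, h2⟩ ⟨b, h3, h4⟩
    refine ⟨a + b, by rw [har, h1, h3, map_mul], fun c => ?_⟩
    rw [mul_smul, h4, h2, add_assoc, add_comm b a]
  inv_mem' := by
    rintro g ⟨a, h1, h2⟩
    refine ⟨-a, ?_, fun c => ?_⟩
    · have h0 : ar 0 = 1 := by
        have := har 0 0
        rw [add_zero] at this
        exact left_eq_mul.1 this
      have := har (-a) a
      rw [neg_add_cancel, h0, h1] at this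
      rw [map_inv]
      exact eq_inv_of_mul_eq_one_left this.symm
    · rw [inv_smul_eq_iff, h2, neg_add_cancel_right]

/-- The elements acting centrally on a stable set. -/
def cent [MulAction Γ M] (U : Set M) (hU : ∀ (g : Γ), ∀ y ∈ U, g • y ∈ U) : Subgroup Γ where
  carrier := {g | ∀ (δ : Γ), ∀ y ∈ U, δ • g • y = g • δ • y}
  one_mem' := fun δ y _ => by rw [one_smul, one_smul]
  mul_mem' := fun {g h} hg hh δ y hy => by
    rw [mul_smul, mul_smul, hg δ _ (hU h y hy), hh δ y hy]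
  inv_mem' := fun {g} hg δ y hy => by
    rw [eq_inv_smul_iff, ← hg δ _ (hU g⁻¹ y hy), smul_inv_smul]

/-- The stabiliser of a set under translations. -/
def stab (X : Set C) : AddSubgroup C where
  carrier := {a | ∀ c, c + a ∈ X ↔ c ∈ X}
  zero_mem' := fun c => by rw [add_zero]
  add_mem' := fun {a b} ha hb c => by rw [← add_assoc, hb, ha]
  neg_mem' := fun {a} ha c => by rw [← ha, neg_add_cancel_right]

/-- An identity on one coset of `P` spreads to all classes. -/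
theorem spread [MulAction Γ M] (w : C → M) (P : AddSubgroup C) (s s' c₀ : C)
    (h : ∀ T : AddSubgroup C, P ≤ T →
      (∀ (g : Γ) a, (∀ c, g • w c = w (c + a)) → a ∈ T) → T = ⊤)
    (h0 : ∀ l ∈ P, w (c₀ + l + s) = w (c₀ + l + s')) (c : C) : w (c + s) = w (c + s') := by
  have hT := h (stab {c | ∀ l ∈ P, w (c + l + s) = w (c + l + s')}) ?_ ?_
  · have h1 : c - c₀ ∈ stab {c | ∀ l ∈ P, w (c + l + s) = w (c + l + s')} := by
      rw [hT]; trivial
    have h2 := (h1 c₀).2 h0 0 P.zero_mem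
    simpa using h2
  · intro p hp c
    constructor
    · intro hc l hl
      have := hc (l - p) (P.sub_mem hl hp)
      rwa [show c + p + (l - p) = c + l by abel] at this
    · intro hc l hl
      have := hc (p + l) (P.add_mem hp hl)
      rwa [← add_assoc] at this
  · intro g a hg c
    refine forall₂_congr fun l _ => ?_
    rw [show c + a + l + s = c + l + s + a by abel, show c + a + l + s' = c + l + s' + a by abel,
      ← hg, ← hg, smul_left_cancel_iff]

end AbsAux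

open AbsAux in
theorem absS : AbsSt := by
  intro Γ C G M ι _ _ _ _ _ u ar r₁ r₂ ρ Y P Fb q q' har hρY hρu hgen hFb hcj hT hty hloc
  set A := shifts (fun c => u c ^ 2) ar har r₁ with hA
  set B := shifts (fun c => u c ^ 2) ar har r₂ with hB
  have zp : ∀ (H : Subgroup Γ) {φ γ : Γ}, Subgroup.zpowers φ = Subgroup.zpowers γ → φ ∈ H →
      γ ∈ H := fun H φ γ h1 h2 =>
    (Subgroup.zpowers_le.2 h2) (h1 ▸ Subgroup.mem_zpowers γ)
  by_cases hρB : ρ ∈ B
  · obtain ⟨a, h1, h2⟩ := hρB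
    refine Or.inl ⟨a, h1, fun c => ?_⟩
    have h3 := h2 c
    simp only at h3
    rw [← h3, smul_pow', hρu]
  have hAB : ∀ g, g ∈ A ∨ g ∈ B := fun g => by
    obtain ⟨φ, i, h1, h2⟩ := hgen g
    rcases hty φ i h1 with h3 | h3
    · exact Or.inl (zp A h2 ⟨q i, (hFb φ i h1).1.symm, h3⟩)
    · exact Or.inr (zp B h2 ⟨q' i, (hFb φ i h1).2.1.symm, h3⟩)
  have hall : ∀ g, g ∈ A := cover_two hAB hρB
  refine Or.inr ⟨fun γ => hall γ, ?_⟩
  -- the stable set
  set U : Set M := {y | ∃ c, y ^ 2 = u c ^ 2} with hUdef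
  have hU : ∀ (g : Γ), ∀ y ∈ U, g • y ∈ U := by
    rintro g y ⟨c, hc⟩
    obtain ⟨a, -, h2⟩ := hall g
    exact ⟨c + a, by rw [← smul_pow', hc]; exact h2 c⟩
  have hext : ∀ g h : Γ, (∀ c, g • u c = h • u c) → ∀ y ∈ U, g • y = h • y := by
    rintro g h hgh y ⟨c, hc⟩
    rcases sq_eq_sq_iff_eq_or_eq_neg.1 hc with rfl | rfl
    · exact hgh c
    · rw [smul_neg, smul_neg, hgh]
  -- `B` is normal
  have hnorm : ∀ g δ : Γ, δ * g * δ⁻¹ ∈ B → g ∈ B := by
    rintro g δ ⟨a, h1, h2⟩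
    obtain ⟨d, -, h3⟩ := hall δ
    refine ⟨a, by rw [h1, map_mul, map_mul, map_inv, mul_inv_cancel_comm], fun c => ?_⟩
    have h4 := h2 (c + d)
    simp only at h3 h4 ⊢
    rw [← h3, mul_smul, inv_smul_smul, mul_smul, add_right_comm, ← h3] at h4
    exact smul_left_cancel δ h4
  -- Frobenius elements outside `B` never have the second type
  have hnot : ∀ φ i, Fb φ i → φ ∉ B → ∀ c₀,
      ¬ ∀ l ∈ P, φ • u (c₀ + l) ^ 2 = u (c₀ + l + q' i) ^ 2 := by
    intro φ i h1 h2 c₀ h3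
    have h4 : ∀ c, φ • u c ^ 2 = u (c + q i) ^ 2 := (hty φ i h1).resolve_right fun h5 =>
      h2 ⟨q' i, (hFb φ i h1).2.1.symm, h5⟩
    refine h2 ⟨q' i, (hFb φ i h1).2.1.symm, fun c => (h4 c).trans ?_⟩
    refine spread (Γ := Γ) (fun c => u c ^ 2) P (q i) (q' i) c₀ (fun T hP hs => hT T hP ?_)
      (fun l hl => (h4 _).symm.trans (h3 l hl)) c
    intro ψ j h5
    rcases hty ψ j h5 with h6 | h6
    · exact hs ψ _ h6
    · have := T.sub_mem (hP (hFb ψ j h5).2.2) (hs ψ _ h6)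
      rwa [add_sub_cancel_right] at this
  have hZ : ∀ g, g ∉ B → g ∉ Y → g ∈ cent U hU := by
    intro g h1 h2
    obtain ⟨φ, i, h3, h4⟩ := hgen g
    have h5 : φ ∉ B := fun h => h1 (zp B h4 h)
    have h6 : φ ∉ Y := fun h => h2 (zp Y h4 h)
    refine zp _ h4 fun δ y hy => ?_
    have h7 := hext φ (δ * φ * δ⁻¹) (fun c => by
      rcases hloc φ _ i h3 (hcj φ i δ h3) h6 c with h | h | h
      · exact h
      · exact absurd h (hnot φ i h3 h5 c)
      · exact absurd h (hnot _ i (hcj φ i δ h3) (fun h' => h5 (hnorm φ δ h')) c)) _ (hU δ y hy)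
    rw [h7, mul_smul, inv_smul_smul, mul_smul]
  intro γ δ c
  have hu : u c ∈ U := ⟨c, rfl⟩
  by_cases h1 : γ ∈ cent U hU
  · exact (h1 δ _ hu).symm
  by_cases h2 : δ ∈ cent U hU
  · exact h2 γ _ hu
  have h3 := index_two hρB hρY hZ h1 h2 γ _ hu
  rw [mul_smul, mul_smul, smul_inv_smul, eq_inv_smul_iff] at h3
  exact h3

end Pool.Agent.StarkD
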