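import Pool.Agent.Lib.MP_ca56d1_nt.D.Frame

/-! The action of the Galois group on the values. -/

set_option linter.unusedSectionVars false

namespace Pool.Agent.StarkD

open NumberField IsDedekindDomain Pool.Agent.Stark Pool.Agent.Stark.AR Pool.Agent.RM StarkStmt
open Pool.Agent.Shared
open scoped IsMulCommutative Classical nonZeroDivisors

variable {K : Type} [Field K] [NumberField K] {σ σ' : K →+* ℝ}
  {H : Type} [Field H] [NumberField H] [Algebra K H] [IsAbelianGalois K H]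

namespace ActAux

theorem val_le (O : ValuationSubring ℂ) {z : ℂ} (h : IsIntegral ℤ z) : O.valuation z ≤ 1 := by
  obtain ⟨y, rfl⟩ := IsIntegrallyClosed.isIntegral_iff.1 (h.tower_top (A := O))
  exact O.valuation_le_one y

theorem val_eq (O : ValuationSubring ℂ) {z : ℂ} (h0 : z ≠ 0) (h : IsIntegral ℤ z)
    (h' : IsIntegral ℤ z⁻¹) : O.valuation z = 1 := by
  refine le_antisymm (val_le O h) ?_
  have h1 := val_le O h'
  rwa [map_inv₀, inv_le_one₀ (zero_lt_iff.2 (by simpa using h0))] at h1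

theorem cg_symm {O : ValuationSubring ℂ} {x y : ℂ} (h : Cg O x y) : Cg O y x := by
  rwa [Cg, Valuation.map_sub_swap]

theorem cg_trans {O : ValuationSubring ℂ} {x y z : ℂ} (h : Cg O x y) (h' : Cg O y z) :
    Cg O x z := by
  have := O.valuation.map_add_lt h h'
  rwa [sub_add_sub_cancel] at this

theorem cg_cancel {O : ValuationSubring ℂ} {x y z : ℂ} (hz : O.valuation z = 1)
    (h : Cg O (x * z) (y * z)) : Cg O x y := by
  rwa [Cg, ← sub_mul, map_mul, hz, mul_one] at h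

theorem notMem {S : Finset (Pr K)} {p : ℕ} {q q' : Pr K} (h : Spl p q q')
    (hp : ∑ r ∈ S, Ideal.absNorm r.asIdeal < p) : q ∉ S := fun hq => by
  have h3 := Finset.single_le_sum (f := fun r : Pr K => Ideal.absNorm r.asIdeal)
    (fun _ _ => Nat.zero_le _) hq
  have h4 := PrimeZeta.two_le_absNorm _ q.isMaximal
  have h5 := Nat.minFac_le (n := Ideal.absNorm q.asIdeal) (by omega)
  rw [minFac_eq _ h.1 (FrameAux.mem_of_spl h)] at h5
  omega

theorem int_of {M : Type} [Field M] (ι : M →+* ℂ) {y : M} (h : IsIntegral ℤ (ι y)) :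
    IsIntegral ℤ y := (isIntegral_algHom_iff ι.toIntAlgHom ι.injective).1 h

end ActAux

open ActAux in
theorem actS (h1 : AbsSt) (h2 : SepSt) (h3 : RootSt) (h4 : GenSt σ') (h5 : ArtSt σ' H) :
    ActSt σ σ' H := by
  intro S N V η J B φ M _ _ _ _ ι r₁ r₂ ρ u r hR hpos hint hη hη' hJ hK hF hu hr
  have := h4.fin S N
  have hui : ∀ c, IsIntegral ℤ (u c) := fun c => int_of ι (hu c ▸ (hint c).1)
  have hV : ∀ (O : ValuationSubring ℂ) c, O.valuation (V c) = 1 := fun O c =>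
    val_eq O (by exact_mod_cast (hpos c).ne') (hint c).1 (hint c).2
  obtain ⟨B₁, hB₁⟩ := h2 (Set.range fun x : (M ≃ₐ[K] M) × Cl σ' S N × Cl σ' S N × Bool =>
    ι (x.1 (u x.2.1 ^ (2 * cond x.2.2.2 1 J)) - u x.2.2.1 ^ (2 * cond x.2.2.2 1 J)))
    (Set.finite_range _) (by
      rintro _ ⟨x, rfl⟩
      exact (Algebra.IsAlgebraic.isAlgebraic (R := ℚ) _).algHom ι.toRatAlgHom)
  obtain ⟨B₂, hB₂⟩ := hF.all
  obtain ⟨η₀, rfl⟩ := isU_iff.1 hη
  have hr' : r ^ 2 = algebraMap K M (η₀ : 𝓞 K) := ι.injective (by rw [map_pow, hr, hF.embK])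
  have hri : IsIntegral ℤ (ι r) := IsIntegral.of_pow two_pos (by
    rw [hr]
    exact (η₀ : 𝓞 K).2.map ((Complex.ofRealHom.comp σ).toIntAlgHom))
  have hrv : ∀ O : ValuationSubring ℂ, O.valuation (ι r) = 1 := fun O => by
    have h0 : ι r ≠ 0 := fun h => hη'.ne (by
      rw [h, zero_pow two_ne_zero] at hr
      exact_mod_cast hr.symm)
    refine val_eq O h0 hri (IsIntegral.of_pow two_pos ?_)
    rw [inv_pow, hr]
    have h6 := ((η₀⁻¹ : (𝓞 K)ˣ) : 𝓞 K).2.map ((Complex.ofRealHom.comp σ).toIntAlgHom)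
    convert h6 using 1
    refine inv_eq_of_mul_eq_one_right ?_
    change _ * ((σ ((η₀⁻¹ : (𝓞 K)ˣ) : 𝓞 K) : ℝ) : ℂ) = 1
    rw [← Complex.ofReal_mul, ← map_mul, ← map_mul, Units.mul_inv, map_one, map_one,
      Complex.ofReal_one]
  have key : ∀ (γ : M ≃ₐ[K] M) (p : ℕ) (O : ValuationSubring ℂ), p.Prime → B₁ < p →
      O.valuation p < 1 → (∀ y : M, IsIntegral ℤ y → Cg O (ι (γ y)) (ι y ^ p)) →
      ∀ (b : Bool) c c', Cg O ((V c' : ℂ) ^ (2 * cond b 1 J)) (((V c : ℂ) ^ (2 * cond b 1 J)) ^ p) →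
        γ (u c ^ (2 * cond b 1 J)) = u c' ^ (2 * cond b 1 J) := by
    intro γ p O hp hB hO hγ b c c' h
    have h6 := hγ _ ((hui c).pow (2 * cond b 1 J))
    rw [map_pow ι, hu] at h6
    have h7 := hB₁ p hp hB O hO _ ⟨(γ, c, c', b), rfl⟩ (by
      have h8 := cg_trans h6 (cg_symm h)
      rw [Cg, ← hu, ← map_pow, ← map_sub] at h8
      exact h8)
    exact sub_eq_zero.1 ((map_eq_zero ι).1 h7)
  have hO : ∀ {p q q' γ}, Frb σ ι r₁ r₂ p q q' γ → ∃ O : ValuationSubring ℂ,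
      O.valuation p < 1 ∧ (∀ x : 𝓞 K, O.valuation (σ x : ℝ) < 1 → x ∈ q.asIdeal) ∧
      ∀ y : M, IsIntegral ℤ y → Cg O (ι (γ y)) (ι y ^ p) := fun h => by
    simpa using h.2.2 1
  have sgn : ∀ (γ : M ≃ₐ[K] M) (p : ℕ) (q q' : Pr K) (O : ValuationSubring ℂ) (c : Cl σ' S N)
      (ζ : ℂ), Spl p q q' → B < p → B₁ < p → O.valuation p < 1 →
      (∀ y : M, IsIntegral ℤ y → Cg O (ι (γ y)) (ι y ^ p)) →
      Cg O ((V c : ℂ) ^ p) (ζ * V (c + cls σ' S N (pd q))) ∨ Ty V O p q' c →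
      (γ (u c) = u (c + cls σ' S N (pd q)) ∧ Cg O ζ 1) ∨
      (γ (u c) = -u (c + cls σ' S N (pd q)) ∧ Cg O ζ (-1)) ∨
      ∀ l ∈ PP σ' S N, γ (u (c + l) ^ 2) = u (c + l + cls σ' S N (pd q')) ^ 2 := by
    intro γ p q q' O c ζ hs hB hB' hp hγ h
    by_cases ht : Ty V O p q' c
    · exact Or.inr (Or.inr fun l hl => key γ p O hs.1 hB' hp hγ true _ _ (ht l hl))
    have h6 := key γ p O hs.1 hB' hp hγ true _ _
      ((hK.loc p q q' hB hs O hp c).resolve_right ht 0 (zero_mem _))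
    have h7 := hγ _ (hui c)
    rw [hu] at h7
    have h8 := cg_symm (cg_trans h7 (h.resolve_right ht))
    rw [add_zero, map_pow] at h6
    rcases sq_eq_sq_iff_eq_or_eq_neg.1 h6 with e | e
    · refine Or.inl ⟨e, cg_cancel (hV O (c + cls σ' S N (pd q))) ?_⟩
      rw [e, hu] at h8
      rwa [one_mul]
    · refine Or.inr (Or.inl ⟨e, cg_cancel (hV O (c + cls σ' S N (pd q))) ?_⟩)
      rwa [e, map_neg, hu, neg_eq_neg_one_mul] at h8
  refine h1 (ι := ℕ × Pr K × Pr K) u (art H) r₁ r₂ ρ (MulAction.stabilizer _ r) (PP σ' S N)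
    (fun γ i => B + B₁ + B₂ + ∑ r ∈ S, Ideal.absNorm r.asIdeal + 2 < i.1 ∧ Spl i.1 i.2.1 i.2.2 ∧
      Frb σ ι r₁ r₂ i.1 i.2.1 i.2.2 γ)
    (fun i => cls σ' S N (pd i.2.1)) (fun i => cls σ' S N (pd i.2.2)) (h5.add S N hR)
    (fun h => ?_) (fun c => ?_) (fun γ => ?_) ?_ ?_ (fun T hT h => ?_) ?_ ?_
  · have h6 : ρ r = r := h
    have h7 := hF.rho r
    rw [h6, eq_comm, Complex.conj_eq_iff_re] at h7
    rw [← h7, ← Complex.ofReal_pow, Complex.ofReal_inj] at hr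
    exact (sq_nonneg _).not_gt (hr ▸ hη')
  · apply ι.injective
    change ι (ρ (u c)) = _
    rw [hF.rho, hu, Complex.conj_ofReal]
  · obtain ⟨p, q, q', γ', h6, h7, h8, h9⟩ := hF.gen _ γ
    exact ⟨γ', (p, q, q'), ⟨h6, h7, h8⟩, h9⟩
  · rintro γ ⟨p, q, q'⟩ ⟨h6, h7, h8⟩
    have hq := notMem (S := S) h7 (by omega)
    have hq' := notMem (S := S) h7.symm (by omega)
    refine ⟨h8.1.trans (h5.prime S N hR q hq).symm, h8.2.1.trans (h5.prime S N hR q' hq').symm,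
      p, ⟨Nat.cast_ne_zero.2 h7.1.ne_zero, fun t ht => ?_⟩, by rw [h7.2.2, map_add]⟩
    rw [← dv_apply, h7.2.2, Finsupp.add_apply, Finsupp.single_eq_of_ne' (ne_of_mem_of_not_mem ht
      hq).symm, Finsupp.single_eq_of_ne' (ne_of_mem_of_not_mem ht hq').symm, add_zero]
  · rintro γ ⟨p, q, q'⟩ δ ⟨h6, h7, h8, h9, h10⟩
    refine ⟨h6, h7, ?_, ?_, fun δ' => ?_⟩
    · rw [map_mul, map_mul, map_inv, mul_right_comm, mul_inv_cancel, one_mul, h8]
    · rw [map_mul, map_mul, map_inv, mul_right_comm, mul_inv_cancel, one_mul, h9]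
    · have h11 := h10 (δ' * δ)
      rwa [show δ' * δ * γ * (δ' * δ)⁻¹ = δ' * (δ * γ * δ⁻¹) * δ'⁻¹ by group] at h11
  · refine h4.gen S N (B + B₁ + B₂ + ∑ r ∈ S, Ideal.absNorm r.asIdeal + 2) T hT
      fun p q q' hp hs => ?_
    obtain ⟨γ, hγ⟩ := hB₂ p q q' (by omega) hs
    exact h γ (p, q, q') ⟨hp, hs, hγ⟩
  · rintro γ ⟨p, q, q'⟩ ⟨h6, h7, h8⟩
    obtain ⟨O, hp, -, hγ⟩ := hO h8
    simp only at h6
    have h9 : ∀ c, ∃ c', γ (u c ^ 2) = u c' ^ 2 := fun c =>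
      (hK.loc p q q' (by omega) h7 O hp c).elim
        (fun h => ⟨_, by simpa using key γ p O h7.1 (by omega) hp hγ true _ _ (h 0 (zero_mem _))⟩)
        fun h => ⟨_, by simpa using key γ p O h7.1 (by omega) hp hγ true _ _ (h 0 (zero_mem _))⟩
    have h10 : ∀ c c', Cg O ((V c' : ℂ) ^ (2 * J)) (((V c : ℂ) ^ (2 * J)) ^ p) →
        γ (u c ^ 2) = u c' ^ 2 := fun c c' h => by
      have h11 : γ (u c ^ (2 * J)) = u c' ^ (2 * J) :=
        key γ p O h7.1 (by omega) hp hγ false _ _ h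
      obtain ⟨d, hd⟩ := h9 c
      rw [pow_mul, map_pow, hd, pow_mul] at h11
      have h12 := congrArg ι h11
      simp only [map_pow, hu] at h12
      have h13 : (V d ^ 2) ^ J = (V c' ^ 2) ^ J := by exact_mod_cast h12
      rw [pow_left_inj₀ (sq_nonneg _) (sq_nonneg _) hJ] at h13
      apply ι.injective
      rw [hd, map_pow, map_pow, hu, hu]
      exact_mod_cast h13
    exact (hK.unif p q q' (by omega) h7 O hp).imp (fun h c => h10 _ _ (h c))
      fun h c => h10 _ _ (h c)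
  · rintro γ γ' ⟨p, q, q'⟩ ⟨h6, h7, h8⟩ ⟨-, -, h8'⟩ hY c
    obtain ⟨O, hp, hq, hγ⟩ := hO h8
    obtain ⟨O', hp', -, hγ'⟩ := hO h8'
    simp only at h6
    have h9 : γ r = -r := by
      refine (sq_eq_sq_iff_eq_or_eq_neg.1 ?_).resolve_left hY
      rw [← map_pow, hr', γ.commutes]
    obtain ⟨k, hk⟩ := h7.1.odd_of_ne_two (by omega)
    have h10 := hγ r (int_of ι hri)
    rw [h9, map_neg, neg_eq_neg_one_mul, hk, pow_succ, pow_mul, hr] at h10
    have h11 := hq ((η₀ : 𝓞 K) ^ k + 1) (by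
      have h12 := cg_symm (cg_cancel (hrv O) h10)
      rw [Cg, sub_neg_eq_add] at h12
      simpa using h12)
    obtain ⟨ζ, n, hn, hζ, h12⟩ := hK.root p q q' (by omega) h7 (by
      have h13 := (ComplAux.int_mem_pw q _ 1).2 (by simpa using h11)
      rw [show (p - 1) / 2 = k by omega]
      simpa using h13) c
    rcases sgn γ p q q' O c ζ h7 (by omega) (by omega) hp hγ (h12 O hp) with h | h | h
    · rcases sgn γ' p q q' O' c ζ h7 (by omega) (by omega) hp' hγ' (h12 O' hp') with h' | h' | h'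
      · exact Or.inl (h.1.trans h'.1.symm)
      · exact (h3 p n ζ O O' h7.1 (by omega) hn hζ hp hp' h.2 h'.2).elim
      · exact Or.inr (Or.inr h')
    · rcases sgn γ' p q q' O' c ζ h7 (by omega) (by omega) hp' hγ' (h12 O' hp') with h' | h' | h'
      · exact (h3 p n ζ O' O h7.1 (by omega) hn hζ hp' hp h'.2 h.2).elim
      · exact Or.inl (h.1.trans h'.1.symm)
      · exact Or.inr (Or.inr h')
    · exact Or.inr (Or.inl h)

end Pool.Agent.StarkD
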