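import Pool.Agent.Lib.MP_ca56d1_nt.D.St

/-! Assembly of the Galois side. -/

namespace Pool.Agent.StarkD

open NumberField IsDedekindDomain Pool.Agent.Stark Pool.Agent.Stark.AR Pool.Agent.RM StarkStmt
open scoped IsMulCommutative Classical nonZeroDivisors

variable {K : Type} [Field K] [NumberField K] {σ σ' : K →+* ℝ}
  {H : Type} [Field H] [NumberField H] [Algebra K H] [IsAbelianGalois K H]

theorem lsum_shift (hA : ArtSt σ' H) {S : Finset (Pr K)} {N : ℕ} (hR : Rec H σ' S N)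
    (V : Cl σ' S N → ℝ) (a : Cl σ' S N) (g : H ≃ₐ[K] H) :
    lsum H V (g * art H a) = lsum H (fun c => V (c + a)) g := by
  unfold lsum
  refine (finsum_mem_eq_of_bijOn (fun c => c + a) ⟨fun c hc => ?_, fun c _ c' _ h => ?_,
    fun c hc => ⟨c - a, ?_, sub_add_cancel c a⟩⟩ fun c _ => rfl).symm
  · change art H (c + a) = _
    rw [hA.add S N hR, show art H c = g from hc]
  · exact add_right_cancel h
  · have h1 := hA.add S N hR (c - a) a
    rw [sub_add_cancel, show art H c = g * art H a from hc] at h1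
    exact (mul_right_cancel h1).symm

theorem asm (hne : σ ≠ σ') (hSys : SysSt σ σ') (hG : GenSt σ') (hA : ArtSt σ' H)
    (hSg : SignSt σ σ' H) (hZ : ZetaSt σ' H) (hF : FldSt (K := K) H) (hFr : FrobSt σ σ' H)
    (hAc : ActSt σ σ' H) (hFi : FinSt σ σ' H) (hE : EndSt σ σ' H) (S : Finset (Pr K))
    (hS : S.Nonempty) (hU : UnrO H S) (φ : H →+* ℝ) (hφ : φ.comp (algebraMap K H) = σ) :
    Stark K S (plc φ) := by
  obtain ⟨N, hR, hτ⟩ := hSg S φ hU hφ
  obtain ⟨V, hV⟩ := hSys S N hS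
  have hfin := hG.fin S N
  obtain ⟨η, J, B, e1, e2, e3, e4⟩ := hV.kron
  obtain ⟨z, hz⟩ : ∃ z : ℂ, z ^ 2 = σ η := IsAlgClosed.exists_pow_nat_eq _ two_pos
  obtain ⟨M, _, _, _, _, _, ι, m1, m2, m3⟩ := hF φ (insert z (Set.range fun c => (V c : ℂ)))
    ((Set.finite_range _).insert z) (by
      rintro w (rfl | ⟨c, rfl⟩)
      · refine IsAlgebraic.of_pow two_pos ?_
        rw [hz]
        exact (Algebra.IsAlgebraic.isAlgebraic (R := ℚ) η).algHom
          (Complex.ofRealHom.comp σ).toRatAlgHom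
      · exact ((hV.int c).1.tower_top (A := ℚ)).isAlgebraic)
  obtain ⟨r₁, r₂, ρ, hfr⟩ := hFr S φ hU hφ M ι m1 m2
  obtain ⟨r, hr⟩ := m3 z (Set.mem_insert _ _)
  choose u hu using fun c => m3 (V c : ℂ) (Set.mem_insert_of_mem _ ⟨c, rfl⟩)
  obtain ⟨a₀, ha₀, hs₀⟩ := (rayT K).sgn S N fun φ => φ = σ
  have hn₀ : σ' a₀ < 0 := by
    have h4 : σ' a₀ ≠ 0 := by simpa using ha₀.1
    exact lt_of_le_of_ne (not_lt.1 fun h => hne ((hs₀ σ').1 h).symm) h4
  have hneg : ∀ g, lsum H V (g * ev (fr K H) (dv a₀)) = -lsum H V g := fun g => by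
    rw [← hA.prin S N hR a₀ (PS.of_ray ha₀), lsum_shift hA hR]
    unfold lsum
    simp only [hV.neg a₀ _ ha₀ hn₀, Real.log_inv, finsum_neg_distrib]
  have hz' : ∀ g, ∃ Z, IsCont (pzeta K H S g) Z ∧ deriv Z 0 = lsum H V g := fun g =>
    (hZ S N V hR hfin hV.zeta g).imp fun Z h => ⟨h.1, h.2.2⟩
  have triv : (∀ g, lsum H V g = 0) → Stark K S (plc φ) := fun h0 =>
    hE S φ (lsum H V) (r₂ ρ) 1 hφ hz' hfr.tau (fun g => by rw [h0, h0, neg_zero])
      ⟨one_ne_zero, fun Q => by simp [og]⟩ (fun g => by simp [h0])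
      (tate_crit one_ne_zero id (fun _ => 1) (by simp) (by simp) (by simp))
  rcases hτ (r₂ ρ) hfr.tau a₀ ha₀ with h | h
  · refine triv fun g => ?_
    have := hneg g
    rw [h, mul_one] at this
    linarith
  rw [h] at hneg
  rcases hAc S N V η J B φ M ι r₁ r₂ ρ u r hR hV.pos hV.int e1 e2 e3 e4 hfr hu (hr ▸ hz) with
    ⟨a, ha, h1⟩ | ⟨h1, h2⟩
  · refine triv fun g => ?_
    have h2 := lsum_shift hA hR V a g
    have h3 : (fun c => V (c + a)) = V := funext fun c => by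
      have h4 := congrArg ι (h1 c)
      rw [map_pow, map_pow, hu, hu] at h4
      have h5 : V (c + a) ^ 2 = V c ^ 2 := by exact_mod_cast h4
      exact (pow_left_inj₀ (hV.pos _).le (hV.pos _).le two_ne_zero).1 h5
    rw [ha, h3, hneg] at h2
    linarith
  · obtain ⟨ε, f1, f2, f3⟩ := hFi S N V φ M ι r₁ r₂ ρ u hR hfin hV.pos hV.int hfr hu h1 h2
    exact hE S φ (lsum H V) (r₂ ρ) ε hφ hz' hfr.tau hneg f1 f2 f3

omit [IsAbelianGalois K H] in
theorem exists_rq (h2 : Module.finrank ℚ K = 2) (σ : K →+* ℝ) : ∃ σ', RQ σ σ' := by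
  have : Algebra.IsQuadraticExtension ℚ K := ⟨h2⟩
  have h3 : Nat.card (K ≃ₐ[ℚ] K) = 2 := (IsGalois.card_aut_eq_finrank ℚ K).trans h2
  have : Nontrivial (K ≃ₐ[ℚ] K) := Finite.one_lt_card_iff_nontrivial.1 (by omega)
  obtain ⟨τ, hτ⟩ := exists_ne (1 : K ≃ₐ[ℚ] K)
  refine ⟨σ.comp τ.toRingEquiv.toRingHom, h2, fun h => hτ (AlgEquiv.ext fun x => ?_)⟩
  exact (σ.injective (RingHom.congr_fun h x)).symm

end Pool.Agent.StarkD
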