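import Pool.Agent.Lib.MP_ca56d1_nt.D.St

/-! From the explicit data to the statement of the conjecture. -/

namespace Pool.Agent.StarkD

open NumberField IsDedekindDomain Pool.Agent.Stark Pool.Agent.Stark.AR Pool.Agent.RM StarkStmt
open scoped IsMulCommutative Classical nonZeroDivisors

variable {K : Type} [Field K] [NumberField K] {σ σ' : K →+* ℝ}
  {H : Type} [Field H] [NumberField H] [Algebra K H] [IsAbelianGalois K H]

namespace EndAux

/-- A number field with a real embedding has two roots of unity. -/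
theorem tors {F : Type} [Field F] [NumberField F] (φ : F →+* ℝ) : Units.torsionOrder F = 2 := by
  let := Fintype.ofFinite (Units.torsion F)
  rw [Units.torsionOrder, Nat.card_eq_fintype_card]
  refine (Finset.card_eq_two.2 ⟨1, ⟨-1, neg_one_mem_torsion⟩,
    by simp [← Subtype.coe_ne_coe], Finset.ext fun x ↦ ⟨fun _ ↦ ?_, fun _ ↦ Finset.mem_univ _⟩⟩)
  rw [Finset.mem_insert, Finset.mem_singleton, ← Subtype.val_inj, ← Subtype.val_inj]
  obtain ⟨n, hn, hx⟩ := isOfFinOrder_iff_pow_eq_one.1 ((CommGroup.mem_torsion x.1).1 x.2)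
  let ψ : 𝓞 F →+* ℝ := φ.comp (algebraMap (𝓞 F) F)
  have hψ : Function.Injective ψ := φ.injective.comp RingOfIntegers.coe_injective
  have h1 : ψ x.1 ^ n = 1 := by
    rw [← map_pow, ← Units.val_pow_eq_pow_val, hx, Units.val_one, map_one]
  rcases (pow_eq_one_iff_of_ne_zero hn.ne').1 h1 with e | ⟨e, -⟩
  · exact Or.inl (Units.ext (hψ (by rw [e]; simp)))
  · exact Or.inr (Units.ext (hψ (by rw [e]; simp)))

/-- The complex embeddings of a real quadratic field. -/
theorem emb_cases (h : RQ σ σ') (ψ : K →+* ℂ) :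
    ψ = Complex.ofRealHom.comp σ ∨ ψ = Complex.ofRealHom.comp σ' := by
  have hne : Complex.ofRealHom.comp σ ≠ Complex.ofRealHom.comp σ' := fun e =>
    h.ne (RingHom.ext fun x => by simpa using RingHom.congr_fun e x)
  have hc : Fintype.card (K →+* ℂ) = 2 := (Embeddings.card K ℂ).trans h.two
  have hu : ({Complex.ofRealHom.comp σ, Complex.ofRealHom.comp σ'} : Finset (K →+* ℂ)) =
      Finset.univ := Finset.eq_univ_of_card _ (by rw [Finset.card_pair hne, hc])
  have := Finset.mem_univ ψ
  rwa [← hu, Finset.mem_insert, Finset.mem_singleton] at this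

end EndAux

theorem endS (h : RQ σ σ') : EndSt σ σ' H := by
  intro S φ l τ ε hφ hZ hτ hl hU hε hA
  choose Z hZ1 hZ2 using hZ
  have ht := EndAux.tors φ
  have hn : ε * τ ε = 1 := by
    apply φ.injective
    have h1 := hε 1
    have h2 := hl 1
    rw [one_mul] at h2
    rw [AlgEquiv.one_apply] at h1
    rw [map_mul, h1, hε τ, h2, ← Real.exp_add, map_one]
    simp
  refine ⟨Z, ε, hZ1, hU.1, ⟨finitePlace_eq_one hU, fun w hw => ?_⟩, fun g => ?_, ht ▸ hA⟩
  · rcases EndAux.emb_cases h (w.embedding.comp (algebraMap K H)) with e | e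
    · refine absurd ?_ hw
      rw [← w.mk_embedding, InfinitePlace.comap_mk, e, plc, InfinitePlace.comap_mk,
        RingHom.comp_assoc, hφ]
    · have h1 := hτ w.embedding (fun x => RingHom.congr_fun e x) ε
      have h2 := congrArg (fun z => ‖w.embedding z‖) hn
      simp only [map_mul, map_one, norm_mul, norm_one, h1, Complex.norm_conj,
        InfinitePlace.norm_embedding_eq] at h2
      exact (mul_self_eq_one_iff.1 h2).resolve_right (by linarith [apply_nonneg w ε])
  · rw [(plc_isReal φ).mult_eq_one, pow_one, plc_apply, hε g, abs_of_pos (Real.exp_pos _),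
      Real.log_exp, ht, hZ2]
    push_cast
    ring

end Pool.Agent.StarkD
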