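import Pool.Agent.Lib.MP_ca56d1_nt.D.St

/-! Descent of the values to the abelian extension and the abelian condition. -/

namespace Pool.Agent.StarkD

open NumberField IsDedekindDomain Pool.Agent.Stark Pool.Agent.Stark.AR Pool.Agent.RM StarkStmt
open scoped IsMulCommutative Classical nonZeroDivisors

variable {K : Type} [Field K] [NumberField K] {σ σ' : K →+* ℝ}
  {H : Type} [Field H] [NumberField H] [Algebra K H] [IsAbelianGalois K H]

namespace FinAux

theorem isU_of_int {F : Type} [Field F] [NumberField F] (ψ : F →+* ℂ) {x : F} (h0 : x ≠ 0)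
    (h1 : IsIntegral ℤ (ψ x)) (h2 : IsIntegral ℤ (ψ x)⁻¹) : IsU x := by
  rw [← map_inv₀] at h2
  have a1 : IsIntegral ℤ x := (isIntegral_algHom_iff ψ.toIntAlgHom ψ.injective).1 h1
  have a2 : IsIntegral ℤ x⁻¹ := (isIntegral_algHom_iff ψ.toIntAlgHom ψ.injective).1 h2
  exact isU_iff.2 ⟨⟨⟨x, a1⟩, ⟨x⁻¹, a2⟩, RingOfIntegers.ext (mul_inv_cancel₀ h0),
    RingOfIntegers.ext (inv_mul_cancel₀ h0)⟩, rfl⟩

end FinAux

theorem finS (h : ArtSt σ' H) : FinSt σ σ' H := by
  intro S N V φ M _ _ _ _ ι r₁ r₂ ρ u hR hF hV hI fr hu hact hcom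
  have := Fintype.ofFinite (Cl σ' S N)
  have inj := (algebraMap H M).injective
  let W : (H ≃ₐ[K] H) → M := fun g => ∏ c with art H c = g, (u c)⁻¹
  have hW : ∀ g, ι (W g) = ∏ c with art H c = g, (V c : ℂ)⁻¹ := fun g => by
    simp only [W, map_prod, map_inv₀, hu]
  have hV0 : ∀ c, (V c : ℂ) ≠ 0 := fun c => Complex.ofReal_ne_zero.2 (hV c).ne'
  have W0 : ∀ g, W g ≠ 0 := fun g e => by
    have := hW g
    rw [e, map_zero] at this
    exact Finset.prod_ne_zero_iff.2 (fun c _ => inv_ne_zero (hV0 c)) this.symm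
  have act : ∀ γ : M ≃ₐ[K] M, γ (W 1 ^ 2) = W (r₁ γ) ^ 2 := fun γ => by
    obtain ⟨a, ha, hc⟩ := hact γ
    simp only [W, ← Finset.prod_pow, inv_pow, map_prod, map_inv₀, hc]
    refine Finset.prod_equiv (Equiv.addRight a) (fun c => ?_) fun c _ => rfl
    simp only [Finset.mem_filter, Finset.mem_univ, true_and, Equiv.coe_addRight, h.add S N hR, ha,
      mul_eq_right]
  have com : ∀ γ δ : M ≃ₐ[K] M, γ (δ (W 1)) = δ (γ (W 1)) := fun γ δ => by
    simp only [W, map_prod, map_inv₀, hcom γ δ]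
  obtain ⟨ε, hε⟩ := fr.fix (W 1 ^ 2) fun γ e => by rw [act, e]
  have hg : ∀ g : H ≃ₐ[K] H, algebraMap H M (g ε) = W g ^ 2 := fun g => by
    obtain ⟨γ, rfl⟩ := fr.surj g
    rw [← fr.res, hε, act]
  have ε0 : ε ≠ 0 := fun e => by
    rw [e, map_zero] at hε
    exact pow_ne_zero 2 (W0 1) hε.symm
  have hα : ∀ γ : M ≃ₐ[K] M, ∃ a : H, algebraMap H M a = γ (W 1) / W 1 := fun γ =>
    fr.fix _ fun δ e => by
      have h1 := act δ
      rw [e, map_pow] at h1
      rw [map_div₀, com]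
      rcases sq_eq_sq_iff_eq_or_eq_neg.1 h1 with h2 | h2
      · rw [h2]
      · rw [h2, map_neg, neg_div_neg_eq]
  choose α hα using hα
  refine ⟨ε, FinAux.isU_of_int (ι.comp (algebraMap H M)) ε0 ?_ ?_, fun g => ?_,
    tate_crit ε0 r₁ α (by rw [fr.surj.range_eq, Subgroup.closure_univ]) (fun γ => inj ?_)
      fun γ δ => inj ?_⟩
  · rw [RingHom.comp_apply, hε, map_pow, hW]
    exact (IsIntegral.prod _ fun c _ => (hI c).2).pow 2
  · rw [RingHom.comp_apply, hε, map_pow, hW, ← inv_pow, ← Finset.prod_inv_distrib]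
    exact (IsIntegral.prod _ fun c _ => by rw [inv_inv]; exact (hI c).1).pow 2
  · apply Complex.ofReal_injective
    rw [← fr.embH, hg, map_pow, hW, lsum, show {c : Cl σ' S N | art H c = g} =
      ↑(Finset.univ.filter fun c : Cl σ' S N => art H c = g) by simp, finsum_mem_coe_finset,
      Finset.mul_sum, Real.exp_sum, ← Finset.prod_pow, Complex.ofReal_prod]
    refine Finset.prod_congr rfl fun c _ => ?_
    rw [show -2 * Real.log (V c) = -(((2 : ℕ) : ℝ) * Real.log (V c)) by norm_num, Real.exp_neg,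
      Real.exp_nat_mul, Real.exp_log (hV c)]
    simp
  · rw [← fr.res, map_mul, map_pow, hα, hε, map_pow, div_pow, div_mul_cancel₀ _ (pow_ne_zero 2 (W0 1))]
  · have h1 : δ (W 1) ≠ 0 := by simpa using W0 1
    have h2 : γ (W 1) ≠ 0 := by simpa using W0 1
    rw [map_mul, map_mul, ← fr.res, ← fr.res, hα, hα, map_div₀, map_div₀, com δ γ,
      div_mul_div_cancel₀ h1, div_mul_div_cancel₀ h2]

end Pool.Agent.StarkD
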