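import Pool.Agent.Lib.MP_ca56d1_nt.D.St
import Pool.Agent.Lib.MP_ca56d1_nt.C.Fin
import Pool.Agent.Lib.MP_ca56d1_nt.B.St

/-! Transformation rules of the values attached to divisors. -/

namespace Pool.Agent.StarkD

open NumberField IsDedekindDomain Pool.Agent.Stark Pool.Agent.Stark.AR Pool.Agent.RM StarkStmt
open scoped IsMulCommutative Classical nonZeroDivisors

variable {K : Type} [Field K] [NumberField K] {σ σ' : K →+* ℝ}

namespace GAux

omit [NumberField K] in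
theorem lat_neg {Λ : Set K} (h : Lat Λ) : Lat {y | -y ∈ Λ} := by
  obtain ⟨M, h1, h2⟩ := h.fg
  refine ⟨⟨M, h1, fun y hy => neg_mem_iff.1 (h2 hy)⟩, fun y => ?_⟩
  obtain ⟨n, hn, h3⟩ := h.full y
  refine ⟨n, hn, fun z => ?_⟩
  change -(z + n * y) ∈ Λ ↔ -z ∈ Λ
  rw [neg_add]
  exact neg_mem h3 (-z)

omit [NumberField K] in
theorem stab_neg {ε : K} {Λ : Set K} (h : Stab ε Λ) : Stab ε {y | -y ∈ Λ} := fun y => by
  change -(ε * y) ∈ Λ ↔ -y ∈ Λ
  rw [← mul_neg, h]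

omit [NumberField K] in
theorem set_neg (u : K) (Λ : Set K) : {y | u * y ∈ Λ} = {y | -u * y ∈ {y | -y ∈ Λ}} := by
  ext y
  simp

theorem lam (hL : LatSt K) {S : Finset (Pr K)} {N : ℕ} {ε : K} (D : Dv K) (hS : S.Nonempty)
    (h : RU S N ε) : Lat (Lam S N D) ∧ Stab ε (Lam S N D) ∧ 0 ∉ Lam S N D := by
  obtain ⟨x, hx⟩ := hL.ne S N D
  refine ⟨?_, ?_, fun h0 => hL.notMem S N D D hS 0 h0 (zero_mem _)⟩ <;> rw [hL.coset S N D x hx]
  · exact coset_lat (hL.elat S N D ε h.1) x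
  · exact coset_stab (hL.elat S N D ε h.1) (hL.stab S N D ε h x hx)

theorem cj (hA : PartA σ σ') {ε : K} {Λ : Set K} (hε : Eps σ σ' ε) (h1 : Lat Λ) (h2 : Stab ε Λ)
    (h3 : 0 ∉ Λ) {u : K} (hu : σ u < 0) (hu' : 0 < σ' u) :
    LX σ σ' ε {y | u * y ∈ Λ} = (starRingEnd ℂ) (LX σ σ' ε Λ) := by
  rw [set_neg, hA.smul_neg ε _ hε (lat_neg h1) (stab_neg h2) (by simpa using h3) (-u)
    (by simpa using hu) (by simpa using hu'), hA.neg_conj ε Λ hε h1 h2 h3, neg_neg]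

theorem cg_inv {O : ValuationSubring ℂ} {x y : ℂ} (hx : O.valuation x = 1)
    (hy : O.valuation y = 1) (h : Cg O x y) : Cg O x⁻¹ y⁻¹ := by
  have x0 : x ≠ 0 := fun h0 => by simp [h0] at hx
  have y0 : y ≠ 0 := fun h0 => by simp [h0] at hy
  rw [Cg, inv_sub_inv x0 y0, map_div₀, map_mul, hx, hy, mul_one, div_one, Valuation.map_sub_swap]
  exact h

end GAux

open GAux

theorem gS (hA : PartA σ σ') (hB : PartBP σ σ') (hL : LatSt K) : GSt σ σ' where
  pp S N ε D a hS hε hu ha h1 h2 := by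
    obtain ⟨a1, a2, -⟩ := lam hL D hS hu
    rw [gD, gD, hL.smul_Lam S N D a ha, hA.smul ε _ hε a1 a2 a h1 h2]
  pn S N ε D a hS hε hu ha h1 h2 := by
    obtain ⟨a1, a2, a3⟩ := lam hL D hS hu
    rw [gD, gD, hL.smul_Lam S N D a ha, hA.smul_neg ε _ hε a1 a2 a3 a h1 h2]
  np S N ε D a hS hε hu ha h1 h2 := by
    obtain ⟨a1, a2, a3⟩ := lam hL D hS hu
    rw [gD, gD, hL.smul_Lam S N D a ha, cj hA hε a1 a2 a3 h1 h2]
  nn S N ε D a hS hε hu ha h1 h2 := by
    obtain ⟨a1, a2, a3⟩ := lam hL D hS hu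
    rw [gD, gD, hL.smul_Lam S N D a ha, set_neg, hA.smul ε _ hε (lat_neg a1) (stab_neg a2) (-a)
      (by simpa using h1) (by simpa using h2), hA.neg_conj ε _ hε a1 a2 a3]
  cj ε Λ hε h1 h2 h3 u hu hu' := cj hA hε h1 h2 h3 hu hu'
  root ε L x hε h1 h2 h3 := by
    obtain ⟨d, μ, s, B, -, -, -, -, -, -, h4⟩ := hB ε L hε h1
    obtain ⟨n, hn, h5⟩ := h4 x h2
    refine ⟨n, hn, ?_⟩
    have e : coset L (-x) = {y | -y ∈ coset L x} := by
      ext y
      change y - -x ∈ L ↔ -y - x ∈ L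
      rw [← neg_mem_iff, show -(y - -x) = -y - x by ring]
    have h0 : 0 ∉ coset L x := fun h => h3 (by simpa [coset] using h)
    rw [Fp, if_neg h3, Fm, Fm, e, hA.neg_conj ε _ hε (coset_lat h1 x) (coset_stab h1 h2) h0,
      Complex.exp_neg, Complex.exp_conj, ← div_eq_mul_inv] at h5
    exact h5
  fm S N ε D x hx := by rw [FD, gD, Fm, hL.coset S N D x hx]

theorem tyS (hA : PartA σ σ') (hC : PartC σ σ') (hL : LatSt K) (hG : GSt σ σ') :
    TySt σ σ' := by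
  intro S N ε D O p q hS hε hu hp hO _ h
  suffices key : ∀ a : K, PS S a → 0 < σ a →
      Cg O (FD σ σ' ε S N (D + dv a + pd q)) (FD σ σ' ε S N (D + dv a) ^ p) by
    intro a ha
    rcases lt_or_gt_of_ne ((map_ne_zero σ).2 ha.1) with h1 | h1
    · have e : dv (-a) = dv a := Finsupp.ext fun q => ord_neg a
      exact e ▸ key (-a) ⟨neg_ne_zero.2 ha.1, fun q hq => (ord_neg a).trans (ha.2 q hq)⟩
        (by simpa using h1)
    · exact key a ha h1
  intro a ha h1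
  obtain ⟨x, hx⟩ := hL.ne S N (D + dv a)
  have hle : ∀ (E : Dv K) r, E r ≤ (E + pd q) r := fun E r => by
    rw [Finsupp.add_apply, Finsupp.single_apply]
    split_ifs <;> omega
  have e : ∀ E, coset (lat S N (E + dv a)) x = {y | a * y ∈ coset (lat S N E) (a * x)} := by
    intro E
    ext y
    change y - x ∈ lat S N (E + dv a) ↔ a * y - a * x ∈ lat S N E
    rw [hL.smul_lat S N E a ha, mul_sub]
  have h2 : (ε - 1) * (a * x) ∈ lat S N D := by
    rw [mul_left_comm, ← hL.smul_lat S N D a ha]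
    exact hL.stab S N _ ε hu x hx
  have h3 : (ε - 1) * (a * x) ∈ lat S N (D + pd q) := (hL.mono S N _ _ fun r _ => hle D r).1 h2
  have h0 : ∀ E, 0 ∉ coset (lat S N E) (a * x) := fun E h => hL.notMem S N _ (E + dv a) hS x hx (by
    rw [hL.smul_lat S N E a ha]
    simpa [coset] using h)
  have l1 := hL.elat S N D ε hu.1
  have l2 := hL.elat S N (D + pd q) ε hu.1
  have h4 := h _ h2
  rw [hG.fm S N ε _ x hx, hG.fm S N ε _ x ((hL.mono S N _ _ fun r _ => hle _ r).2 hx),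
    add_right_comm, Fm, Fm, e, e]
  rcases lt_or_gt_of_ne ((map_ne_zero σ').2 ha.1) with h5 | h5
  · rw [hA.smul_neg ε _ hε (coset_lat l1 _) (coset_stab l1 h2) (h0 _) a h1 h5,
      hA.smul_neg ε _ hε (coset_lat l2 _) (coset_stab l2 h3) (h0 _) a h1 h5, Complex.exp_neg,
      Complex.exp_neg, inv_pow]
    refine cg_inv (hC.unit ε _ hε l2 p hp O hO _ h3) ?_ h4
    have h6 := hC.unit ε _ hε l1 p hp O hO _ h2
    rw [Fm] at h6
    rw [map_pow, h6, one_pow]
  · rw [hA.smul ε _ hε (coset_lat l1 _) (coset_stab l1 h2) a h1 h5,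
      hA.smul ε _ hε (coset_lat l2 _) (coset_stab l2 h3) a h1 h5]
    exact h4

end Pool.Agent.StarkD
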