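import Pool.Agent.Lib.MP_ca56d1_nt.D.St
import Pool.Agent.Lib.MP_ca56d1_nt.C.Fin

/-! The Kronecker congruence for a power of the values, uniformly in the class. -/

namespace Pool.Agent.StarkD

open NumberField IsDedekindDomain Pool.Agent.Stark Pool.Agent.Stark.AR Pool.Agent.RM StarkStmt
open scoped IsMulCommutative Classical nonZeroDivisors

variable {K : Type} [Field K] [NumberField K] {σ σ' : K →+* ℝ}

namespace KUAux

theorem cg_prod {ι : Type*} (O : ValuationSubring ℂ) (X : Finset ι) (a c : ι → ℂ)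
    (h : ∀ x ∈ X, Cg O (a x) (c x)) (hc : ∀ x ∈ X, O.valuation (c x) ≤ 1) :
    Cg O (∏ x ∈ X, a x) (∏ x ∈ X, c x) := by
  induction X using Finset.induction_on with
  | empty => simp [Cg]
  | insert x X hx ih =>
    have h1 := ih (fun y hy => h y (Finset.mem_insert_of_mem hy))
      fun y hy => hc y (Finset.mem_insert_of_mem hy)
    have h2 := h x (Finset.mem_insert_self _ _)
    have h3 := hc x (Finset.mem_insert_self _ _)
    have h4 : O.valuation (∏ y ∈ X, c y) ≤ 1 := by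
      rw [map_prod]
      exact Finset.prod_le_one' fun y hy => hc y (Finset.mem_insert_of_mem hy)
    rw [Finset.prod_insert hx, Finset.prod_insert hx]
    rw [Cg] at *
    generalize ∏ y ∈ X, a y = A at *
    generalize ∏ y ∈ X, c y = C at *
    rw [show a x * A - c x * C = (a x - c x) * (A - C) + ((a x - c x) * C + c x * (A - C)) by ring]
    refine O.valuation.map_add_lt ?_ (O.valuation.map_add_lt ?_ ?_) <;> rw [map_mul]
    · exact mul_lt_one_of_lt_of_le h2 h1.le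
    · exact mul_lt_one_of_lt_of_le h2 h4
    · rw [mul_comm]
      exact mul_lt_one_of_lt_of_le h1 h3

/-- `X` is a system of representatives of `x₀ + M` modulo `L`. -/
structure Reps (L M : Submodule ℤ K) (x₀ : K) (X : Finset K) : Prop where
  mem : ∀ x ∈ X, x - x₀ ∈ M
  sur : ∀ y, y - x₀ ∈ M → ∃ x ∈ X, y - x ∈ L
  inj : ∀ x ∈ X, ∀ x' ∈ X, x - x' ∈ L → x = x'

theorem exists_reps {L M : Submodule ℤ K} (hM : M.FG) {n : ℕ} (hn : n ≠ 0)
    (h : ∀ y ∈ M, (n : K) * y ∈ L) (x₀ : K) : ∃ X, Reps L M x₀ X := by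
  have h1 : Module.Finite ℤ (M.map L.mkQ) := Module.Finite.iff_fg.2 (hM.map _)
  have h2 : Finite (M.map L.mkQ) := by
    refine Module.finite_of_fg_torsion _ ?_
    rintro ⟨_, y, hy, rfl⟩
    refine ⟨⟨n, mem_nonZeroDivisors_of_ne_zero (by exact_mod_cast hn)⟩, Subtype.ext ?_⟩
    change (n : ℤ) • L.mkQ y = 0
    rw [← map_zsmul, Submodule.mkQ_apply, Submodule.Quotient.mk_eq_zero, zsmul_eq_mul,
      Int.cast_natCast]
    exact h y hy
  obtain ⟨T, hT, hb⟩ := (Set.surjOn_image (fun y => L.mkQ (y - x₀))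
    {y | y - x₀ ∈ M}).exists_bijOn_subset
  have h3 : T.Finite := hb.finite_iff_finite.2 ((Set.toFinite (M.map L.mkQ : Set (K ⧸ L))).subset
    (by rintro _ ⟨y, hy, rfl⟩; exact ⟨_, hy, rfl⟩))
  refine ⟨h3.toFinset, fun x hx => hT (h3.mem_toFinset.1 hx), fun y hy => ?_,
    fun x hx x' hx' e => hb.injOn (h3.mem_toFinset.1 hx) (h3.mem_toFinset.1 hx') ?_⟩
  · obtain ⟨x, hx, e⟩ := hb.surjOn ⟨y, hy, rfl⟩
    refine ⟨x, h3.mem_toFinset.2 hx, ?_⟩
    have e' := (Submodule.Quotient.eq L).1 e.symm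
    rwa [sub_sub_sub_cancel_right] at e'
  · refine (Submodule.Quotient.eq L).2 ?_
    rwa [sub_sub_sub_cancel_right]

theorem Reps.up {L M L' M' : Submodule ℤ K} {x₀ : K} {X : Finset K} (h : Reps L M x₀ X) {n p : ℕ}
    (hnp : Nat.Coprime n p) (h1 : L ≤ L') (h2 : M ≤ M') (h3 : L' ≤ M') (h4 : L ≤ M)
    (n1 : ∀ y ∈ M, (n : K) * y ∈ L) (n2 : ∀ y ∈ M', (n : K) * y ∈ L')
    (p1 : ∀ y ∈ L', (p : K) * y ∈ L) (p2 : ∀ y ∈ M', (p : K) * y ∈ M) : Reps L' M' x₀ X := by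
  obtain ⟨a, b, e⟩ := Nat.isCoprime_iff_coprime.2 hnp
  have e' : (a : K) * n + b * p = 1 := by exact_mod_cast congrArg (Int.cast : ℤ → K) e
  have hz : ∀ (L : Submodule ℤ K) (y : K) (i : ℤ), y ∈ L → (i : K) * y ∈ L := fun L y i hy => by
    rw [← zsmul_eq_mul]
    exact zsmul_mem hy i
  refine ⟨fun x hx => h2 (h.mem x hx), fun y hy => ?_, fun x hx x' hx' hd => h.inj x hx x' hx' ?_⟩
  · obtain ⟨x, hx, h5⟩ := h.sur (x₀ + b * (p * (y - x₀))) (by
      rw [add_sub_cancel_left]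
      exact hz _ _ _ (p2 _ hy))
    refine ⟨x, hx, ?_⟩
    rw [show y - x = a * (n * (y - x₀)) + (x₀ + b * (p * (y - x₀)) - x) by
      linear_combination -(y - x₀) * e']
    exact L'.add_mem (hz _ _ _ (n2 _ hy)) (h1 h5)
  · have h5 : x - x' ∈ M := by
      rw [← sub_sub_sub_cancel_right x x' x₀]
      exact M.sub_mem (h.mem x hx) (h.mem x' hx')
    rw [show x - x' = a * (n * (x - x')) + b * (p * (x - x')) by linear_combination -(x - x') * e']
    exact L.add_mem (hz _ _ _ (n1 _ h5)) (hz _ _ _ (p1 _ hd))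

theorem Reps.prod (hA : PartA σ σ') {ε : K} (hε : Eps σ σ' ε) {L M : Submodule ℤ K} {x₀ : K}
    {X : Finset K} (h : Reps L M x₀ X) (hLM : L ≤ M) {J : ℕ} (hJ : J ≠ 0) (hM : ELat ε M)
    (hx : (ε - 1) * x₀ ∈ M) (hL : ELat (ε ^ J) L) (hX : ∀ x ∈ X, (ε ^ J - 1) * x ∈ L) :
    Complex.exp (LX σ σ' ε (coset M x₀)) ^ J = ∏ x ∈ X, Fm σ σ' (ε ^ J) L x := by
  have e : coset M x₀ = ⋃ x ∈ X, coset L x := by
    ext y
    simp only [Set.mem_iUnion, exists_prop]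
    refine ⟨h.sur y, ?_⟩
    rintro ⟨x, hx, hy⟩
    change y - x₀ ∈ M
    rw [← sub_add_sub_cancel y x x₀]
    exact M.add_mem (hLM hy) (h.mem x hx)
  rw [← Complex.exp_nat_mul, ← hA.pow ε _ hε (coset_lat hM x₀) (coset_stab hM hx) J hJ, e,
    hA.union _ (hε.pow hJ) X _ (fun x _ => coset_lat hL x) (fun x hx => coset_stab hL (hX x hx)),
    Complex.exp_sum]
  · rfl
  · intro x hx x' hx' hne
    refine Set.disjoint_left.2 fun y h1 h2 => hne (h.inj x hx x' hx' ?_)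
    rw [← sub_sub_sub_cancel_left x' x y]
    exact L.sub_mem h2 h1

/-- Finitely many divisors represent all narrow ray classes. -/
theorem exists_fam (hne : σ ≠ σ') (hN : GenSt σ') (S : Finset (Pr K)) (N : ℕ) :
    ∃ T : Set (Dv K), T.Finite ∧ ∀ D : Dv K, ∃ D₁ ∈ T, ∃ a, Ray S N a ∧ 0 < σ a ∧ 0 < σ' a ∧
      ∀ q ∉ S, D q = D₁ q + og q a := by
  obtain ⟨a₀, h0, hs⟩ := (rayT K).sgn S N fun φ => φ ≠ σ
  have h1 : σ a₀ < 0 := lt_of_le_of_ne (not_lt.1 fun h => (hs σ).1 h rfl) (emb_ne σ h0.1)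
  have h2 : 0 < σ' a₀ := (hs σ').2 hne.symm
  have := hN.fin S N
  refine ⟨Set.range (fun c : Cl σ' S N => c.out) ∪ Set.range fun c : Cl σ' S N => c.out + dv a₀,
    (Set.finite_range _).union (Set.finite_range _), fun D => ?_⟩
  obtain ⟨a, h3, h4, h5⟩ := cls_eq.1 (cls_out (cls σ' S N D))
  rcases lt_or_gt_of_ne (emb_ne σ h3.1) with h6 | h6
  · refine ⟨_, Or.inr ⟨cls σ' S N D, rfl⟩, a / a₀, h3.div h0, ?_, ?_, fun q hq => ?_⟩
    · rw [map_div₀]
      exact div_pos_of_neg_of_neg h6 h1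
    · rw [map_div₀]
      exact div_pos h4 h2
    · rw [h5 q hq, Finsupp.add_apply, dv_apply, og, og, og, ord_div h3.1 h0.1]
      ring
  · exact ⟨_, Or.inl ⟨cls σ' S N D, rfl⟩, a, h3, h6, h4, h5⟩

theorem isU_pow {ε : K} (h : IsU ε) (J : ℕ) : IsU (ε ^ J) :=
  ⟨pow_ne_zero _ h.1, fun q => by
    have h1 := h.2 q
    rw [og] at *
    rw [ord_pow, h1, mul_zero]⟩

end KUAux

open KUAux

theorem kuS (hA : PartA σ σ') (hC : PartC σ σ') (hL : LatSt K) (hG : GSt σ σ') (hE : EigSt σ σ')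
    (hN : GenSt σ') : KUSt σ σ' := by
  intro S N ε hS hε hu
  obtain ⟨T, hT, hfam⟩ := exists_fam (σ := σ)
    (fun e => by have := hε.lt_one.trans hε.one_lt; rw [e] at this; exact lt_irrefl _ this) hN S N
  obtain ⟨D₀, h0⟩ := hT.bddBelow
  obtain ⟨D₁, h1⟩ := hT.bddAbove
  obtain ⟨n, hn, hn1⟩ := (hL.elat ∅ 0 (D₀ - D₁) ε hu.1).full 1
  have hn2 : ∀ D ∈ T, ∀ E, ∀ y ∈ lat S N (D + E), (n : K) * y ∈ lat S N (D₀ + E) := by
    intro D hD E y hy
    refine hL.mul S N _ _ _ _ (fun q _ => ?_) (fun q _ => ComplAux.pw_mono ?_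
      (by simpa using (mem_lat.1 hn1).2 q (by simp))) hy
    · rw [← nsmul_one]
      exact nsmul_mem (ComplAux.mem_pw_zero.2 (by simp)) n
    · have := h1 hD q
      simp only [Finsupp.add_apply]
      omega
  obtain ⟨b, hb⟩ : ∃ b : ℕ, ∀ q ∈ (D₁ - D₀).support, D₁ q - D₀ q ≤ b :=
    ⟨(D₁ - D₀).support.sup fun q => (D₁ q - D₀ q).natAbs, fun q hq => by
      have := Finset.le_sup (f := fun q => (D₁ q - D₀ q).natAbs) hq
      omega⟩
  obtain ⟨J, hJ, hr⟩ := (rayT K).pow (S ∪ (D₁ - D₀).support) (N + b) ε hu.1.1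
    fun q _ => hu.1.2 q
  have hJU := isU_pow hu.1 J
  have hst : ∀ D ∈ T, ∀ x ∈ Lam S N D, (ε ^ J - 1) * x ∈ lat S N D₀ := by
    intro D hD x hx
    refine mem_lat.2 ⟨fun q hq => ?_, fun q hq => ?_⟩
    · have h2 : x ∈ pw (q.valuation K) 0 := by
        rw [← sub_add_cancel x 1]
        exact add_mem (ComplAux.pw_mono (by omega) (hx.1 q hq)) (ComplAux.mem_pw_zero.2 (by simp))
      refine ComplAux.pw_mono ?_ (AR.pw_mul (hr.2 q (Finset.mem_union_left _ hq)) h2)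
      push_cast
      omega
    · have h2 := h1 hD q
      by_cases h3 : q ∈ (D₁ - D₀).support
      · refine ComplAux.pw_mono ?_ (AR.pw_mul (hr.2 q (Finset.mem_union_right _ h3)) (hx.2 q hq))
        have h4 := hb q h3
        push_cast
        omega
      · have h4 : ε ^ J - 1 ∈ pw (q.valuation K) 0 :=
          sub_mem (ComplAux.mem_pw_zero.2 (hJU.2 q).ge) (ComplAux.mem_pw_zero.2 (by simp))
        rw [Finsupp.notMem_support_iff, Finsupp.sub_apply] at h3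
        exact ComplAux.pw_mono (by omega) (AR.pw_mul h4 (hx.2 q hq))
  obtain ⟨B, hB⟩ := hE S N (ε ^ J) (hε.pow hJ) hJU
  refine ⟨J, max B n, hJ, fun p q q' hp hs O hO => ?_⟩
  obtain ⟨hp5, -, -, hD⟩ := hB p q q' (lt_of_le_of_lt (le_max_left _ _) hp) hs
  have hnp : Nat.Coprime n p := ((Nat.Prime.coprime_iff_not_dvd hs.1).2 fun h =>
    absurd (Nat.le_of_dvd (Nat.pos_of_ne_zero hn) h)
      (not_le.2 (lt_of_le_of_lt (le_max_right _ _) hp))).symm
  obtain ⟨s, t, h, h', he, hs1, ht1, -⟩ := hD D₀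
  obtain ⟨hun, hc⟩ := hC.cong (ε ^ J) _ (hε.pow hJ) (hL.elat S N D₀ _ hJU) p hs.1 hp5 s t h h'
    he.ps he.pt he.ind he.es he.et he.mul he.sq O hO
  have key : ∀ r : Pr K, (∀ D, ∀ y ∈ lat S N (D + pd r), (p : K) * y ∈ lat S N D) →
      (∀ x, (ε ^ J - 1) * x ∈ lat S N D₀ → Cg O (Fm σ σ' (ε ^ J) (lat S N (D₀ + pd r)) x)
        (Fm σ σ' (ε ^ J) (lat S N D₀) x ^ p)) →
      ∀ D, Cg O (FD σ σ' ε S N (D + pd r) ^ J) ((FD σ σ' ε S N D ^ J) ^ p) := by
    intro r hr1 hr2 D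
    obtain ⟨D', hD', a, ha, ha1, ha2, ha3⟩ := hfam D
    have e1 : ∀ E, FD σ σ' ε S N (D + E) = FD σ σ' ε S N (D' + E) := fun E => by
      rw [FD, FD, ← hG.pp S N ε (D' + E) a hS hε hu ha ha1 ha2, gD, gD,
        (hL.off S N (D + E) (D' + E + dv a) fun q hq => ?_).2]
      simp only [Finsupp.add_apply, dv_apply, ha3 q hq]
      ring
    have e2 := e1 0
    rw [add_zero, add_zero] at e2
    have m0 : ∀ D : Dv K, ∀ q ∉ S, D q ≤ (D + pd r) q := fun D q _ => by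
      rw [Finsupp.add_apply, Finsupp.single_apply]
      split_ifs <;> omega
    have m1 : ∀ E : Dv K, lat S N (D₀ + E) ≤ lat S N (D' + E) := fun E =>
      (hL.mono S N _ _ fun q _ => by
        have := h0 hD' q
        simp only [Finsupp.add_apply]
        omega).1
    have m2 := m1 0
    have n2 := hn2 D' hD' 0
    rw [add_zero, add_zero] at m2 n2
    obtain ⟨x₀, hx₀⟩ := hL.ne S N D'
    have hx₁ := (hL.mono S N _ _ (m0 D')).2 hx₀
    obtain ⟨X, hX⟩ := exists_reps (hL.elat S N D' ε hu.1).fg hn n2 x₀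
    have hX' := hX.up hnp (hL.mono S N _ _ (m0 D₀)).1 (hL.mono S N _ _ (m0 D')).1 (m1 _) m2 n2
      (hn2 D' hD' _) (hr1 _) (hr1 _)
    have hXs : ∀ x ∈ X, (ε ^ J - 1) * x ∈ lat S N D₀ := fun x hx =>
      hst D' hD' x (by rw [hL.coset S N D' x₀ hx₀]; exact hX.mem x hx)
    rw [e1, e2, FD, FD, gD, gD, hL.coset S N _ x₀ hx₁, hL.coset S N _ x₀ hx₀,
      hX.prod hA hε m2 hJ (hL.elat S N _ ε hu.1) (hL.stab S N _ ε hu x₀ hx₀)
        (hL.elat S N _ _ hJU) hXs,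
      hX'.prod hA hε (m1 _) hJ (hL.elat S N _ ε hu.1) (hL.stab S N _ ε hu x₀ hx₁)
        (hL.elat S N _ _ hJU) fun x hx => (hL.mono S N _ _ (m0 D₀)).1 (hXs x hx),
      ← Finset.prod_pow]
    exact cg_prod O X _ _ (fun x hx => hr2 x (hXs x hx)) fun x hx => by
      rw [map_pow, hun x (hXs x hx), one_pow]
  have hpm : ∀ (L : Submodule ℤ K) (s : K), (p : K) * s ∈ L →
      ∀ y ∈ L ⊔ Submodule.span ℤ {s}, (p : K) * y ∈ L := by
    intro L s h1 y hy
    obtain ⟨l, hl, z, hz, rfl⟩ := Submodule.mem_sup.1 hy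
    obtain ⟨i, rfl⟩ := Submodule.mem_span_singleton.1 hz
    rw [mul_add, mul_smul_comm, ← nsmul_eq_mul]
    exact L.add_mem (nsmul_mem hl p) (zsmul_mem h1 i)
  refine hc.imp (fun hc => key q (fun D y hy => ?_) ?_) fun hc => key q' (fun D y hy => ?_) ?_
  · obtain ⟨s, t, h, h', he, hs1, ht1, -⟩ := hD D
    exact hpm _ s he.ps y (hs1.symm ▸ hy)
  · rw [← hs1]
    exact hc
  · obtain ⟨s, t, h, h', he, hs1, ht1, -⟩ := hD D
    exact hpm _ t he.pt y (ht1.symm ▸ hy)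
  · rw [← ht1]
    exact hc

end Pool.Agent.StarkD
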