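import Pool.Agent.Lib.MP_ca56d1_nt.D.St
import Pool.Agent.Lib.MP_ca56d1_nt.C.Bal

/-! The congruence for the square root of a value in the exceptional case. -/

namespace Pool.Agent.StarkD

open NumberField IsDedekindDomain Pool.Agent.Stark Pool.Agent.Stark.AR Pool.Agent.RM StarkStmt
open scoped IsMulCommutative Classical nonZeroDivisors

namespace KXAux

theorem reps {G : Type} [Group G] [Fintype G] (u : G) : ∃ (ι : Type) (_ : Fintype ι) (r : ι → G),
    Fintype.card ι * orderOf u = Fintype.card G ∧ ∀ a : G → ℝ, (∀ g, a (g * u) = a g) →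
      ∑ g, a g = orderOf u * ∑ c, a (r c) := by
  let H := Subgroup.zpowers u
  have hH : Fintype.card H = orderOf u := by
    rw [← Nat.card_eq_fintype_card, Nat.card_zpowers]
  have hc : Fintype.card (G ⧸ H) * orderOf u = Fintype.card G := by
    rw [← Nat.card_eq_fintype_card, ← Nat.card_eq_fintype_card,
      Subgroup.card_eq_card_quotient_mul_card_subgroup H, Nat.card_zpowers]
  refine ⟨G ⧸ H, inferInstance, Quotient.out, hc, fun a ha => ?_⟩
  have h1 : ∀ g, ∀ h : H, a (g * h) = a g := by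
    rintro g ⟨h, hh⟩
    obtain ⟨n, rfl⟩ := mem_powers_iff_mem_zpowers.2 hh
    change a (g * u ^ n) = a g
    clear hh
    induction n with
    | zero => simp
    | succ n ih => rw [pow_succ, ← mul_assoc, ha, ih]
  have hb : Function.Bijective fun c : (G ⧸ H) × H => c.1.out * (c.2 : G) := by
    rw [Fintype.bijective_iff_injective_and_card, Fintype.card_prod, hH]
    refine ⟨?_, hc⟩
    rintro ⟨c, h⟩ ⟨c', h'⟩ e
    have e1 := congrArg (QuotientGroup.mk (s := H)) e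
    simp only [QuotientGroup.mk_mul_of_mem _ h.2, QuotientGroup.mk_mul_of_mem _ h'.2,
      QuotientGroup.out_eq'] at e1
    subst e1
    exact Prod.ext rfl (Subtype.ext (mul_left_cancel e))
  rw [← hb.sum_comp, Fintype.sum_prod_type, Finset.mul_sum]
  refine Finset.sum_congr rfl fun c _ => ?_
  simp only [h1, Finset.sum_const, Finset.card_univ, hH, nsmul_eq_mul]

theorem cg_prod {ι : Type} (O : ValuationSubring ℂ) (s : Finset ι) (a : ι → ℂ) {b : ℂ}
    (hb : O.valuation b ≤ 1) (h : ∀ i, Cg O (a i) b) : Cg O (∏ i ∈ s, a i) (b ^ s.card) := by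
  induction s using Finset.induction_on with
  | empty => simp [Cg]
  | insert i s hi ih =>
    rw [Finset.prod_insert hi, Finset.card_insert_of_notMem hi, Cg,
      show a i * ∏ j ∈ s, a j - b ^ (s.card + 1) =
        (a i - b) * (∏ j ∈ s, a j - b ^ s.card) + (b * (∏ j ∈ s, a j - b ^ s.card) +
          b ^ s.card * (a i - b)) by ring]
    refine Valuation.map_add_lt _ ?_ (Valuation.map_add_lt _ ?_ ?_) <;> rw [map_mul]
    · exact mul_lt_one_of_nonneg_of_lt_one_right (h i).le zero_le ih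
    · exact mul_lt_one_of_nonneg_of_lt_one_right hb zero_le ih
    · exact mul_lt_one_of_nonneg_of_lt_one_right (by rw [map_pow]; exact pow_le_one₀ zero_le hb)
        zero_le (h i)

theorem ord_even {p : ℕ} [Fact p.Prime] (hp : 5 ≤ p) {u : (ZMod p)ˣ} {m : ℕ}
    (h : (u : ZMod p) ^ m + 1 = 0) : ∃ n, n ≠ 0 ∧ orderOf u = 2 * n := by
  rcases Nat.even_or_odd' (orderOf u) with ⟨n, hn | hn⟩
  · refine ⟨n, fun h0 => (orderOf_pos u).ne' (by rw [hn, h0]), hn⟩
  · exfalso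
    have h1 : u ^ (m * 2) = 1 := Units.ext (by
      rw [Units.val_pow_eq_pow_val, pow_mul, eq_neg_of_add_eq_zero_left h]; simp)
    have h2 : orderOf u ∣ m := Nat.Coprime.dvd_of_dvd_mul_right
      (by rw [hn]; simp) (orderOf_dvd_of_pow_eq_one h1)
    rw [← Units.val_pow_eq_pow_val, orderOf_dvd_iff_pow_eq_one.1 h2] at h
    have h3 : ((2 : ℕ) : ZMod p) = 0 := by
      rw [← h]; norm_num
    have := Nat.le_of_dvd two_pos ((ZMod.natCast_eq_zero_iff 2 p).1 h3)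
    omega

theorem sum_units {p : ℕ} [Fact p.Prime] (a : ZMod p → ℝ) :
    ∑ i, a i = a 0 + ∑ g : (ZMod p)ˣ, a g := by
  rw [Fintype.sum_eq_add_sum_subtype_ne a 0]
  exact congrArg _ (Fintype.sum_equiv unitsEquivNeZero _ _ fun _ => rfl).symm

theorem root_arg {l : ℂ} (h : ∃ n : ℕ, n ≠ 0 ∧
    (Complex.exp l / (starRingEnd ℂ) (Complex.exp l)) ^ n = 1) :
    IsOfFinOrder (Complex.exp l / Real.exp l.re) := by
  obtain ⟨n, hn, h⟩ := h
  refine isOfFinOrder_iff_pow_eq_one.2 ⟨2 * n, by omega, ?_⟩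
  rw [pow_mul, ← h]
  congr 1
  rw [← Complex.exp_conj, Complex.ofReal_exp, ← Complex.exp_sub, ← Complex.exp_sub,
    ← Complex.exp_nat_mul, Complex.re_eq_add_conj]
  congr 1
  push_cast
  ring

section Core

variable {K : Type} [Field K] {σ σ' : K →+* ℝ}

theorem coset_congr {L : Submodule ℤ K} {x y : K} (h : x - y ∈ L) : coset L x = coset L y := by
  ext z
  change z - x ∈ L ↔ z - y ∈ L
  rw [show z - y = z - x + (x - y) by ring, L.add_mem_iff_left h]

theorem pow_fix {ε x : K} {L : Submodule ℤ K} (hL : ELat ε L) (hx : (ε - 1) * x ∈ L) (n : ℕ) :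
    (ε ^ n - 1) * x ∈ L := by
  simpa [sub_mul] using BalAux.eig_pow hL (s := x) (η := 1) (by simpa [sub_mul] using hx) n

theorem union_coset {L : Submodule ℤ K} {s : K} {p : ℕ} [NeZero p] (hs : (p : K) * s ∈ L) (x : K) :
    ⋃ i ∈ (Finset.univ : Finset (ZMod p)), coset L (x + ((i.val : ℤ) : K) * s) =
      coset (L ⊔ Submodule.span ℤ {s}) x := by
  ext z
  simp only [Finset.mem_univ, Set.iUnion_true, Set.mem_iUnion]
  constructor
  · rintro ⟨i, hi⟩
    change z - x ∈ L ⊔ Submodule.span ℤ {s}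
    rw [show z - x = z - (x + ((i.val : ℤ) : K) * s) + ((i.val : ℤ) : K) * s by ring]
    exact Submodule.add_mem_sup hi (BalAux.zmul _ (Submodule.mem_span_singleton_self s))
  · intro hz
    obtain ⟨y, hy, w, hw, e⟩ := Submodule.mem_sup.1 hz
    obtain ⟨a, rfl⟩ := Submodule.mem_span_singleton.1 hw
    refine ⟨a, ?_⟩
    have h1 := BalAux.dvd_mem hs ((ZMod.intCast_eq_intCast_iff_dvd_sub
      ((a : ZMod p).val : ℤ) a p).1 (by simp))
    change _ - _ ∈ L
    convert L.add_mem hy h1 using 1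
    rw [zsmul_eq_mul] at e
    rw [Int.cast_sub]
    linear_combination -e

theorem core (hA : PartA σ σ') (hC : PartC σ σ')
    (cj : ∀ ε Λ, Eps σ σ' ε → Lat Λ → Stab ε Λ → 0 ∉ Λ → ∀ u : K, σ u < 0 → 0 < σ' u →
      LX σ σ' ε {y | u * y ∈ Λ} = (starRingEnd ℂ) (LX σ σ' ε Λ))
    (root : ∀ ε L x, Eps σ σ' ε → ELat ε L → (ε - 1) * x ∈ L → x ∉ L →
      ∃ n : ℕ, n ≠ 0 ∧ (Fm σ σ' ε L x / (starRingEnd ℂ) (Fm σ σ' ε L x)) ^ n = 1)
    {η x s : K} {L : Submodule ℤ K} {p : ℕ} {k : ℤ} (hp : p.Prime) (h5 : 5 ≤ p)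
    (hε : Eps σ σ' (η ^ 2)) (h1 : σ η < 0) (h2 : 0 < σ' η) (hL : ELat η L)
    (hL' : ELat η (L ⊔ Submodule.span ℤ {s})) (hx : (η - 1) * x ∈ L)
    (hx' : x ∉ L ⊔ Submodule.span ℤ {s}) (hs : (p : K) * s ∈ L)
    (hi : ∀ a : ℤ, (a : K) * s ∈ L → (p : ℤ) ∣ a) (hk : η * s - k * s ∈ L)
    (hm : (p : ℤ) ∣ k ^ ((p - 1) / 2) + 1) :
    ∃ n : ℕ, n ≠ 0 ∧ (p : ℤ) ∣ (k ^ 2) ^ n - 1 ∧
      (∀ j : ℕ, 0 < j → j < n → ¬ (p : ℤ) ∣ (k ^ 2) ^ j - 1) ∧ ∃ ζ : ℂ, IsOfFinOrder ζ ∧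
      ∀ O : ValuationSubring ℂ, O.valuation p < 1 →
        (∀ i : ℤ, Cg O (Fm σ σ' ((η ^ 2) ^ n) L (x + i * s)) (Fm σ σ' ((η ^ 2) ^ n) L x)) →
        Cg O ((Real.exp ((LX σ σ' (η ^ 2) (coset L x)).re / 2) : ℂ) ^ p)
          (ζ * Real.exp ((LX σ σ' (η ^ 2) (coset (L ⊔ Submodule.span ℤ {s}) x)).re / 2)) := by
  have := Fact.mk hp
  have hm' : (k : ZMod p) ^ ((p - 1) / 2) + 1 = 0 := by
    simpa using (ZMod.intCast_zmod_eq_zero_iff_dvd _ p).2 hm
  have hk0 : (k : ZMod p) ≠ 0 := fun h => by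
    rw [h, zero_pow (by omega), zero_add] at hm'
    exact one_ne_zero hm'
  obtain ⟨n, hn, ho⟩ := ord_even h5 (u := Units.mk0 _ hk0) hm'
  have hd : ∀ j : ℕ, (p : ℤ) ∣ (k ^ 2) ^ j - 1 ↔ n ∣ j := fun j => by
    rw [← ZMod.intCast_zmod_eq_zero_iff_dvd, ← Nat.mul_dvd_mul_iff_left two_pos, ← ho,
      orderOf_dvd_iff_pow_eq_one, Units.ext_iff]
    simp [sub_eq_zero, pow_mul]
  refine ⟨n, hn, (hd n).2 dvd_rfl, fun j h h' h'' =>
    absurd (Nat.le_of_dvd h ((hd j).1 h'')) (by omega), ?_⟩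
  have hε' := hε.pow hn
  have hL2 := BalAux.elat_pow hL 2
  have hLn := BalAux.elat_pow hL2 n
  have hx2 := pow_fix hL hx 2
  have hxi : ∀ i : ℤ, ((η ^ 2) ^ n - 1) * (x + i * s) ∈ L := fun i => by
    have h3 := BalAux.eig_pow hL2 (BalAux.eig_pow hL hk 2) n
    have h4 := BalAux.dvd_mem hs ((hd n).2 dvd_rfl)
    convert L.add_mem (pow_fix hL2 hx2 n) (BalAux.zmul i (L.add_mem h3 h4)) using 1
    push_cast
    ring
  have hxn : ∀ i : ℤ, x + i * s ∉ L := fun i h => hx' (by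
    rw [show x = x + i * s + (-i : ℤ) * s by push_cast; ring]
    exact Submodule.add_mem_sup h (BalAux.zmul _ (Submodule.mem_span_singleton_self s)))
  let l : ℤ → ℂ := fun i => LX σ σ' ((η ^ 2) ^ n) (coset L (x + i * s))
  have hl : ∀ i j : ℤ, (j : ZMod p) = i * k → l i = (starRingEnd ℂ) (l j) := fun i j h => by
    rw [← cj _ _ hε' (coset_lat hL _) (coset_stab hLn (hxi j))
      (fun h0 => hxn j (by simpa [coset] using L.neg_mem h0)) η h1 h2]
    refine congrArg (LX σ σ' _) (Set.ext fun y => ?_)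
    change y - _ ∈ L ↔ η * y - _ ∈ L
    have h3 := BalAux.dvd_mem hs ((ZMod.intCast_eq_intCast_iff_dvd_sub j (i * k) p).1 (by simpa))
    rw [← hL.stab, ← L.add_mem_iff_left (L.add_mem hx (L.add_mem (BalAux.zmul i hk) h3))]
    refine Eq.to_iff (congrArg _ ?_)
    push_cast
    ring
  obtain ⟨ι, _, r, hc, hr⟩ := reps (Units.mk0 _ hk0)
  rw [ho, ZMod.card_units] at hc
  have hs1 := hr (fun g => (l (g : ZMod p).val).re) fun g => by
    rw [hl (g : ZMod p).val ((g * Units.mk0 _ hk0 : (ZMod p)ˣ) : ZMod p).val (by simp), Complex.conj_re]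
  have hs2 := hA.union _ hε' Finset.univ (fun i : ZMod p => coset L (x + ((i.val : ℤ) : K) * s))
    (fun i _ => coset_lat hL _) (fun i _ => coset_stab hLn (hxi _)) fun i _ j _ hij =>
      Set.disjoint_left.2 fun y hy hy' => hij (by
        have h3 := (ZMod.intCast_eq_intCast_iff_dvd_sub (i.val : ℤ) (j.val : ℤ) p).2 (hi _ (by
          convert L.sub_mem hy hy' using 1
          push_cast
          ring))
        simpa using h3)
  have hL2' := BalAux.elat_pow hL' 2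
  rw [union_coset hs, hA.pow _ _ hε (coset_lat hL' _)
    (coset_stab hL2' (Submodule.mem_sup_left hx2)) n hn] at hs2
  have hl0 : l 0 = n * LX σ σ' (η ^ 2) (coset L x) := by
    rw [← hA.pow _ _ hε (coset_lat hL _) (coset_stab hL2 hx2) n hn]
    simp [l]
  have hn' : (n : ℝ) ≠ 0 := by exact_mod_cast hn
  have hre : ((LX σ σ' (η ^ 2) (coset L x)).re : ℂ) = LX σ σ' (η ^ 2) (coset L x) := by
    have h3 := hl 0 0 (by simp)
    rw [hl0, map_mul, map_natCast, mul_right_inj' (by exact_mod_cast hn)] at h3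
    exact Complex.conj_eq_iff_re.1 h3.symm
  have hs3 : (LX σ σ' (η ^ 2) (coset (L ⊔ Submodule.span ℤ {s}) x)).re / 2 =
      (LX σ σ' (η ^ 2) (coset L x)).re / 2 + ∑ c, (l (r c : ZMod p).val).re := by
    have h3 := congrArg Complex.re hs2
    rw [Complex.re_sum, sum_units fun i => (l i.val).re, hs1, ho, ZMod.val_zero, Nat.cast_zero,
      hl0] at h3
    simp only [Complex.mul_re, Complex.natCast_re, Complex.natCast_im, zero_mul, sub_zero,
      Nat.cast_mul, Nat.cast_ofNat] at h3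
    refine mul_left_cancel₀ hn' ?_
    linear_combination h3 / 2
  refine ⟨∏ c, Complex.exp (l (r c : ZMod p).val) / Real.exp (l (r c : ZMod p).val).re,
    Finset.prod_induction _ _ (fun _ _ => IsOfFinOrder.mul) IsOfFinOrder.one fun c _ =>
      root_arg (root _ _ _ hε' hLn (hxi _) (hxn _)), fun O hO h => ?_⟩
  obtain ⟨V, hV⟩ : ∃ V : ℂ, V = Real.exp ((LX σ σ' (η ^ 2) (coset L x)).re / 2) := ⟨_, rfl⟩
  have hV2 : V ^ 2 = Fm σ σ' (η ^ 2) L x := by
    rw [hV, Fm, ← hre, Complex.ofReal_exp, ← Complex.exp_nat_mul, Complex.ofReal_re]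
    congr 1
    push_cast
    ring
  have hV1 : O.valuation V = 1 := by
    have h3 := hC.unit _ _ hε hL2 p hp O hO x hx2
    rwa [← hV2, map_pow, pow_eq_one_iff_of_nonneg zero_le two_ne_zero] at h3
  have hVn : Fm σ σ' ((η ^ 2) ^ n) L x = V ^ (2 * n) := by
    rw [pow_mul, hV2, Fm, Fm, ← Complex.exp_nat_mul, ← hl0]
    simp [l]
  have h3 := cg_prod O Finset.univ (fun c => Complex.exp (l (r c : ZMod p).val))
    (b := V ^ (2 * n)) (by rw [map_pow, hV1, one_pow]) fun c => hVn ▸ h _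
  rw [Finset.card_univ, ← pow_mul, mul_comm, hc] at h3
  rw [hs3, Real.exp_add, Real.exp_sum, Complex.ofReal_mul, Complex.ofReal_prod, ← hV,
    mul_left_comm, ← Finset.prod_mul_distrib,
    Finset.prod_congr rfl fun c _ => div_mul_cancel₀ _ (by simp), Cg,
    show V ^ p = V * V ^ (p - 1) by rw [← pow_succ', Nat.sub_add_cancel hp.pos], ← mul_sub,
    map_mul, hV1, one_mul, Valuation.map_sub_swap]
  exact h3

end Core

end KXAux

variable {K : Type} [Field K] [NumberField K] {σ σ' : K →+* ℝ}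

theorem kxS (hA : PartA σ σ') (hC : PartC σ σ') (hL : LatSt K) (hG : GSt σ σ') (hE : EigSt σ σ')
    (hb : Both σ σ') (hT : TySt σ σ') : KXSt σ σ' := by
  intro S N η hS hη h1 h2 hε
  have hu : ∀ n : ℕ, IsU (η ^ n) := fun n => ⟨pow_ne_zero _ hη.1.1, fun q => by
    rw [og, ord_pow, ← og, hη.1.2, mul_zero]⟩
  have hη2 : RU S N (η ^ 2) := ⟨hu 2, by rw [sq]; exact hη.2.mul hη.2⟩
  obtain ⟨B, hB⟩ := hE S N _ hε (hu 2)
  refine ⟨B, fun p q q' hp hq hm D => ?_⟩
  obtain ⟨h5, -, hq2, hD⟩ := hB p q q' hp hq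
  obtain ⟨s, t, h, h', he, e1, e2, -⟩ := hD D
  obtain ⟨x, hx⟩ := hL.ne S N D
  have hl := hL.elat S N D η hη.1
  have hl' := hL.elat S N (D + pd q) η hη.1
  have hs : s ∈ lat S N (D + pd q) :=
    e1 ▸ Submodule.mem_sup_right (Submodule.mem_span_singleton_self s)
  obtain ⟨k, hk⟩ : ∃ k : ℤ, η * s - k * s ∈ lat S N D := by
    have h3 := (hl'.stab s).2 hs
    rw [← e1] at h3
    obtain ⟨y, hy, w, hw, e⟩ := Submodule.mem_sup.1 h3
    obtain ⟨a, rfl⟩ := Submodule.mem_span_singleton.1 hw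
    exact ⟨a, by rwa [← e, zsmul_eq_mul, add_sub_cancel_right]⟩
  have hi : ∀ a : ℤ, (a : K) * s ∈ lat S N D → (p : ℤ) ∣ a := fun a ha =>
    (he.ind a 0 (by simpa using ha)).1
  have hm' : (p : ℤ) ∣ k ^ ((p - 1) / 2) + 1 := hi _ (by
    have h0 : ∀ r : Pr K, η ^ ((p - 1) / 2) + 1 ∈ pw (r.valuation K) 0 := fun r =>
      add_mem (ComplAux.mem_pw_zero.2 ((hu _).2 r).ge) (ComplAux.mem_pw_zero.2 (by simp))
    have h3 := hL.mul S N (D + pd q) D _ s (fun r _ => h0 r) (fun r _ => by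
      by_cases hr : r = q
      · subst hr
        simpa using hm
      · simpa [Finsupp.single_eq_of_ne hr] using h0 r) hs
    convert (lat S N D).sub_mem h3 (BalAux.eig_pow hl hk ((p - 1) / 2)) using 1
    push_cast
    ring)
  have hh : (p : ℤ) ∣ k ^ 2 - h := hi _ (by
    convert (lat S N D).sub_mem he.es (BalAux.eig_pow hl hk 2) using 1
    push_cast
    ring)
  obtain ⟨n, hn, h3, h4, ζ, hζ, h6⟩ := KXAux.core hA hC hG.cj hG.root hq.1 h5 hε h1 h2 hl
    (e1 ▸ hl') (hL.stab S N D η hη x hx) (e1 ▸ hL.notMem S N D _ hS x hx) he.ps hi hk hm'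
  have he' : Eig (η ^ 2) p (lat S N D) s t (k ^ 2) h' :=
    ⟨he.ps, he.pt, he.ind, BalAux.eig_pow hl hk 2, he.et,
      by simpa [sub_mul] using (hh.mul_right h').add he.mul,
      fun h7 => he.sq (by
        rw [show h ^ 2 - 1 = (k ^ 2) ^ 2 - 1 - (k ^ 2 - h) * (k ^ 2 + h) by ring]
        exact h7.sub (hh.mul_right _))⟩
  obtain ⟨m, hm0, hζ'⟩ := isOfFinOrder_iff_pow_eq_one.1 hζ
  refine ⟨ζ, m, hm0.ne', hζ', fun O hO => ?_⟩
  rcases hb _ _ hε (hL.elat S N D _ (hu 2)) p hq.1 h5 s t _ h' he' n hn h3 h4 O hO with h7 | h7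
  · rw [gD, gD, hL.coset S N D x hx, hL.coset S N (D + pd q) x ((hL.mono S N D _ fun r _ =>
      le_add_of_nonneg_right (Finsupp.single_nonneg.2 zero_le_one r)).2 hx), ← e1]
    exact Or.inl (h6 O hO (h7 x (hL.stab S N D _ hη2 x hx)))
  · exact Or.inr (hT S N _ D O p q' hS hε hη2 hq.1 hO hq2 (e2 ▸ h7))

end Pool.Agent.StarkD
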