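import Pool.Agent.Lib.MP_ca56d1_nt.D.St

/-! Separation of algebraic numbers and of signs of roots of unity modulo a prime. -/

namespace Pool.Agent.StarkD

namespace SepAux

variable {O : ValuationSubring ℂ} {p : ℕ}

theorem ml {a b : O.ValueGroup} (ha : a ≤ 1) (hb : b < 1) : a * b < 1 :=
  lt_of_le_of_lt (mul_le_of_le_one_left' ha) hb

theorem int_le (n : ℤ) : O.valuation n ≤ 1 := (O.valuation_le_one_iff _).2 (intCast_mem O n)

theorem not_lt_of_coprime (h : O.valuation p < 1) {n : ℤ} (hn : IsCoprime (p : ℤ) n) :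
    ¬ O.valuation n < 1 := by
  intro hlt
  obtain ⟨a, b, hab⟩ := hn
  have e : (1 : ℂ) = a * p + b * n := by exact_mod_cast hab.symm
  have h1 : O.valuation ((a : ℂ) * p) < 1 := by
    rw [map_mul]
    exact ml (int_le a) h
  have h2 : O.valuation ((b : ℂ) * n) < 1 := by
    rw [map_mul]
    exact ml (int_le b) hlt
  have := O.valuation.map_add_lt h1 h2
  rw [← e, map_one] at this
  exact lt_irrefl _ this

theorem pow_sub {x y : ℂ} (hx : O.valuation x ≤ 1) (hy : O.valuation y ≤ 1)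
    (h : O.valuation (x - y) < 1) (n : ℕ) : O.valuation (x ^ n - y ^ n) < 1 := by
  induction n with
  | zero => simp
  | succ n ih =>
    have e : x ^ (n + 1) - y ^ (n + 1) = x * (x ^ n - y ^ n) + y ^ n * (x - y) := by ring
    rw [e]
    refine O.valuation.map_add_lt ?_ ?_
    · rw [map_mul]
      exact ml hx ih
    · rw [map_mul, map_pow]
      exact ml (pow_le_one' hy n) h

theorem root_le {x : ℂ} {n : ℕ} (hn : n ≠ 0) (h : x ^ n = 1) : O.valuation x ≤ 1 := by
  by_contra hx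
  have h1 : 1 < O.valuation x ^ n := one_lt_pow' (not_le.1 hx) hn
  rw [← map_pow, h, map_one] at h1
  exact lt_irrefl _ h1

theorem exists_int {z : ℂ} (hz : IsAlgebraic ℚ z) :
    ∃ n : ℤ, n ≠ 0 ∧ ∀ O : ValuationSubring ℂ, O.valuation z < 1 → z ≠ 0 → O.valuation n < 1 := by
  by_cases h0 : z = 0
  · exact ⟨1, one_ne_zero, fun _ _ h => absurd h0 h⟩
  have hz' : IsAlgebraic ℤ z := (IsFractionRing.isAlgebraic_iff ℤ ℚ ℂ).2 hz
  obtain ⟨t, ht, r, hr, e⟩ := hz'.exists_nonzero_eq_adjoin_mul (mem_nonZeroDivisors_of_ne_zero h0)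
  refine ⟨r, hr, fun O hO _ => ?_⟩
  have hzO : z ∈ O := (O.valuation_le_one_iff _).1 hO.le
  have htO : t ∈ O := by
    clear e
    induction ht using Algebra.adjoin_induction with
    | mem x hx => rw [Set.mem_singleton_iff.1 hx]; exact hzO
    | algebraMap r => exact intCast_mem O r
    | add x y _ _ hx hy => exact add_mem hx hy
    | mul x y _ _ hx hy => exact mul_mem hx hy
  have e' : (r : ℂ) = t * z := by rw [mul_comm, e]; rfl
  rw [e', map_mul]
  exact ml ((O.valuation_le_one_iff _).2 htO) hO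

end SepAux

open SepAux

theorem sepS : SepSt := by
  intro T hT halg
  choose! n hn0 hn using fun z (hz : z ∈ T) => exists_int (halg z hz)
  obtain ⟨B, hB⟩ := (hT.image fun z => (n z).natAbs).bddAbove
  refine ⟨B, fun p hp hBp O hO z hz hv => ?_⟩
  by_contra h0
  refine not_lt_of_coprime hO ?_ (hn z hz O hv h0)
  have hle : (n z).natAbs ≤ B := hB ⟨z, hz, rfl⟩
  refine (Nat.prime_iff_prime_int.1 hp).irreducible.coprime_iff_not_dvd.2 fun hd => ?_
  have h1 : p ∣ (n z).natAbs := Int.natCast_dvd.1 hd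
  have h2 := Nat.le_of_dvd (Int.natAbs_pos.2 (hn0 z hz)) h1
  omega

theorem rootS : RootSt := by
  intro p n ζ O O' hp h2 hn hζ hO hO' h1 h1'
  obtain ⟨k, m, hm, rfl⟩ := Nat.exists_eq_pow_mul_and_not_dvd hn p hp.ne_one
  have hcop : ∀ a : ℕ, ¬ p ∣ a → IsCoprime (p : ℤ) (a : ℤ) := fun a ha =>
    Nat.isCoprime_iff_coprime.2 (hp.coprime_iff_not_dvd.2 ha)
  have hx1 : ζ ^ p ^ k = 1 := by
    by_contra hne
    have hxm : (ζ ^ p ^ k) ^ m = 1 := by rw [← pow_mul, hζ]
    have hs : ∑ i ∈ Finset.range m, (ζ ^ p ^ k) ^ i = 0 := by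
      have := geom_sum_mul (ζ ^ p ^ k) m
      rw [hxm, sub_self] at this
      exact (mul_eq_zero.1 this).resolve_right (sub_ne_zero.2 hne)
    have hv : O.valuation (∑ i ∈ Finset.range m, ((ζ ^ p ^ k) ^ i - 1)) < 1 := by
      refine O.valuation.map_sum_lt one_ne_zero fun i _ => ?_
      have := pow_sub (root_le hn hζ) (map_one O.valuation).le h1 (p ^ k * i)
      rwa [one_pow, pow_mul] at this
    rw [Finset.sum_sub_distrib, hs, zero_sub, Valuation.map_neg] at hv
    refine not_lt_of_coprime hO (hcop m hm) ?_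
    simpa using hv
  have hodd : Odd (p ^ k) := (hp.odd_of_ne_two h2).pow
  have hv := pow_sub (root_le hn hζ) (by simp) h1' (p ^ k)
  rw [hx1, hodd.neg_one_pow] at hv
  have hp2 : ¬ p ∣ 2 := fun hd => h2 ((Nat.prime_dvd_prime_iff_eq hp Nat.prime_two).1 hd)
  refine not_lt_of_coprime hO' (hcop 2 hp2) ?_
  have e : (((2 : ℕ) : ℤ) : ℂ) = 1 - -1 := by norm_num
  rwa [e]

end Pool.Agent.StarkD
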