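import Pool.Agent.Lib.MP_ca56d1_nt.D.Sys
import Pool.Agent.Lib.MP_ca56d1_nt.D.Asm
import Pool.Agent.Lib.MP_ca56d1_nt.D.Abs
import Pool.Agent.Lib.MP_ca56d1_nt.D.Act
import Pool.Agent.Lib.MP_ca56d1_nt.D.ArtH
import Pool.Agent.Lib.MP_ca56d1_nt.D.Eig
import Pool.Agent.Lib.MP_ca56d1_nt.D.End
import Pool.Agent.Lib.MP_ca56d1_nt.D.Fin
import Pool.Agent.Lib.MP_ca56d1_nt.D.Fld
import Pool.Agent.Lib.MP_ca56d1_nt.D.Frame
import Pool.Agent.Lib.MP_ca56d1_nt.D.G
import Pool.Agent.Lib.MP_ca56d1_nt.D.KU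
import Pool.Agent.Lib.MP_ca56d1_nt.D.KX
import Pool.Agent.Lib.MP_ca56d1_nt.D.LatH
import Pool.Agent.Lib.MP_ca56d1_nt.D.Sep
import Pool.Agent.Lib.MP_ca56d1_nt.D.Sign
import Pool.Agent.Lib.MP_ca56d1_nt.D.UGen
import Pool.Agent.Lib.MP_ca56d1_nt.B.All
import Pool.Agent.Lib.MP_ca56d1_nt.C.Main

/-! The rank one abelian Stark conjecture for real quadratic fields. -/

namespace Pool.Agent.StarkD

open NumberField IsDedekindDomain Pool.Agent.Stark Pool.Agent.Stark.AR Pool.Agent.RM StarkStmt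
open scoped IsMulCommutative Classical nonZeroDivisors

variable {K : Type} [Field K] [NumberField K] {σ σ' : K →+* ℝ}
  {H : Type} [Field H] [NumberField H] [Algebra K H] [IsAbelianGalois K H]

theorem sys_of (h : RQ σ σ') : SysSt σ σ' :=
  have hA := partA h
  have hB := partB h
  have hC := partC h hB
  have hG := gS hA hB LatH.latS
  have hE := eigS h LatH.latS
  have hT := tyS hA hC LatH.latS hG
  sysS hC LatH.latS hG hE (unitS h) hT (kuS hA hC LatH.latS hG hE (genS h))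
    (kxS hA hC LatH.latS hG hE (bothS hC) hT) (czS h hA LatH.latS) h.ne

theorem stark_rq (h2 : Module.finrank ℚ K = 2) (S : Finset (Pr K)) (hS : S.Nonempty)
    (hU : UnrO H S) (P : InfinitePlace H) (hP : P.IsReal) : Stark K S P := by
  obtain ⟨φ, rfl⟩ := exists_plc hP
  obtain ⟨σ', h⟩ := exists_rq h2 (φ.comp (algebraMap K H))
  exact asm h.ne (sys_of h) (genS h) ArtH.artS (signS h) (ArtH.zetaS ArtH.artS) fldS (frobS h)
    (actS absS sepS rootS (genS h) ArtH.artS) (finS ArtH.artS) (endS h) S hS hU φ rfl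

end Pool.Agent.StarkD
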