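import Pool.Agent.Lib.MP_ca56d1_nt.D.Defs

/-! Statements of the steps of the reciprocity law for real multiplication values. -/

namespace Pool.Agent.StarkD

open NumberField IsDedekindDomain Pool.Agent.Stark Pool.Agent.Stark.AR Pool.Agent.RM StarkStmt
open scoped IsMulCommutative Classical nonZeroDivisors

/-! ### Abstract lemmas -/

/-- The group theoretic core. -/
def AbsSt : Prop :=
  ∀ {Γ C G M ι : Type} [Group Γ] [AddCommGroup C] [CommGroup G] [Field M] [MulSemiringAction Γ M]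
    (u : C → M) (ar : C → G) (r₁ r₂ : Γ →* G) (ρ : Γ) (Y : Subgroup Γ) (P : AddSubgroup C)
    (Fb : Γ → ι → Prop) (q q' : ι → C),
    (∀ a b, ar (a + b) = ar a * ar b) → ρ ∉ Y → (∀ c, ρ • u c = u c) →
    (∀ γ, ∃ φ i, Fb φ i ∧ Subgroup.zpowers φ = Subgroup.zpowers γ) →
    (∀ φ i, Fb φ i → r₁ φ = ar (q i) ∧ r₂ φ = ar (q' i) ∧ q i + q' i ∈ P) →
    (∀ φ i δ, Fb φ i → Fb (δ * φ * δ⁻¹) i) →
    (∀ T : AddSubgroup C, P ≤ T → (∀ φ i, Fb φ i → q i ∈ T) → T = ⊤) →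
    (∀ φ i, Fb φ i → (∀ c, φ • u c ^ 2 = u (c + q i) ^ 2) ∨ ∀ c, φ • u c ^ 2 = u (c + q' i) ^ 2) →
    (∀ φ φ' i, Fb φ i → Fb φ' i → φ ∉ Y → ∀ c, φ • u c = φ' • u c ∨
      (∀ l ∈ P, φ • u (c + l) ^ 2 = u (c + l + q' i) ^ 2) ∨
      (∀ l ∈ P, φ' • u (c + l) ^ 2 = u (c + l + q' i) ^ 2)) →
    (∃ a, ar a = r₂ ρ ∧ ∀ c, u (c + a) ^ 2 = u c ^ 2) ∨
    ((∀ γ, ∃ a, ar a = r₁ γ ∧ ∀ c, γ • u c ^ 2 = u (c + a) ^ 2) ∧
      ∀ (γ δ : Γ) c, γ • δ • u c = δ • γ • u c)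

/-- Finitely many algebraic numbers stay nonzero modulo all large primes. -/
def SepSt : Prop :=
  ∀ T : Set ℂ, T.Finite → (∀ z ∈ T, IsAlgebraic ℚ z) → ∃ B : ℕ, ∀ p : ℕ, p.Prime → B < p →
    ∀ O : ValuationSubring ℂ, O.valuation p < 1 → ∀ z ∈ T, O.valuation z < 1 → z = 0

/-- A root of unity has a well defined sign modulo an odd prime. -/
def RootSt : Prop :=
  ∀ (p n : ℕ) (ζ : ℂ) (O O' : ValuationSubring ℂ), p.Prime → p ≠ 2 → n ≠ 0 → ζ ^ n = 1 →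
    O.valuation p < 1 → O'.valuation p < 1 → Cg O ζ 1 → Cg O' ζ (-1) → False

/-! ### Lattices -/

section One

variable (K : Type) [Field K] [NumberField K]

/-- Elementary properties of the lattices. -/
structure LatSt : Prop where
  elat : ∀ (S : Finset (Pr K)) N D (ε : K), IsU ε → ELat ε (lat S N D)
  ne : ∀ (S : Finset (Pr K)) N D, (Lam S N D).Nonempty
  coset : ∀ (S : Finset (Pr K)) N D, ∀ x ∈ Lam S N D, Lam S N D = coset (lat S N D) x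
  stab : ∀ (S : Finset (Pr K)) N D (u : K), RU S N u → ∀ x ∈ Lam S N D, (u - 1) * x ∈ lat S N D
  notMem : ∀ (S : Finset (Pr K)) N D D', S.Nonempty → ∀ x ∈ Lam S N D, x ∉ lat S N D'
  off : ∀ (S : Finset (Pr K)) N (D D' : Dv K), (∀ q ∉ S, D q = D' q) →
    lat S N D = lat S N D' ∧ Lam S N D = Lam S N D'
  mono : ∀ (S : Finset (Pr K)) N (D D' : Dv K), (∀ q ∉ S, D q ≤ D' q) →
    lat S N D ≤ lat S N D' ∧ Lam S N D ⊆ Lam S N D'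
  smul_lat : ∀ (S : Finset (Pr K)) N D (a : K), PS S a →
    ∀ y, y ∈ lat S N (D + dv a) ↔ a * y ∈ lat S N D
  smul_Lam : ∀ (S : Finset (Pr K)) N D (a : K), Ray S N a →
    Lam S N (D + dv a) = {y | a * y ∈ Lam S N D}
  mul : ∀ (S : Finset (Pr K)) N (D D' : Dv K) (a y : K), (∀ q ∈ S, a ∈ pw (q.valuation K) 0) →
    (∀ q ∉ S, a ∈ pw (q.valuation K) (D q - D' q)) → y ∈ lat S N D → a * y ∈ lat S N D'

variable {K} (σ σ' : K →+* ℝ)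

/-- The group of ray units positive at `σ'` is infinite cyclic. -/
def UnitSt : Prop := ∀ (S : Finset (Pr K)) (N : ℕ), ∃ η, UGen σ σ' S N η

/-- Eigenvectors at a large split prime. -/
def EigSt : Prop :=
  ∀ (S : Finset (Pr K)) (N : ℕ) (ε : K), Eps σ σ' ε → IsU ε → ∃ B : ℕ, ∀ p q q', B < p →
    Spl p q q' → 5 ≤ p ∧ q ∉ S ∧ q' ∉ S ∧ ∀ D, ∃ (s t : K) (h h' : ℤ),
      Eig ε p (lat S N D) s t h h' ∧ lat S N D ⊔ Submodule.span ℤ {s} = lat S N (D + pd q) ∧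
      lat S N D ⊔ Submodule.span ℤ {t} = lat S N (D + pd q') ∧ ε - h ∈ pw (q.valuation K) 1

/-- Finiteness and generation of the ray class group. -/
structure GenSt : Prop where
  fin : ∀ (S : Finset (Pr K)) (N : ℕ), Finite (Cl σ' S N)
  gen : ∀ (S : Finset (Pr K)) (N B : ℕ) (T : AddSubgroup (Cl σ' S N)), PP σ' S N ≤ T →
    (∀ p q q', B < p → Spl p q q' → cls σ' S N (pd q) ∈ T) → T = ⊤

/-- Invariance along `s` at the exact level, or the congruence along `t`. -/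
def Both : Prop :=
  ∀ ε L, Eps σ σ' ε → ELat ε L → ∀ p : ℕ, p.Prime → 5 ≤ p → ∀ (s t : K) (h h' : ℤ),
    Eig ε p L s t h h' → ∀ n : ℕ, n ≠ 0 → (p : ℤ) ∣ h ^ n - 1 →
    (∀ k : ℕ, 0 < k → k < n → ¬ (p : ℤ) ∣ h ^ k - 1) →
    ∀ O : ValuationSubring ℂ, O.valuation p < 1 →
      (∀ x, (ε - 1) * x ∈ L → ∀ i : ℤ,
        Cg O (Fm σ σ' (ε ^ n) L (x + i * s)) (Fm σ σ' (ε ^ n) L x)) ∨
      (∀ x, (ε - 1) * x ∈ L →
        Cg O (Fm σ σ' ε (L ⊔ Submodule.span ℤ {t}) x) (Fm σ σ' ε L x ^ p))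

/-- Transformation rules of the values. -/
structure GSt : Prop where
  pp : ∀ S N ε D a, S.Nonempty → Eps σ σ' ε → RU S N ε → Ray S N a → 0 < σ a → 0 < σ' a →
    gD σ σ' ε S N (D + dv a) = gD σ σ' ε S N D
  pn : ∀ S N ε D a, S.Nonempty → Eps σ σ' ε → RU S N ε → Ray S N a → 0 < σ a → σ' a < 0 →
    gD σ σ' ε S N (D + dv a) = -gD σ σ' ε S N D
  np : ∀ S N ε D a, S.Nonempty → Eps σ σ' ε → RU S N ε → Ray S N a → σ a < 0 → 0 < σ' a →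
    gD σ σ' ε S N (D + dv a) = (starRingEnd ℂ) (gD σ σ' ε S N D)
  nn : ∀ S N ε D a, S.Nonempty → Eps σ σ' ε → RU S N ε → Ray S N a → σ a < 0 → σ' a < 0 →
    gD σ σ' ε S N (D + dv a) = -(starRingEnd ℂ) (gD σ σ' ε S N D)
  /-- homothety by an element of signature `(-,+)` for a general set -/
  cj : ∀ ε Λ, Eps σ σ' ε → Lat Λ → Stab ε Λ → 0 ∉ Λ → ∀ u : K, σ u < 0 → 0 < σ' u →
    LX σ σ' ε {y | u * y ∈ Λ} = (starRingEnd ℂ) (LX σ σ' ε Λ)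
  /-- the argument of a value is rational -/
  root : ∀ ε L x, Eps σ σ' ε → ELat ε L → (ε - 1) * x ∈ L → x ∉ L →
    ∃ n : ℕ, n ≠ 0 ∧ (Fm σ σ' ε L x / (starRingEnd ℂ) (Fm σ σ' ε L x)) ^ n = 1
  fm : ∀ S N ε D, ∀ x ∈ Lam S N D, FD σ σ' ε S N D = Fm σ σ' ε (lat S N D) x

/-- From one lattice to its wide class. -/
def TySt : Prop :=
  ∀ S N ε D (O : ValuationSubring ℂ) (p : ℕ) (q : Pr K), S.Nonempty → Eps σ σ' ε → RU S N ε →
    p.Prime → O.valuation p < 1 → q ∉ S →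
    (∀ x, (ε - 1) * x ∈ lat S N D →
      Cg O (Fm σ σ' ε (lat S N (D + pd q)) x) (Fm σ σ' ε (lat S N D) x ^ p)) →
    TyF σ σ' ε S N O p q D

/-- The congruence for a power of the values, uniformly in the class. -/
def KUSt : Prop :=
  ∀ S N ε, S.Nonempty → Eps σ σ' ε → RU S N ε → ∃ J B : ℕ, J ≠ 0 ∧ ∀ p q q', B < p → Spl p q q' →
    ∀ O : ValuationSubring ℂ, O.valuation p < 1 →
      (∀ D, Cg O (FD σ σ' ε S N (D + pd q) ^ J) ((FD σ σ' ε S N D ^ J) ^ p)) ∨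
      (∀ D, Cg O (FD σ σ' ε S N (D + pd q') ^ J) ((FD σ σ' ε S N D ^ J) ^ p))

/-- The congruence for the square root in the exceptional case. -/
def KXSt : Prop :=
  ∀ S N η, S.Nonempty → RU S N η → σ η < 0 → 0 < σ' η → Eps σ σ' (η ^ 2) →
    ∃ B : ℕ, ∀ p q q', B < p → Spl p q q' → η ^ ((p - 1) / 2) + 1 ∈ pw (q.valuation K) 1 →
    ∀ D, ∃ (ζ : ℂ) (n : ℕ), n ≠ 0 ∧ ζ ^ n = 1 ∧ ∀ O : ValuationSubring ℂ, O.valuation p < 1 →
      Cg O ((Real.exp ((gD σ σ' (η ^ 2) S N D).re / 2) : ℂ) ^ p)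
        (ζ * Real.exp ((gD σ σ' (η ^ 2) S N (D + pd q)).re / 2)) ∨
      TyF σ σ' (η ^ 2) S N O p q' D

/-- The zeta function of a ray class at zero. -/
def CZSt : Prop :=
  ∀ S N η (m : ℕ), S.Nonempty → UGen σ σ' S N η → m ≠ 0 → Eps σ σ' (η ^ m) → ∀ D,
    ∃ Z, IsCont (czeta (cls σ' S N D)) Z ∧ Z 0 = 0 ∧
      deriv Z 0 = (((gD σ σ' (η ^ m) S N D).re / m : ℝ) : ℂ)

/-- Existence of the system of values. -/
def SysSt : Prop :=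
  ∀ (S : Finset (Pr K)) (N : ℕ), S.Nonempty → ∃ V : Cl σ' S N → ℝ, Sys σ V

end One

/-! ### Extensions -/

section Two

variable {K : Type} [Field K] [NumberField K] (σ σ' : K →+* ℝ)
  (H : Type) [Field H] [NumberField H] [Algebra K H] [IsAbelianGalois K H]

/-- The Artin map on ray classes. -/
structure ArtSt : Prop where
  cls : ∀ S N, Rec H σ' S N → ∀ D, art H (cls σ' S N D) = artD H S D
  add : ∀ S N, Rec H σ' S N → ∀ a b : Cl σ' S N, art H (a + b) = art H a * art H b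
  prime : ∀ S N, Rec H σ' S N → ∀ q ∉ S, art H (StarkD.cls σ' S N (pd q)) = fr K H q
  prin : ∀ S N, Rec H σ' S N → ∀ a, PS S a → art H (StarkD.cls σ' S N (dv a)) = ev (fr K H) (dv a)
  ideal : ∀ S N, Rec H σ' S N → ∀ I, PrimeTo S I →
    art H (StarkD.cls σ' S N (idv I)) = artin K H I

/-- The reciprocity law with its sign at `σ'`. -/
def SignSt : Prop :=
  ∀ (S : Finset (Pr K)) (φ : H →+* ℝ), UnrO H S → φ.comp (algebraMap K H) = σ →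
    ∃ N, Rec H σ' S N ∧ ∀ τ : H ≃ₐ[K] H, IsCj σ' τ → ∀ a : K, Ray S N a →
      ev (fr K H) (dv a) = 1 ∨ ev (fr K H) (dv a) = τ

/-- The zeta function of an Artin class is a sum over ray classes. -/
def ZetaSt : Prop :=
  ∀ (S : Finset (Pr K)) (N : ℕ) (V : Cl σ' S N → ℝ), Rec H σ' S N → Finite (Cl σ' S N) →
    (∀ c, ∃ Z, IsCont (czeta c) Z ∧ Z 0 = 0 ∧ deriv Z 0 = Real.log (V c)) →
    ∀ g, ∃ Z, IsCont (pzeta K H S g) Z ∧ Z 0 = 0 ∧ deriv Z 0 = lsum H V g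

/-- Existence of a large field. -/
def FldSt : Prop :=
  ∀ (φ : H →+* ℝ) (T : Set ℂ), T.Finite → (∀ z ∈ T, IsAlgebraic ℚ z) →
    ∃ (M : Type) (_ : Field M) (_ : NumberField M) (_ : Algebra K M) (_ : Algebra H M)
      (_ : IsScalarTower K H M) (ι : M →+* ℂ), IsGalois ℚ M ∧
      (∀ y : H, ι (algebraMap H M y) = φ y) ∧ ∀ z ∈ T, ∃ y, ι y = z

/-- Existence of the frame. -/
def FrobSt : Prop :=
  ∀ (S : Finset (Pr K)) (φ : H →+* ℝ), UnrO H S → φ.comp (algebraMap K H) = σ →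
    ∀ (M : Type) [Field M] [NumberField M] [Algebra K M] [Algebra H M] [IsScalarTower K H M]
      (ι : M →+* ℂ), IsGalois ℚ M → (∀ y : H, ι (algebraMap H M y) = φ y) →
      ∃ r₁ r₂ ρ, Frame σ σ' φ ι r₁ r₂ ρ

/-- The action of the Galois group on the values. -/
def ActSt : Prop :=
  ∀ (S : Finset (Pr K)) (N : ℕ) (V : Cl σ' S N → ℝ) (η : K) (J B : ℕ) (φ : H →+* ℝ)
    (M : Type) [Field M] [NumberField M] [Algebra K M] [Algebra H M] (ι : M →+* ℂ)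
    (r₁ r₂ : (M ≃ₐ[K] M) →* (H ≃ₐ[K] H)) (ρ : M ≃ₐ[K] M) (u : Cl σ' S N → M) (r : M),
    Rec H σ' S N → (∀ c, 0 < V c) → (∀ c, IsIntegral ℤ (V c : ℂ) ∧ IsIntegral ℤ (V c : ℂ)⁻¹) →
    IsU η → σ η < 0 → J ≠ 0 → Kron V η J B → Frame σ σ' φ ι r₁ r₂ ρ →
    (∀ c, ι (u c) = V c) → ι r ^ 2 = σ η →
    (∃ a, art H a = r₂ ρ ∧ ∀ c, u (c + a) ^ 2 = u c ^ 2) ∨
    ((∀ γ : M ≃ₐ[K] M, ∃ a, art H a = r₁ γ ∧ ∀ c, γ (u c ^ 2) = u (c + a) ^ 2) ∧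
      ∀ (γ δ : M ≃ₐ[K] M) c, γ (δ (u c)) = δ (γ (u c)))

/-- Descent to `H` and the abelian condition. -/
def FinSt : Prop :=
  ∀ (S : Finset (Pr K)) (N : ℕ) (V : Cl σ' S N → ℝ) (φ : H →+* ℝ)
    (M : Type) [Field M] [NumberField M] [Algebra K M] [Algebra H M] (ι : M →+* ℂ)
    (r₁ r₂ : (M ≃ₐ[K] M) →* (H ≃ₐ[K] H)) (ρ : M ≃ₐ[K] M) (u : Cl σ' S N → M),
    Rec H σ' S N → Finite (Cl σ' S N) → (∀ c, 0 < V c) →
    (∀ c, IsIntegral ℤ (V c : ℂ) ∧ IsIntegral ℤ (V c : ℂ)⁻¹) →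
    Frame σ σ' φ ι r₁ r₂ ρ → (∀ c, ι (u c) = V c) →
    (∀ γ : M ≃ₐ[K] M, ∃ a, art H a = r₁ γ ∧ ∀ c, γ (u c ^ 2) = u (c + a) ^ 2) →
    (∀ (γ δ : M ≃ₐ[K] M) c, γ (δ (u c)) = δ (γ (u c))) →
    ∃ ε : H, IsU ε ∧ (∀ g : H ≃ₐ[K] H, φ (g ε) = Real.exp (-2 * lsum H V g)) ∧ AbelRoot K 2 ε

/-- From the explicit data to the statement of the conjecture. -/
def EndSt : Prop :=
  ∀ (S : Finset (Pr K)) (φ : H →+* ℝ) (l : (H ≃ₐ[K] H) → ℝ) (τ : H ≃ₐ[K] H) (ε : H),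
    φ.comp (algebraMap K H) = σ →
    (∀ g, ∃ Z, IsCont (pzeta K H S g) Z ∧ deriv Z 0 = l g) → IsCj σ' τ → (∀ g, l (g * τ) = -l g) →
    IsU ε → (∀ g : H ≃ₐ[K] H, φ (g ε) = Real.exp (-2 * l g)) → AbelRoot K 2 ε →
    Stark K S (plc φ)

end Two

end Pool.Agent.StarkD
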