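import Pool.Agent.Lib.MP_ca56d1_nt.D.St

/-! Construction of the system of values on ray classes. -/

namespace Pool.Agent.StarkD

open NumberField IsDedekindDomain Pool.Agent.Stark Pool.Agent.Stark.AR Pool.Agent.RM StarkStmt
open scoped IsMulCommutative Classical nonZeroDivisors

variable {K : Type} [Field K] [NumberField K] {σ σ' : K →+* ℝ}

omit [NumberField K] in
theorem bothS (hC : PartC σ σ') : Both σ σ' :=
  fun ε L hε hL p hp h5 s t h h' hE n hn h1 h2 O hO =>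
    hC.both ε L hε hL p hp h5 s t h h' hE.ps hE.pt hE.ind hE.es hE.et hE.mul hE.sq n hn h1 h2 O hO

namespace SysAux

variable {O : ValuationSubring ℂ}

theorem val_le {x : ℂ} (h : IsIntegral ℤ x) : O.valuation x ≤ 1 := by
  rw [O.valuation_le_one_iff]
  have h1 : IsIntegral O x := h.tower_top
  obtain ⟨y, hy⟩ := IsIntegrallyClosed.algebraMap_eq_of_integral h1
  rw [← hy]
  exact y.2

theorem cg_mul {a b c d : ℂ} (h1 : Cg O a b) (h2 : Cg O c d) (hb : O.valuation b ≤ 1)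
    (hc : O.valuation c ≤ 1) : Cg O (a * c) (b * d) := by
  unfold Cg at *
  rw [show a * c - b * d = (a - b) * c + b * (c - d) by ring]
  refine Valuation.map_add_lt _ ?_ ?_
  · rw [map_mul]
    exact mul_lt_one_of_lt_of_le h1 hc
  · rw [map_mul, mul_comm]
    exact mul_lt_one_of_lt_of_le h2 hb

theorem cg_symm {a b : ℂ} (h : Cg O a b) : Cg O b a := by
  unfold Cg at *
  rwa [Valuation.map_sub_swap]

theorem exp_re (z : ℂ) :
    ((Real.exp z.re : ℝ) : ℂ) ^ 2 = Complex.exp z * Complex.exp ((starRingEnd ℂ) z) := by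
  rw [← Complex.exp_add, Complex.add_conj, Complex.ofReal_exp, ← Complex.exp_nat_mul]
  push_cast
  rfl

theorem int_conj {x : ℂ} (h : IsIntegral ℤ x) : IsIntegral ℤ ((starRingEnd ℂ) x) :=
  h.map (starRingEnd ℂ).toIntAlgHom

end SysAux

open SysAux

theorem sysS (hC : PartC σ σ') (hL : LatSt K) (hG : GSt σ σ') (hE : EigSt σ σ') (hU : UnitSt σ σ')
    (hT : TySt σ σ') (h1 : KUSt σ σ') (h2 : KXSt σ σ') (h3 : CZSt σ σ') (hne : σ ≠ σ') :
    SysSt σ σ' := by
  intro S N hS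
  obtain ⟨η, hη⟩ := hU S N
  have hη0 : σ η ≠ 0 := by simpa using hη.ru.1.1
  obtain ⟨m, hm, hε⟩ : ∃ m : ℕ, ((m = 1 ∧ 0 < σ η) ∨ (m = 2 ∧ σ η < 0)) ∧ Eps σ σ' (η ^ m) := by
    have h4 := hη.one_lt
    have h5 := hη.norm
    rcases lt_or_gt_of_ne hη0 with h | h
    · refine ⟨2, Or.inr ⟨rfl, h⟩, ?_, ?_⟩
      · rw [map_pow, ← sq_abs]
        nlinarith
      · rw [map_pow, map_pow, ← mul_pow, ← sq_abs, h5, one_pow]
    · refine ⟨1, Or.inl ⟨rfl, h⟩, ?_, ?_⟩
      · rwa [pow_one, ← abs_of_pos h]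
      · rwa [pow_one, ← abs_of_pos (mul_pos h hη.pos)]
  have hm0 : m ≠ 0 := by omega
  have hru : RU S N (η ^ m) := by
    have h4 : RU S N (η * η) := ⟨⟨mul_ne_zero hη.ru.1.1 hη.ru.1.1, fun q => by
      have := hη.ru.1.2 q
      rw [og] at *
      rw [ord_mul hη.ru.1.1 hη.ru.1.1, this, add_zero]⟩, hη.ru.2.mul hη.ru.2⟩
    rcases hm with ⟨rfl, -⟩ | ⟨rfl, -⟩
    · simpa using hη.ru
    · rwa [sq]
  set ε := η ^ m with hεd
  let g := gD σ σ' ε S N
  let F := FD σ σ' ε S N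
  let π := cls σ' S N
  have goff : ∀ D D' : Dv K, (∀ q ∉ S, D q = D' q) → g D = g D' := fun D D' h => by
    simp only [g, gD, (hL.off S N D D' h).2]
  have gre : ∀ D D', π D = π D' → (g D).re = (g D').re := fun D D' h => by
    obtain ⟨a, ha, ha', hq⟩ := cls_eq.1 h
    rw [goff D' (D + dv a) fun q hq' => by rw [hq q hq']; rfl]
    have ha0 : σ a ≠ 0 := by simpa using ha.1
    rcases lt_or_gt_of_ne ha0 with h | h
    · simp only [g, hG.np S N ε D a hS hε hru ha h ha', Complex.conj_re]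
    · simp only [g, hG.pp S N ε D a hS hε hru ha h ha']
  let V : Cl σ' S N → ℝ := fun c => Real.exp ((g c.out).re / m)
  have hV : ∀ D, V (π D) = Real.exp ((g D).re / m) := fun D => by
    simp only [V]
    rw [gre _ D (cls_out _)]
  have sur : ∀ c, ∃ D, π D = c := fun c => ⟨c.out, cls_out c⟩
  obtain ⟨a₀, ha₀, hs₀⟩ := (rayT K).sgn S N fun φ => φ ≠ σ
  have hn₀ : σ a₀ < 0 := by
    have h4 : σ a₀ ≠ 0 := by simpa using ha₀.1
    exact lt_of_le_of_ne (not_lt.1 fun h => (hs₀ σ).1 h rfl) h4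
  have hp₀ : 0 < σ' a₀ := (hs₀ σ').2 hne.symm
  have Fint : ∀ D, IsIntegral ℤ (F D) ∧ IsIntegral ℤ (F D)⁻¹ := fun D => by
    obtain ⟨x, hx⟩ := hL.ne S N D
    simp only [F, hG.fm S N ε D x hx]
    exact hC.integral ε _ hε (hL.elat S N D ε hru.1) x (hL.stab S N D ε hru x hx)
  have Fcj : ∀ D, F (D + dv a₀) = Complex.exp ((starRingEnd ℂ) (g D)) := fun D => by
    simp only [F, FD, g, hG.np S N ε D a₀ hS hε hru ha₀ hn₀ hp₀]
  have greal : m = 2 → ∀ D, ((g D).re : ℂ) = g D := fun h D => by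
    have h4 : σ η < 0 := by
      rcases hm with ⟨h5, -⟩ | ⟨-, h5⟩
      · omega
      · exact h5
    have h5 := hG.np S N ε D η hS hε hru hη.ru.2 h4 hη.pos
    rw [show dv η = 0 from Finsupp.ext hη.ru.1.2, add_zero] at h5
    exact Complex.conj_eq_iff_re.1 h5.symm
  have Vsq : (m = 1 ∧ ∀ D, (V (π D) : ℂ) ^ 2 = F D * F (D + dv a₀)) ∨
      (m = 2 ∧ ∀ D, (V (π D) : ℂ) ^ 2 = F D) := by
    rcases hm with ⟨h, -⟩ | ⟨h, -⟩
    · refine Or.inl ⟨h, fun D => ?_⟩
      rw [hV, Fcj, h, Nat.cast_one, div_one, exp_re]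
      rfl
    · refine Or.inr ⟨h, fun D => ?_⟩
      rw [hV, h, Complex.ofReal_exp, ← Complex.exp_nat_mul]
      change _ = Complex.exp (g D)
      rw [← greal h D]
      congr 1
      push_cast
      simp only [Complex.ofReal_re]
      ring
  have Vint : ∀ c, IsIntegral ℤ (V c : ℂ) ∧ IsIntegral ℤ (V c : ℂ)⁻¹ := fun c => by
    obtain ⟨D, rfl⟩ := sur c
    refine ⟨IsIntegral.of_pow two_pos ?_, IsIntegral.of_pow two_pos ?_⟩
    · rcases Vsq with ⟨-, h⟩ | ⟨-, h⟩ <;> rw [h]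
      · exact (Fint _).1.mul (Fint _).1
      · exact (Fint _).1
    · rw [inv_pow]
      rcases Vsq with ⟨-, h⟩ | ⟨-, h⟩ <;> rw [h]
      · rw [mul_inv]
        exact (Fint _).2.mul (Fint _).2
      · exact (Fint _).2
  have tyV : ∀ (O : ValuationSubring ℂ) p q D, TyF σ σ' ε S N O p q D → Ty V O p q (π D) := by
    rintro O p q D h _ ⟨a, ha, rfl⟩
    rw [← map_add, ← map_add]
    rcases Vsq with ⟨-, h4⟩ | ⟨-, h4⟩ <;> rw [h4, h4]
    · have h5 := h (a * a₀) (ha.mul (PS.of_ray ha₀))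
      rw [dv_mul ha.1 ha₀.1, ← add_assoc] at h5
      rw [mul_pow, add_right_comm _ (pd q) (dv a₀)]
      exact cg_mul (h a ha) h5 (val_le ((Fint _).1.pow _)) (val_le (Fint _).1)
    · exact h a ha
  obtain ⟨B₁, hB₁⟩ := hE S N ε hε hru.1
  have locF : ∀ p q q', B₁ < p → Spl p q q' → ∀ O : ValuationSubring ℂ, O.valuation p < 1 →
      ∀ D, TyF σ σ' ε S N O p q D ∨ TyF σ σ' ε S N O p q' D := by
    intro p q q' hp hs O hO D
    obtain ⟨h5, hq, hq', h6⟩ := hB₁ p q q' hp hs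
    obtain ⟨s, t, h, h', e, e1, e2, -⟩ := h6 D
    have := (hC.cong ε _ hε (hL.elat S N D ε hru.1) p hs.1 h5 s t h h' e.ps e.pt e.ind e.es e.et
      e.mul e.sq O hO).2
    rw [e1, e2] at this
    exact this.imp (hT S N ε D O p q hS hε hru hs.1 hO hq) (hT S N ε D O p q' hS hε hru hs.1 hO hq')
  obtain ⟨J, B₂, hJ, hB₂⟩ := h1 S N ε hS hε hru
  have unifV : ∀ (O : ValuationSubring ℂ) (p : ℕ) q,
      (∀ D, Cg O (F (D + pd q) ^ J) ((F D ^ J) ^ p)) →
      ∀ c, Cg O ((V (c + π (pd q)) : ℂ) ^ (2 * J)) (((V c : ℂ) ^ (2 * J)) ^ p) := by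
    intro O p q h c
    obtain ⟨D, rfl⟩ := sur c
    rw [← map_add, pow_mul, pow_mul]
    rcases Vsq with ⟨-, h4⟩ | ⟨-, h4⟩ <;> rw [h4, h4]
    · rw [mul_pow, mul_pow, mul_pow, add_right_comm _ (pd q) (dv a₀)]
      exact cg_mul (h _) (h _) (val_le (((Fint _).1.pow _).pow _)) (val_le ((Fint _).1.pow _))
    · exact h D
  have rootV : ∃ (η' : K) (B₃ : ℕ), IsU η' ∧ σ η' < 0 ∧ ∀ p q q', B₃ < p → Spl p q q' →
      η' ^ ((p - 1) / 2) + 1 ∈ pw (q.valuation K) 1 →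
      ∀ c, ∃ (ζ : ℂ) (n : ℕ), n ≠ 0 ∧ ζ ^ n = 1 ∧ ∀ O : ValuationSubring ℂ, O.valuation p < 1 →
        Cg O ((V c : ℂ) ^ p) (ζ * V (c + π (pd q))) ∨ Ty V O p q' c := by
    rcases hm with ⟨h, -⟩ | ⟨h, h4⟩
    · have θ : ∀ D, ∃ (z : ℂ) (n : ℕ), n ≠ 0 ∧ z ^ n = 1 ∧ F D = z * V (π D) := fun D => by
        obtain ⟨x, hx⟩ := hL.ne S N D
        obtain ⟨n, hn, h5⟩ := hG.root ε _ x hε (hL.elat S N D ε hru.1) (hL.stab S N D ε hru x hx)
          (hL.notMem S N D D hS x hx)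
        rw [← hG.fm S N ε D x hx] at h5
        have h6 : (V (π D) : ℂ) ≠ 0 := by
          rw [hV]
          exact_mod_cast (Real.exp_pos _).ne'
        refine ⟨F D / V (π D), 2 * n, by omega, ?_, by field_simp⟩
        rw [pow_mul, ← h5, div_pow _ _ 2, hV, h, Nat.cast_one, div_one, exp_re]
        congr 1
        simp only [F, FD, g, ← Complex.exp_conj]
        field_simp
      refine ⟨-1, B₁, ⟨by simp, fun q => by simp [og]⟩, by simp, fun p q q' hp hs _ c => ?_⟩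
      obtain ⟨D, rfl⟩ := sur c
      obtain ⟨z, n, hn, hz, e⟩ := θ D
      obtain ⟨z', n', hn', hz', e'⟩ := θ (D + pd q)
      have hz0 : z ≠ 0 := by
        rintro rfl
        simp [hn] at hz
      refine ⟨z' / z ^ p, n * n', mul_ne_zero hn hn', ?_, fun O hO => ?_⟩
      · rw [div_pow, mul_comm n, pow_mul, hz', one_pow, ← pow_mul, mul_comm p, mul_comm n',
          mul_assoc, pow_mul, hz, one_pow, div_one]
      refine (locF p q q' hp hs O hO D).imp (fun h5 => ?_) (tyV O p q' D)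
      have h6 := h5 1 (PS.of_ray (Ray.one S N))
      rw [show dv (1 : K) = 0 from Finsupp.ext fun q => by simp [og], add_zero] at h6
      change Cg O (F _) (F _ ^ p) at h6
      rw [e, e'] at h6
      have h7 : O.valuation (z ^ p)⁻¹ ≤ 1 := by
        refine val_le (IsIntegral.of_pow (Nat.pos_of_ne_zero hn) ?_)
        rw [inv_pow, ← pow_mul, mul_comm, pow_mul, hz, one_pow, inv_one]
        exact isIntegral_one
      have h8 := mul_lt_one_of_lt_of_le (cg_symm h6) h7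
      rw [← map_mul] at h8
      unfold Cg
      rw [← map_add]
      refine lt_of_eq_of_lt (congrArg _ ?_) h8
      field_simp
      ring
    · subst h
      obtain ⟨B₃, hB₃⟩ := h2 S N η hS hη.ru h4 hη.pos hε
      refine ⟨η, B₃, hη.ru.1, h4, fun p q q' hp hs h5 c => ?_⟩
      obtain ⟨D, rfl⟩ := sur c
      obtain ⟨ζ, n, hn, hζ, h6⟩ := hB₃ p q q' hp hs h5 D
      refine ⟨ζ, n, hn, hζ, fun O hO => (h6 O hO).imp (fun h7 => ?_) (tyV O p q' D)⟩
      rw [← map_add, hV, hV]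
      exact_mod_cast h7
  obtain ⟨η', B₃, e1, e2, e3⟩ := rootV
  refine ⟨V, fun c => Real.exp_pos _, fun a c ha ha' => ?_, Vint, fun c => ?_,
    η', J, B₁ + B₂ + B₃, e1, e2, hJ, fun p q q' hp hs O hO c => ?_, fun p q q' hp hs O hO => ?_,
    fun p q q' hp hs => e3 p q q' (by omega) hs⟩
  · obtain ⟨D, rfl⟩ := sur c
    rw [← map_add, hV, hV, ← Real.exp_neg, ← neg_div]
    have ha0 : σ a ≠ 0 := by simpa using ha.1
    rcases lt_or_gt_of_ne ha0 with h | h
    · simp only [g, hG.nn S N ε D a hS hε hru ha h ha', Complex.neg_re, Complex.conj_re]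
    · simp only [g, hG.pn S N ε D a hS hε hru ha h ha', Complex.neg_re]
  · obtain ⟨D, rfl⟩ := sur c
    rw [hV, Real.log_exp]
    exact h3 S N η m hS hη hm0 hε D
  · obtain ⟨D, rfl⟩ := sur c
    exact (locF p q q' (by omega) hs O hO D).imp (tyV O p q D) (tyV O p q' D)
  · exact (hB₂ p q q' (by omega) hs O hO).imp (unifV O p q) (unifV O p q')

end Pool.Agent.StarkD
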