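import Pool.Agent.Lib.MP_ca56d1_nt.AR.All
import Pool.Agent.Lib.MP_ca56d1_nt.Cont

/-! Elements whose logarithms are the derivatives at zero of the zeta functions of Artin
classes: uniqueness, change of `S`, change of the field. -/

set_option linter.unusedSectionVars false

namespace Pool.Agent.StarkD

open NumberField IsDedekindDomain Pool.Agent.Stark Pool.Agent.Stark.AR StarkStmt Filter Topology
open scoped IsMulCommutative Classical

variable {K H : Type} [Field K] [NumberField K] [Field H] [NumberField H] [Algebra K H]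

/-- The value part of the conjecture at the real embedding `φ`. -/
def Val (S : Finset (Pr K)) (φ : H →+* ℝ) (ε : H) : Prop :=
  ∃ Z : (H ≃ₐ[K] H) → ℂ → ℂ, (∀ g, IsCont (pzeta K H S g) (Z g)) ∧ (∀ g, Z g 0 = 0) ∧
    (∀ g : H ≃ₐ[K] H, 0 < φ (g ε)) ∧
    ∀ g : H ≃ₐ[K] H, (Real.log (φ (g ε)) : ℂ) = -2 * deriv (Z g) 0

variable (K) in
/-- The value part of the conjecture for all abelian extensions that split at `s`. -/
def WS (s : K →+* ℝ) : Prop :=
  ∀ (H : Type) [Field H] [NumberField H] [Algebra K H] [IsAbelianGalois K H] (S : Finset (Pr K))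
    (φ : H →+* ℝ), S.Nonempty → UnrO H S → φ.comp (algebraMap K H) = s → ∃ ε : H, Val S φ ε

theorem cont_uniq {f Z Z' : ℂ → ℂ} (h : IsCont f Z) (h' : IsCont f Z') : Z =ᶠ[𝓝 0] Z' := by
  have hm : MeromorphicOn (Z - Z') Set.univ := h.1.sub h'.1
  have h2 : meromorphicOrderAt (Z - Z') 2 = ⊤ := by
    rw [meromorphicOrderAt_eq_top_iff]
    have ho : {s : ℂ | 1 < s.re} ∈ 𝓝 (2 : ℂ) :=
      (isOpen_lt continuous_const Complex.continuous_re).mem_nhds (by simp)
    filter_upwards [nhdsWithin_le_nhds ho] with s hs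
    rw [Pi.sub_apply, h.2.2 s hs, h'.2.2 s hs, sub_self]
  have h0 : meromorphicOrderAt (Z - Z') 0 = ⊤ := by
    by_contra hne
    exact hm.meromorphicOrderAt_ne_top_of_isPreconnected isPreconnected_univ (Set.mem_univ 0)
      (Set.mem_univ 2) hne h2
  rw [meromorphicOrderAt_eq_top_iff] at h0
  refine (h.2.1.frequently_eq_iff_eventually_eq h'.2.1).1 (Eventually.frequently ?_)
  filter_upwards [h0] with s hs using sub_eq_zero.1 hs

theorem Val.ne {S : Finset (Pr K)} {φ : H →+* ℝ} {ε : H} (h : Val S φ ε) : ε ≠ 0 := by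
  obtain ⟨_, _, _, h1, _⟩ := h
  rintro rfl
  simpa using h1 1

theorem Val.uniq {S : Finset (Pr K)} {φ : H →+* ℝ} {ε ε' : H} (h : Val S φ ε) (h' : Val S φ ε') :
    ε = ε' := by
  obtain ⟨Z, h1, -, h3, h4⟩ := h
  obtain ⟨Z', h1', -, h3', h4'⟩ := h'
  have h5 := (h4 1).trans (((cont_uniq (h1 1) (h1' 1)).deriv_eq ▸ (h4' 1).symm :))
  exact φ.injective (Real.log_injOn_pos (h3 1) (h3' 1) (Complex.ofReal_injective h5))

/-- The terms of the series, extended by zero. -/
noncomputable def tz (H : Type) [Field H] [NumberField H] [Algebra K H] (S : Finset (Pr K))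
    (g : H ≃ₐ[K] H) (s : ℂ) (I : Ideal (𝓞 K)) : ℂ :=
  if PrimeTo S I ∧ artin K H I = g then (Ideal.absNorm I : ℂ) ^ (-s) else 0

theorem pzeta_eq (S : Finset (Pr K)) (g : H ≃ₐ[K] H) (s : ℂ) :
    pzeta K H S g s = ∑' I, tz H S g s I := by
  have := tsum_subtype {I : Ideal (𝓞 K) | PrimeTo S I ∧ artin K H I = g}
    fun I => (Ideal.absNorm I : ℂ) ^ (-s)
  refine this.trans (tsum_congr fun I => ?_)
  unfold tz
  by_cases h : PrimeTo S I ∧ artin K H I = g
  · rw [if_pos h, Set.indicator_of_mem (by exact h)]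
  · rw [if_neg h, Set.indicator_of_notMem (by exact h)]

theorem summable_tz (S : Finset (Pr K)) (g : H ≃ₐ[K] H) {s : ℂ} (hs : 1 < s.re) :
    Summable (tz H S g s) :=
  Summable.of_norm_bounded (EulerAux.summable_all hs) fun I => by
    unfold tz
    split_ifs <;> simp

variable [IsAbelianGalois K H]

theorem pzeta_insert {S : Finset (Pr K)} {q : Pr K} (hq : q ∉ S) (g : H ≃ₐ[K] H) {s : ℂ}
    (hs : 1 < s.re) :
    pzeta K H (insert q S) g s = pzeta K H S g s -
      (Ideal.absNorm q.asIdeal : ℂ) ^ (-s) * pzeta K H S (g * (fr K H q)⁻¹) s := by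
  have h1 := (summable_tz S g hs).tsum_sub (summable_tz (insert q S) g hs)
  have hinj : Function.Injective fun J : Ideal (𝓞 K) => q.asIdeal * J :=
    mul_right_injective₀ q.ne_bot
  have h2 := hinj.tsum_eq (f := fun I => tz H S g s I - tz H (insert q S) g s I) (by
    intro I hI
    by_contra h
    apply hI
    have hd : ¬ q.asIdeal ∣ I := by
      rintro ⟨J, rfl⟩
      exact h ⟨J, rfl⟩
    unfold tz
    simp only [EulerAux.primeTo_insert, hd, not_false_eq_true, and_true, sub_self])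
  have h3 : ∀ J : Ideal (𝓞 K), tz H S g s (q.asIdeal * J) - tz H (insert q S) g s (q.asIdeal * J) =
      (Ideal.absNorm q.asIdeal : ℂ) ^ (-s) * tz H S (g * (fr K H q)⁻¹) s J := by
    intro J
    unfold tz
    rw [if_neg (c := PrimeTo (insert q S) _ ∧ _)
      fun h => ((EulerAux.primeTo_insert _).1 h.1).2 (dvd_mul_right _ _), sub_zero]
    have h4 : PrimeTo S (q.asIdeal * J) ∧ artin K H (q.asIdeal * J) = g ↔
        PrimeTo S J ∧ artin K H J = g * (fr K H q)⁻¹ := by
      rw [EulerAux.primeTo_mul hq]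
      refine and_congr_right fun hJ => ?_
      have h5 := RecAux.artin_pow (L := H) q 1
      rw [pow_one, pow_one] at h5
      rw [RecAux.artin_mul q.ne_bot hJ.1, h5, eq_mul_inv_iff_mul_eq, mul_comm]
    by_cases hJ : PrimeTo S J ∧ artin K H J = g * (fr K H q)⁻¹
    · rw [if_pos hJ, if_pos (h4.2 hJ), map_mul, Nat.cast_mul, Complex.natCast_mul_natCast_cpow]
    · rw [if_neg hJ, if_neg fun h => hJ (h4.1 h), mul_zero]
  rw [tsum_congr h3, tsum_mul_left, h1] at h2
  rw [pzeta_eq, pzeta_eq, pzeta_eq]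
  linear_combination h2

theorem Val.euler {S : Finset (Pr K)} {φ : H →+* ℝ} {ε : H} (h : Val S φ ε) {q : Pr K}
    (hq : q ∉ S) : Val (insert q S) φ (ε / (fr K H q)⁻¹ ε) := by
  obtain ⟨Z, h1, h2, h3, h4⟩ := h
  have e : ∀ g : H ≃ₐ[K] H, φ (g (ε / (fr K H q)⁻¹ ε)) =
      φ (g ε) / φ ((g * (fr K H q)⁻¹) ε) := fun g => by
    rw [map_div₀, map_div₀, AlgEquiv.mul_apply]
  refine ⟨fun g s => Z g s - (Ideal.absNorm q.asIdeal : ℂ) ^ (-s) * Z (g * (fr K H q)⁻¹) s,
    fun g => ⟨fun x hx => ?_, ?_, fun s hs => ?_⟩, fun g => ?_, fun g => ?_, fun g => ?_⟩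
  · exact ((h1 g).1 x hx).fun_sub ((ContAux.an_pow q x).meromorphicAt.fun_mul ((h1 _).1 x hx))
  · exact (h1 g).2.1.sub ((ContAux.an_pow q 0).mul (h1 _).2.1)
  · rw [pzeta_insert hq g hs, ← (h1 _).2.2 s hs, ← (h1 _).2.2 s hs]
  · simp only [h2, mul_zero, sub_zero]
  · rw [e]
    exact div_pos (h3 _) (h3 _)
  · have h5 := ((h1 g).2.1.differentiableAt.hasDerivAt.fun_sub
      ((ContAux.an_pow q 0).differentiableAt.hasDerivAt.fun_mul
        (h1 (g * (fr K H q)⁻¹)).2.1.differentiableAt.hasDerivAt)).deriv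
    rw [h5, e, Real.log_div (h3 _).ne' (h3 _).ne', Complex.ofReal_sub, h4, h4, h2]
    simp only [neg_zero, Complex.cpow_zero]
    ring

section Tower

variable {L : Type} [Field L] [NumberField L] [Algebra K L] [Algebra H L] [IsScalarTower K H L]
  [IsAbelianGalois K L]

theorem res_artin {S : Finset (Pr K)} (hS : UnrO L S) {I : Ideal (𝓞 K)} (hI : PrimeTo S I) :
    AlgEquiv.restrictNormalHom H (artin K L I) = artin K H I := by
  rw [RecAux.artin_eq, RecAux.artin_eq]
  refine (map_multiset_prod (AlgEquiv.restrictNormalHom (F := K) (K₁ := L) H) _).trans ?_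
  rw [Multiset.map_map]
  congr 1
  refine Multiset.map_congr rfl fun P hP => ?_
  obtain ⟨q, hq, rfl⟩ := mem_factors hI hP
  ext x
  apply (algebraMap H L).injective
  exact (AlgEquiv.restrictNormal_commutes (fr K L q) H x).trans
    ((hTow K L H).res inferInstance S hS q hq x)

theorem res_eq_iff (a b : L ≃ₐ[K] L) :
    AlgEquiv.restrictNormalHom H a = AlgEquiv.restrictNormalHom H b ↔
      ∃ h : L ≃ₐ[H] L, a = b * h.restrictScalars K := by
  constructor
  · intro e
    have h1 : ∀ x : H, (b⁻¹ * a) (algebraMap H L x) = algebraMap H L x := fun x => by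
      have h2 : AlgEquiv.restrictNormalHom H (b⁻¹ * a) = 1 := by
        rw [map_mul, map_inv, e, inv_mul_cancel]
      exact (AlgEquiv.restrictNormal_commutes (b⁻¹ * a) H x).symm.trans
        (congrArg (algebraMap H L) (congrArg (fun g : H ≃ₐ[K] H => g x) h2))
    refine ⟨AlgEquiv.ofRingEquiv (f := (b⁻¹ * a).toRingEquiv) h1, ?_⟩
    exact (mul_inv_cancel_left b a).symm
  · rintro ⟨h, rfl⟩
    rw [map_mul, mul_eq_left]
    ext x
    apply (algebraMap H L).injective
    exact (AlgEquiv.restrictNormal_commutes (h.restrictScalars K) H x).trans (h.commutes x)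

theorem pzeta_tower {S : Finset (Pr K)} (hS : UnrO L S) (b : L ≃ₐ[K] L) {s : ℂ} (hs : 1 < s.re) :
    pzeta K H S (AlgEquiv.restrictNormalHom H b) s =
      ∑ h : L ≃ₐ[H] L, pzeta K L S (b * h.restrictScalars K) s := by
  simp only [pzeta_eq]
  rw [← Summable.tsum_finsetSum fun h _ => summable_tz S _ hs]
  refine tsum_congr fun I => ?_
  unfold tz
  by_cases hI : PrimeTo S I
  · simp only [hI, true_and]
    rw [← res_artin hS hI]
    split_ifs with h
    · obtain ⟨h0, e⟩ := (res_eq_iff _ _).1 h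
      rw [Finset.sum_eq_single h0, if_pos e]
      · intro h1 _ hne
        refine if_neg fun e' => hne ?_
        exact AlgEquiv.restrictScalars_injective K (mul_left_cancel (e'.symm.trans e))
      · simp
    · exact (Finset.sum_eq_zero fun h1 _ => if_neg fun e => h ((res_eq_iff _ _).2 ⟨h1, e⟩)).symm
  · simp [hI]

theorem Val.norm {S : Finset (Pr K)} (hS : UnrO L S) {ψ : L →+* ℝ} {ε : L} (h : Val S ψ ε) :
    Val S (ψ.comp (algebraMap H L)) (Algebra.norm H ε) := by
  obtain ⟨Z, h1, h2, h3, h4⟩ := h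
  have : IsGalois H L := IsGalois.tower_top_of_isGalois K H L
  choose l hl using AlgEquiv.restrictNormalHom_surjective (F := K) (K₁ := H) L
  have e : ∀ g : H ≃ₐ[K] H, ψ.comp (algebraMap H L) (g (Algebra.norm H ε)) =
      ∏ h : L ≃ₐ[H] L, ψ ((l g * h.restrictScalars K) ε) := fun g => by
    have h5 := AlgEquiv.restrictNormal_commutes (l g) H (Algebra.norm H ε)
    have h6 : (l g).restrictNormal H = g := hl g
    rw [h6, Algebra.norm_eq_prod_automorphisms, map_prod] at h5
    rw [RingHom.comp_apply, h5, map_prod]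
    rfl
  refine ⟨fun g s => ∑ h : L ≃ₐ[H] L, Z (l g * h.restrictScalars K) s,
    fun g => ⟨fun x hx => ?_, ?_, fun s hs => ?_⟩, fun g => ?_, fun g => ?_, fun g => ?_⟩
  · exact MeromorphicAt.fun_sum fun i _ => (h1 _).1 x hx
  · exact Finset.analyticAt_fun_sum _ fun i _ => (h1 _).2.1
  · conv_rhs => rw [← hl g]
    rw [pzeta_tower hS _ hs]
    simp only [(h1 _).2.2 s hs]
  · simp only [h2, Finset.sum_const_zero]
  · rw [e]
    exact Finset.prod_pos fun h _ => h3 _
  · have h5 := (HasDerivAt.fun_sum (u := Finset.univ) fun (h : L ≃ₐ[H] L) _ =>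
      (h1 (l g * h.restrictScalars K)).2.1.differentiableAt.hasDerivAt).deriv
    rw [h5, e, Real.log_prod fun h _ => (h3 _).ne', Complex.ofReal_sum, Finset.mul_sum]
    exact Finset.sum_congr rfl fun h _ => h4 _

end Tower

end Pool.Agent.StarkD
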